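import Mathlib
import Pool.Agent.Helper743.Oracle

set_option autoImplicit false

/-! Basic definitions for embeddings of locally countable orders in the Turing degrees. -/

namespace Pool.Agent.H246

open Pool.Agent.Helper743

/-- the oracles `f q`, `q ∈ Q` -/
def Ora {P : Type} (f : P → ℕ → ℕ) (Q : Set P) : Set (ℕ →. ℕ) :=
  {g | ∃ q ∈ Q, g = (f q : ℕ →. ℕ)}

/-- join of the functions `f q` for `q` in the list `R` -/
def J {P : Type} (f : P → ℕ → ℕ) (R : List P) : ℕ → ℕ := fun t =>
  match R[t.unpair.1]? with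
  | some q => f q t.unpair.2
  | none => 0

/-- computable monotone functionals -/
def IsFn (ev : List ℕ → ℕ → Option ℕ) : Prop :=
  Computable₂ ev ∧ ∀ σ τ x y, σ <+: τ → ev σ x = some y → ev τ x = some y

/-- the functional `ev` with oracle `X` gives value `v` at `m` -/
def Hal (ev : List ℕ → ℕ → Option ℕ) (X : ℕ → ℕ) (m v : ℕ) : Prop :=
  ∃ n, ev (pre X n) m = some v

/-- the `c`-th finite list coded by `r` -/
def col (r : ℕ → ℕ) (c : ℕ) : List ℕ := (Encodable.decode (r c) : Option (List ℕ)).getD []

open Classical in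
/-- The family of functions attached to the parameter `r`: off the block `K` it is `f`, and for
`p ∈ K` the column `n` of the value at `p` is the finite list coded by `r` at the place
`⟨idx p, n⟩`, followed by the corresponding values of the function attached to `e p n`
(by zeros if `e p n` is undefined). -/
noncomputable def F {P : Type} (K : Set P) (idx : P → ℕ) (e : P → ℕ → Option P) (f : P → ℕ → ℕ)
    (r : ℕ → ℕ) (p : P) (j : ℕ) : ℕ :=
  if p ∈ K then
    match (col r (Nat.pair (idx p) j.unpair.1))[j.unpair.2]? with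
    | some a => a
    | none => match e p j.unpair.1 with
      | none => 0
      | some q => if h : j.unpair.2 < j then F K idx e f r q j.unpair.2 else 0
  else f p j
termination_by j

/-- incomparable elements with a common upper bound -/
def Nb {P : Type} [PartialOrder P] (p : P) : Set P :=
  {q | ¬ p ≤ q ∧ ¬ q ≤ p ∧ ∃ r, p ≤ r ∧ q ≤ r}

/-- a pair of opposite requirements can be met densely, with finite information -/
def Dense2 (U : (ℕ → ℕ) → (ℕ → ℕ) → Prop) : Prop :=
  ∀ (N : ℕ) (r r' : ℕ → ℕ), ∃ (s s' : ℕ → ℕ) (M : ℕ), (∀ c < N, s c = r c) ∧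
    (∀ c < N, s' c = r' c) ∧
    ∀ t t' : ℕ → ℕ, (∀ c < M, t c = s c) → (∀ c < M, t' c = s' c) → U t t'

/-- the covering number of the ideal of meager subsets of Baire space: the least cardinality of
a family of meager sets whose union is the whole space -/
noncomputable def covM : Cardinal.{0} :=
  sInf {c | ∃ C : Set (Set (ℕ → ℕ)), (∀ s ∈ C, IsMeagre s) ∧ ⋃₀ C = Set.univ ∧
    c = Cardinal.mk C}

/-- the invariant of the recursion -/
def Inv {P : Type} [PartialOrder P] (S : Set P) (f : P → ℕ → ℕ) : Prop :=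
  (∀ p ∈ S, ∀ q ∈ S, q ≤ p → TR (f q) (f p)) ∧
  (∀ Q : Finset P, (Q : Set P) ⊆ S → BddAbove (Q : Set P) → ∀ x ∈ S, (∀ q ∈ Q, ¬ x ≤ q) →
    ¬ RecT (Ora f (Q : Set P)) (f x))

end Pool.Agent.H246
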