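import Mathlib
import Pool.Agent.H246.Defs

set_option autoImplicit false

/-! Basic facts on functionals and joins. -/

namespace Pool.Agent.H246

open Pool.Agent.Helper743

lemma Hal.unique {ev : List ℕ → ℕ → Option ℕ} (hev : IsFn ev) {X : ℕ → ℕ} {m v w : ℕ}
    (hv : Hal ev X m v) (hw : Hal ev X m w) : v = w := by
  obtain ⟨a, ha⟩ := hv
  obtain ⟨b, hb⟩ := hw
  have h1 := hev.2 _ _ _ _ (pre_prefix X (le_max_left a b)) ha
  have h2 := hev.2 _ _ _ _ (pre_prefix X (le_max_right a b)) hb
  rw [h1] at h2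
  simpa using h2

lemma RecT.mono {O O' : Set (ℕ →. ℕ)} {f : ℕ → ℕ} (hf : RecT O f) (h : O ⊆ O') : RecT O' f :=
  RecT.subst hf (fun g hg => Nat.RecursiveIn.oracle _ (h hg))

lemma Ora_mono {P : Type} (f : P → ℕ → ℕ) {Q Q' : Set P} (h : Q ⊆ Q') : Ora f Q ⊆ Ora f Q' := by
  rintro g ⟨q, hq, rfl⟩
  exact ⟨q, h hq, rfl⟩

lemma Ora_congr {P : Type} {f g : P → ℕ → ℕ} {Q : Set P} (h : ∀ q ∈ Q, f q = g q) :
    Ora f Q = Ora g Q := by
  ext k
  constructor
  · rintro ⟨q, hq, rfl⟩
    exact ⟨q, hq, by rw [h q hq]⟩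
  · rintro ⟨q, hq, rfl⟩
    exact ⟨q, hq, by rw [h q hq]⟩

lemma recT_mem {P : Type} (f : P → ℕ → ℕ) {Q : Set P} {q : P} (hq : q ∈ Q) :
    RecT (Ora f Q) (f q) := Nat.RecursiveIn.oracle _ ⟨q, hq, rfl⟩

lemma recT_trans {P : Type} {f : P → ℕ → ℕ} {Q : Set P} {O : Set (ℕ →. ℕ)} {g : ℕ → ℕ}
    (h : RecT (Ora f Q) g) (h' : ∀ q ∈ Q, RecT O (f q)) : RecT O g := by
  refine RecT.subst h ?_
  rintro k ⟨q, hq, rfl⟩
  exact h' q hq

/-- if-then-else on equality with a constant -/
lemma RecT.ite_eq {O : Set (ℕ →. ℕ)} {a f g : ℕ → ℕ} (ha : RecT O a) (hf : RecT O f)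
    (hg : RecT O g) (c : ℕ) : RecT O (fun n => if a n = c then f n else g n) := by
  have h1 : Computable (fun z : ℕ => if z.unpair.1 = c then z.unpair.2.unpair.1 else
      z.unpair.2.unpair.2) := by
    have : Primrec (fun z : ℕ => if z.unpair.1 = c then z.unpair.2.unpair.1 else
      z.unpair.2.unpair.2) :=
      Primrec.ite (Primrec.eq.comp (Primrec.fst.comp Primrec.unpair) (Primrec.const c))
        (Primrec.fst.comp (Primrec.unpair.comp (Primrec.snd.comp Primrec.unpair)))
        (Primrec.snd.comp (Primrec.unpair.comp (Primrec.snd.comp Primrec.unpair)))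
    exact this.to_comp
  have h2 := (Computable.recT (O := O) h1).comp (RecT.pair ha (RecT.pair hf hg))
  refine Nat.RecursiveIn.of_eq h2 ?_
  intro n
  simp

/-- if-then-else on comparison with a constant -/
lemma RecT.ite_lt {O : Set (ℕ →. ℕ)} {a f g : ℕ → ℕ} (ha : RecT O a) (hf : RecT O f)
    (hg : RecT O g) (c : ℕ) : RecT O (fun n => if a n < c then f n else g n) := by
  have h1 : Computable (fun z : ℕ => if z.unpair.1 < c then z.unpair.2.unpair.1 else
      z.unpair.2.unpair.2) := by
    have : Primrec (fun z : ℕ => if z.unpair.1 < c then z.unpair.2.unpair.1 else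
      z.unpair.2.unpair.2) :=
      Primrec.ite (Primrec.nat_lt.comp (Primrec.fst.comp Primrec.unpair) (Primrec.const c))
        (Primrec.fst.comp (Primrec.unpair.comp (Primrec.snd.comp Primrec.unpair)))
        (Primrec.snd.comp (Primrec.unpair.comp (Primrec.snd.comp Primrec.unpair)))
    exact this.to_comp
  have h2 := (Computable.recT (O := O) h1).comp (RecT.pair ha (RecT.pair hf hg))
  refine Nat.RecursiveIn.of_eq h2 ?_
  intro n
  simp

lemma J_cons {P : Type} (f : P → ℕ → ℕ) (q : P) (R : List P) (t : ℕ) :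
    J f (q :: R) t = if t.unpair.1 = 0 then f q t.unpair.2
      else J f R (Nat.pair (t.unpair.1 - 1) t.unpair.2) := by
  unfold J
  cases h : t.unpair.1 with
  | zero => simp
  | succ n => simp

lemma recT_J {P : Type} (f : P → ℕ → ℕ) (R : List P) (O : Set (ℕ →. ℕ))
    (h : ∀ q ∈ R, RecT O (f q)) : RecT O (J f R) := by
  induction R with
  | nil =>
    have : J f ([] : List P) = fun _ => 0 := by
      funext t; simp [J]
    rw [this]
    exact Computable.recT (Computable.const 0)
  | cons q R ih =>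
    have h1 : J f (q :: R) = fun t => if t.unpair.1 = 0 then f q t.unpair.2
        else J f R (Nat.pair (t.unpair.1 - 1) t.unpair.2) := by
      funext t; exact J_cons f q R t
    rw [h1]
    have c1 : Computable (fun t : ℕ => t.unpair.1) := Computable.fst.comp Computable.unpair
    have c2 : Computable (fun t : ℕ => t.unpair.2) := Computable.snd.comp Computable.unpair
    have c3 : Computable (fun t : ℕ => Nat.pair (t.unpair.1 - 1) t.unpair.2) := by
      have : Primrec (fun t : ℕ => Nat.pair (t.unpair.1 - 1) t.unpair.2) :=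
        Primrec₂.natPair.comp (Primrec.nat_sub.comp (Primrec.fst.comp Primrec.unpair)
          (Primrec.const 1)) (Primrec.snd.comp Primrec.unpair)
      exact this.to_comp
    refine RecT.ite_eq (Computable.recT c1) ?_ ?_ 0
    · exact (h q (by simp)).comp (Computable.recT c2)
    · exact (ih (fun q' hq' => h q' (by simp [hq']))).comp (Computable.recT c3)

lemma J_mem {P : Type} (f : P → ℕ → ℕ) (R : List P) {q : P} (hq : q ∈ R) : TR (f q) (J f R) := by
  obtain ⟨a, ha, rfl⟩ := List.mem_iff_getElem.1 hq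
  have c1 : Computable (fun t : ℕ => Nat.pair a t) :=
    (Primrec₂.natPair.comp (Primrec.const a) Primrec.id).to_comp
  have h1 := (TR.refl (J f R)).comp (Computable.recT c1)
  refine Nat.RecursiveIn.of_eq h1 ?_
  intro n
  simp [J, ha]

theorem exists_fn {P : Type} (f : P → ℕ → ℕ) (R : List P) (g : ℕ → ℕ)
    (h : RecT (Ora f {q | q ∈ R}) g) : ∃ ev, IsFn ev ∧ ∀ m, Hal ev (J f R) m (g m) := by
  have h1 : TR g (J f R) := recT_trans h (fun q hq => J_mem f R hq)
  obtain ⟨ev, h2, h3, h4⟩ := use_principle _ _ h1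
  exact ⟨ev, ⟨h2, h3⟩, fun m => (h4 m (g m)).1 (Part.mem_some _)⟩

/-- there are only countably many computable functions between two primcodable types -/
theorem countable_computable {α β : Type} [Primcodable α] [Primcodable β] :
    {f : α → β | Computable f}.Countable := by
  classical
  have h : ∀ f : {f : α → β // Computable f}, ∃ c : Nat.Partrec.Code,
      c.eval = fun n => Part.bind (Encodable.decode (α := α) n : Option α)
        fun a => ((fun a : α => (Part.some (f.1 a))) a).map Encodable.encode := by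
    intro f
    exact Nat.Partrec.Code.exists_code.1 f.2
  choose c hc using h
  have hinj : Function.Injective c := by
    intro f g hfg
    apply Subtype.ext
    funext a
    have h1 := hc f
    have h2 := hc g
    rw [hfg] at h1
    have h3 := h1.symm.trans h2
    have h4 := congrFun h3 (Encodable.encode a)
    simp at h4
    exact h4
  exact Set.countable_coe_iff.1 hinj.countable

theorem countable_fn : {ev | IsFn ev}.Countable := by
  have h1 : {f : List ℕ × ℕ → Option ℕ | Computable f}.Countable := countable_computable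
  refine Set.Countable.mono ?_ (h1.image (fun f => fun a b => f (a, b)))
  rintro ev ⟨hev, _⟩
  exact ⟨fun p => ev p.1 p.2, hev, rfl⟩

theorem countable_TR (A : ℕ → ℕ) : {C : ℕ → ℕ | TR C A}.Countable := by
  have h : ∀ C : {C : ℕ → ℕ // TR C A}, ∃ ev : List ℕ → ℕ → Option ℕ, IsFn ev ∧
      ∀ m, Hal ev A m (C.1 m) := by
    intro C
    obtain ⟨ev, h2, h3, h4⟩ := use_principle _ _ C.2
    exact ⟨ev, ⟨h2, h3⟩, fun m => (h4 m (C.1 m)).1 (Part.mem_some _)⟩
  choose ev h1 h2 using h
  have hinj : Function.Injective (fun C => (⟨ev C, h1 C⟩ : {ev | IsFn ev})) := by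
    intro C D hCD
    simp only [Subtype.mk.injEq] at hCD
    apply Subtype.ext
    funext x
    have h3 := h2 C x
    rw [hCD] at h3
    exact Hal.unique (h1 D) h3 (h2 D x)
  have := countable_fn.to_subtype
  exact Set.countable_coe_iff.1 hinj.countable

theorem countable_recT {P : Type} (f : P → ℕ → ℕ) (Q : Finset P) :
    {g : ℕ → ℕ | RecT (Ora f (Q : Set P)) g}.Countable := by
  refine Set.Countable.mono ?_ (countable_TR (J f Q.toList))
  intro g hg
  refine recT_trans hg ?_
  intro q hq
  exact J_mem f _ (by simpa using hq)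

/-- a computation with oracle `X` gives a function recursive in `X` -/
theorem recT_of_hal {ev : List ℕ → ℕ → Option ℕ} (hev : IsFn ev) {X g : ℕ → ℕ}
    (h : ∀ m, Hal ev X m (g m)) : TR g X := by
  refine cert (O := {(X : ℕ →. ℕ)}) (G := X) (TR.refl X) (fun σ m _ => ev σ m) ?_ g ?_ ?_
  · exact hev.1.comp (Computable.fst.comp Computable.fst) (Computable.snd.comp Computable.fst)
  · intro x
    obtain ⟨n, hn⟩ := h x
    exact ⟨n, 0, by rw [hn]; rfl⟩
  · intro x n w y hy
    exact Hal.unique hev ⟨n, hy⟩ (h x)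

end Pool.Agent.H246
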