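import Mathlib
import Pool.Agent.H246.Basic

set_option autoImplicit false

/-! The family of functions attached to a parameter. -/

namespace Pool.Agent.H246

open Pool.Agent.Helper743

variable {P : Type}

theorem F_of_not_mem (K : Set P) (idx : P → ℕ) (e : P → ℕ → Option P)
    (f : P → ℕ → ℕ) (r : ℕ → ℕ) {p : P} (hp : p ∉ K) : F K idx e f r p = f p := by
  funext j
  rw [F]
  simp [hp]

theorem F_of_mem (K : Set P) (idx : P → ℕ) (e : P → ℕ → Option P)
    (f : P → ℕ → ℕ) (r : ℕ → ℕ) {p : P} (hp : p ∈ K) (n i : ℕ) :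
    F K idx e f r p (Nat.pair n i) =
      match (col r (Nat.pair (idx p) n))[i]? with
      | some a => a
      | none => match e p n with
        | none => 0
        | some q => if i < Nat.pair n i then F K idx e f r q i else 0 := by
  rw [F]
  simp only [hp, if_true, Nat.unpair_pair]
  rfl

theorem F_some (K : Set P) (idx : P → ℕ) (e : P → ℕ → Option P)
    (f : P → ℕ → ℕ) (r : ℕ → ℕ) {p : P} (hp : p ∈ K) {n i a : ℕ}
    (h : (col r (Nat.pair (idx p) n))[i]? = some a) :
    F K idx e f r p (Nat.pair n i) = a := by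
  rw [F_of_mem K idx e f r hp, h]

lemma lt_pair {n i : ℕ} (hn : n ≠ 0) : i < Nat.pair n i := by
  have hn' : 1 ≤ n := Nat.one_le_iff_ne_zero.2 hn
  unfold Nat.pair
  split
  · rename_i h
    have : i * 1 ≤ i * i := Nat.mul_le_mul_left i (by omega)
    omega
  · omega

theorem F_column (K : Set P) (idx : P → ℕ) (e : P → ℕ → Option P)
    (f : P → ℕ → ℕ) (r : ℕ → ℕ) {p q : P} (hp : p ∈ K) {n : ℕ} (hn : n ≠ 0)
    (hq : e p n = some q) {i : ℕ} (hi : (col r (Nat.pair (idx p) n)).length ≤ i) :
    F K idx e f r p (Nat.pair n i) = F K idx e f r q i := by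
  rw [F_of_mem K idx e f r hp, List.getElem?_eq_none hi, hq]
  simp [lt_pair hn]

theorem TR_F (K : Set P) (idx : P → ℕ) (e : P → ℕ → Option P)
    (he0 : ∀ p ∈ K, e p 0 = none)
    (f : P → ℕ → ℕ) (r : ℕ → ℕ) {p q : P} (hp : p ∈ K) (h : ∃ n, e p n = some q) :
    TR (F K idx e f r q) (F K idx e f r p) := by
  obtain ⟨n, hn⟩ := h
  have hn0 : n ≠ 0 := by
    rintro rfl
    rw [he0 p hp] at hn
    cases hn
  set a := (col r (Nat.pair (idx p) n)).length with ha
  -- patch the first `a` values
  let l : List ℕ := (List.range a).map (F K idx e f r q)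
  have c1 : Computable (fun t : ℕ => Nat.pair n t) :=
    (Primrec₂.natPair.comp (Primrec.const n) Primrec.id).to_comp
  have h1 := (TR.refl (F K idx e f r p)).comp (Computable.recT c1)
  have c2 : Computable (fun t : ℕ => l.getD t 0) :=
    (Primrec.list_getD 0).to_comp.comp (Computable.const l) Computable.id
  have h2 := RecT.ite_lt (O := {(F K idx e f r p : ℕ →. ℕ)}) (Computable.recT Computable.id)
    (Computable.recT c2) h1 a
  refine Nat.RecursiveIn.of_eq h2 ?_
  intro i
  congr 1
  simp only [id]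
  split
  · rename_i hi
    simp [l, hi]
  · rename_i hi
    exact F_column K idx e f r hp hn0 hn (by omega)

/-- the value at `j` only depends on finitely much of the parameter -/
theorem F_cont1 (K : Set P) (idx : P → ℕ) (e : P → ℕ → Option P)
    (f : P → ℕ → ℕ) (r : ℕ → ℕ) (j : ℕ) (p : P) :
    ∃ N, ∀ r' : ℕ → ℕ, (∀ c < N, r' c = r c) → F K idx e f r' p j = F K idx e f r p j := by
  induction j using Nat.strong_induction_on generalizing p with
  | _ j ih =>
    by_cases hp : p ∈ K
    · obtain ⟨n, i, rfl⟩ : ∃ n i, j = Nat.pair n i :=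
        ⟨j.unpair.1, j.unpair.2, (Nat.pair_unpair j).symm⟩
      by_cases hq : ∃ q, e p n = some q ∧ i < Nat.pair n i
      · obtain ⟨q, hq, hi⟩ := hq
        obtain ⟨N, hN⟩ := ih i hi q
        refine ⟨max N (Nat.pair (idx p) n + 1), fun r' hr' => ?_⟩
        have h1 : col r' (Nat.pair (idx p) n) = col r (Nat.pair (idx p) n) := by
          unfold col; rw [hr' _ (by omega)]
        rw [F_of_mem K idx e f r' hp, F_of_mem K idx e f r hp, h1, hq]
        simp only [hi, if_true]
        rw [hN r' (fun c hc => hr' c (by omega))]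
      · refine ⟨Nat.pair (idx p) n + 1, fun r' hr' => ?_⟩
        have h1 : col r' (Nat.pair (idx p) n) = col r (Nat.pair (idx p) n) := by
          unfold col; rw [hr' _ (by omega)]
        rw [F_of_mem K idx e f r' hp, F_of_mem K idx e f r hp, h1]
        cases he : e p n with
        | none => rfl
        | some q =>
          have : ¬ i < Nat.pair n i := fun h => hq ⟨q, he, h⟩
          simp [this]
    · exact ⟨0, fun r' _ => by rw [F_of_not_mem _ _ _ _ _ hp, F_of_not_mem _ _ _ _ _ hp]⟩

theorem J_cont (K : Set P) (idx : P → ℕ) (e : P → ℕ → Option P)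
    (f : P → ℕ → ℕ) (r : ℕ → ℕ) (R : List P) (n : ℕ) :
    ∃ N, ∀ r' : ℕ → ℕ, (∀ c < N, r' c = r c) →
      pre (J (F K idx e f r') R) n = pre (J (F K idx e f r) R) n := by
  induction n with
  | zero => exact ⟨0, fun r' _ => rfl⟩
  | succ n ih =>
    obtain ⟨N, hN⟩ := ih
    have h1 : ∃ N, ∀ r' : ℕ → ℕ, (∀ c < N, r' c = r c) →
        J (F K idx e f r') R n = J (F K idx e f r) R n := by
      cases hq : R[n.unpair.1]? with
      | none => exact ⟨0, fun r' _ => by simp [J, hq]⟩
      | some q =>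
        obtain ⟨N, hN⟩ := F_cont1 K idx e f r n.unpair.2 q
        exact ⟨N, fun r' hr' => by simp [J, hq, hN r' hr']⟩
    obtain ⟨N', hN'⟩ := h1
    refine ⟨max N N', fun r' hr' => ?_⟩
    rw [pre_succ, pre_succ, hN r' (fun c hc => hr' c (by omega)),
      hN' r' (fun c hc => hr' c (by omega))]

theorem Hal_cont (K : Set P) (idx : P → ℕ) (e : P → ℕ → Option P)
    (f : P → ℕ → ℕ) (r : ℕ → ℕ) (R : List P) {ev : List ℕ → ℕ → Option ℕ} {m v : ℕ}
    (h : Hal ev (J (F K idx e f r) R) m v) :
    ∃ N, ∀ r' : ℕ → ℕ, (∀ c < N, r' c = r c) → Hal ev (J (F K idx e f r') R) m v := by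
  obtain ⟨n, hn⟩ := h
  obtain ⟨N, hN⟩ := J_cont K idx e f r R n
  exact ⟨N, fun r' hr' => ⟨n, by rw [hN r' hr']; exact hn⟩⟩

/-- the function attached to `p` does not depend on the columns of `x` if `x` is not below `p` -/
theorem F_indep [PartialOrder P] (K : Set P) (idx : P → ℕ) (hidx : Set.InjOn idx K)
    (e : P → ℕ → Option P) (he1 : ∀ p ∈ K, ∀ n q, e p n = some q → q < p)
    (f : P → ℕ → ℕ) {x : P} (hx : x ∈ K) (r r' : ℕ → ℕ)
    (h : ∀ c, (∀ n, c ≠ Nat.pair (idx x) n) → r' c = r c) (j : ℕ) (p : P) (hxp : ¬ x ≤ p) :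
    F K idx e f r' p j = F K idx e f r p j := by
  induction j using Nat.strong_induction_on generalizing p with
  | _ j ih =>
    by_cases hp : p ∈ K
    · obtain ⟨n, i, rfl⟩ : ∃ n i, j = Nat.pair n i :=
        ⟨j.unpair.1, j.unpair.2, (Nat.pair_unpair j).symm⟩
      have h1 : col r' (Nat.pair (idx p) n) = col r (Nat.pair (idx p) n) := by
        unfold col
        rw [h]
        intro m hm
        have := (Nat.pair_eq_pair.1 hm).1
        have := hidx hp hx this
        exact hxp (by rw [this])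
      rw [F_of_mem K idx e f r' hp, F_of_mem K idx e f r hp, h1]
      cases he : e p n with
      | none => rfl
      | some q =>
        by_cases hi : i < Nat.pair n i
        · simp only [hi, if_true]
          rw [ih i hi q (fun hxq => hxp (hxq.trans (he1 p hp n q he).le))]
        · simp [hi]
    · rw [F_of_not_mem _ _ _ _ _ hp, F_of_not_mem _ _ _ _ _ hp]

theorem J_indep [PartialOrder P] (K : Set P) (idx : P → ℕ) (hidx : Set.InjOn idx K)
    (e : P → ℕ → Option P) (he1 : ∀ p ∈ K, ∀ n q, e p n = some q → q < p)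
    (f : P → ℕ → ℕ) {x : P} (hx : x ∈ K) (r r' : ℕ → ℕ)
    (h : ∀ c, (∀ n, c ≠ Nat.pair (idx x) n) → r' c = r c) (R : List P)
    (hxR : ∀ l ∈ R, ¬ x ≤ l) :
    J (F K idx e f r') R = J (F K idx e f r) R := by
  funext t
  unfold J
  cases hq : R[t.unpair.1]? with
  | none => rfl
  | some q =>
    simp only
    exact F_indep K idx hidx e he1 f hx r r' h _ _ (hxR q (List.mem_of_getElem? hq))

lemma col_code (r : ℕ → ℕ) (c : ℕ) (l : List ℕ) (h : r c = Encodable.encode l) : col r c = l := by
  unfold col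
  rw [h]
  simp

theorem dense_inj (K : Set P) (idx : P → ℕ) (e : P → ℕ → Option P)
    (f : P → ℕ → ℕ) {x : P} (hx : x ∈ K) :
    Dense2 (fun r r' => F K idx e f r x ≠ F K idx e f r' x) := by
  intro N r r'
  have hc : N ≤ Nat.pair (idx x) N := Nat.right_le_pair _ _
  refine ⟨Function.update r (Nat.pair (idx x) N) (Encodable.encode [0]),
    Function.update r' (Nat.pair (idx x) N) (Encodable.encode [1]), Nat.pair (idx x) N + 1,
    fun c hc' => ?_, fun c hc' => ?_, fun t t' ht ht' => ?_⟩
  · rw [Function.update_of_ne (by omega)]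
  · rw [Function.update_of_ne (by omega)]
  · intro heq
    have h1 : col t (Nat.pair (idx x) N) = [0] := by
      apply col_code; rw [ht _ (by omega)]; simp
    have h2 : col t' (Nat.pair (idx x) N) = [1] := by
      apply col_code; rw [ht' _ (by omega)]; simp
    have h3 : F K idx e f t x (Nat.pair N 0) = 0 := F_some K idx e f t hx (by rw [h1]; rfl)
    have h4 : F K idx e f t' x (Nat.pair N 0) = 1 := F_some K idx e f t' hx (by rw [h2]; rfl)
    rw [heq, h4] at h3
    exact absurd h3 (by norm_num)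

theorem dense_self [PartialOrder P] (K : Set P) (idx : P → ℕ)
    (hidx : Set.InjOn idx K) (e : P → ℕ → Option P)
    (he1 : ∀ p ∈ K, ∀ n q, e p n = some q → q < p)
    (f : P → ℕ → ℕ) (R : List P) (ev : List ℕ → ℕ → Option ℕ) (hev : IsFn ev)
    {x : P} (hx : x ∈ K) (hxR : ∀ l ∈ R, ¬ x ≤ l) :
    Dense2 (fun r _ => ¬ ∀ m, Hal ev (J (F K idx e f r) R) m (F K idx e f r x m)) := by
  intro N r r'
  have hc : N ≤ Nat.pair (idx x) N := Nat.right_le_pair _ _
  by_cases hex : ∃ t₀ : ℕ → ℕ, (∀ c < N, t₀ c = r c) ∧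
      ∃ v, Hal ev (J (F K idx e f t₀) R) (Nat.pair N 0) v
  · obtain ⟨t₀, ht₀, v, hv⟩ := hex
    set c₀ := Nat.pair (idx x) N with hc₀
    set t₁ := Function.update t₀ c₀ (Encodable.encode [v + 1]) with ht₁
    have h1 : J (F K idx e f t₁) R = J (F K idx e f t₀) R := by
      refine J_indep K idx hidx e he1 f hx t₀ t₁ ?_ R hxR
      intro c hcn
      rw [ht₁, Function.update_of_ne (hcn N)]
    rw [← h1] at hv
    obtain ⟨N₁, hN₁⟩ := Hal_cont K idx e f t₁ R hv
    refine ⟨t₁, r', max N₁ (c₀ + 1), fun c hc' => ?_, fun _ _ => rfl, fun t _ ht _ => ?_⟩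
    · rw [ht₁, Function.update_of_ne (by omega), ht₀ c hc']
    · intro hall
      have h2 := hN₁ t (fun c hc' => ht c (by omega))
      have h3 : col t c₀ = [v + 1] := by
        apply col_code; rw [ht _ (by omega), ht₁]; simp
      have h4 : F K idx e f t x (Nat.pair N 0) = v + 1 := F_some K idx e f t hx (by rw [h3]; rfl)
      have h5 := hall (Nat.pair N 0)
      rw [h4] at h5
      have := Hal.unique hev h2 h5
      omega
  · refine ⟨r, r', N, fun _ _ => rfl, fun _ _ => rfl, fun t _ ht _ => ?_⟩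
    intro hall
    exact hex ⟨t, ht, _, hall (Nat.pair N 0)⟩

end Pool.Agent.H246
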