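import Mathlib
import Pool.Agent.H246.Defs

set_option autoImplicit false

/-! Computable search through consistent arrays. -/

namespace Pool.Agent.H246

open Pool.Agent.Helper743

/-- the array coded by `z` -/
def W (z a j : ℕ) : ℕ := ((Encodable.decode z : Option (List ℕ)).getD []).getD (Nat.pair a j) 0

/-- the first `b` rows of the array coded by `z`, as one function -/
def WJ (b z : ℕ) : ℕ → ℕ := fun t => if t.unpair.1 < b then W z t.unpair.1 t.unpair.2 else 0

/-- local consistency of the array coded by `z` up to height `u`: the rows in `A` agree with `h`,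
and for each rule `(a, n, s, c)` in `D` the column `n` of row `a` is `s` followed by row `c` (or
by zeros) -/
def Cons (A : List ℕ) (h : ℕ → ℕ → ℕ) (D : List (ℕ × ℕ × List ℕ × Option ℕ)) (z u : ℕ) : Prop :=
  (∀ a ∈ A, ∀ j < u, W z a j = h a j) ∧
  (∀ d ∈ D, ∀ i, Nat.pair d.2.1 i < u → W z d.1 (Nat.pair d.2.1 i) =
    ((d.2.2.1)[i]?).getD (match d.2.2.2 with | none => 0 | some a' => W z a' i))

/-- decidable relative to `O` -/
def DecT (O : Set (ℕ →. ℕ)) (p : ℕ → Prop) : Prop := ∃ χ : ℕ → ℕ, RecT O χ ∧ ∀ n, χ n = 0 ↔ p n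

lemma DecT.of_iff {O : Set (ℕ →. ℕ)} {p q : ℕ → Prop} (h : DecT O p) (hpq : ∀ n, p n ↔ q n) :
    DecT O q := by
  obtain ⟨χ, h1, h2⟩ := h
  exact ⟨χ, h1, fun n => (h2 n).trans (hpq n)⟩

lemma DecT.eq {O : Set (ℕ →. ℕ)} {f g : ℕ → ℕ} (hf : RecT O f) (hg : RecT O g) :
    DecT O (fun n => f n = g n) := by
  have h1 : Primrec (fun z : ℕ => if z.unpair.1 = z.unpair.2 then 0 else 1) :=
    Primrec.ite (Primrec.eq.comp (Primrec.fst.comp Primrec.unpair) (Primrec.snd.comp Primrec.unpair))
      (Primrec.const 0) (Primrec.const 1)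
  refine ⟨_, (Computable.recT (O := O) h1.to_comp).comp (RecT.pair hf hg), fun n => ?_⟩
  simp only [Nat.unpair_pair]
  by_cases h : f n = g n <;> simp [h]

lemma DecT.and {O : Set (ℕ →. ℕ)} {p q : ℕ → Prop} (hp : DecT O p) (hq : DecT O q) :
    DecT O (fun n => p n ∧ q n) := by
  obtain ⟨χ, h1, h2⟩ := hp
  obtain ⟨ψ, h3, h4⟩ := hq
  have ha : Primrec (fun z : ℕ => z.unpair.1 + z.unpair.2) :=
    Primrec.nat_add.comp (Primrec.fst.comp Primrec.unpair) (Primrec.snd.comp Primrec.unpair)
  refine ⟨_, (Computable.recT (O := O) ha.to_comp).comp (RecT.pair h1 h3), fun n => ?_⟩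
  simp only [Nat.unpair_pair]
  rw [← h2 n, ← h4 n]
  omega

lemma DecT.comp {O : Set (ℕ →. ℕ)} {p : ℕ → Prop} {f : ℕ → ℕ} (hp : DecT O p) (hf : RecT O f) :
    DecT O (fun n => p (f n)) := by
  obtain ⟨χ, h1, h2⟩ := hp
  exact ⟨_, h1.comp hf, fun n => h2 (f n)⟩

lemma DecT.const {O : Set (ℕ →. ℕ)} (h : Prop) (hh : h) : DecT O (fun _ => h) :=
  ⟨fun _ => 0, Computable.recT (Computable.const 0), fun _ => by simp [hh]⟩

lemma DecT.list {O : Set (ℕ →. ℕ)} {α : Type} (l : List α) (p : α → ℕ → Prop)
    (h : ∀ x ∈ l, DecT O (p x)) : DecT O (fun n => ∀ x ∈ l, p x n) := by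
  induction l with
  | nil => exact (DecT.const True trivial).of_iff (fun n => by simp)
  | cons a l ih =>
    have h1 := h a (by simp)
    have h2 := ih (fun x hx => h x (by simp [hx]))
    exact (h1.and h2).of_iff (fun n => by simp)

lemma DecT.ball {O : Set (ℕ →. ℕ)} {p : ℕ → Prop} (hp : DecT O p) :
    DecT O (fun n => ∀ j < n.unpair.2, p (Nat.pair n j)) := by
  obtain ⟨χ, h1, h2⟩ := hp
  -- step: input z = pair n (pair y ih), output ih + χ (pair n y)
  have c1 : Primrec (fun z : ℕ => Nat.pair z.unpair.1 z.unpair.2.unpair.1) :=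
    Primrec₂.natPair.comp (Primrec.fst.comp Primrec.unpair)
      (Primrec.fst.comp (Primrec.unpair.comp (Primrec.snd.comp Primrec.unpair)))
  have c2 : Primrec (fun z : ℕ => z.unpair.2.unpair.2) :=
    Primrec.snd.comp (Primrec.unpair.comp (Primrec.snd.comp Primrec.unpair))
  have ha : Primrec (fun z : ℕ => z.unpair.1 + z.unpair.2) :=
    Primrec.nat_add.comp (Primrec.fst.comp Primrec.unpair) (Primrec.snd.comp Primrec.unpair)
  have h3 := (Computable.recT (O := O) ha.to_comp).comp
    (RecT.pair (Computable.recT (O := O) c2.to_comp) (h1.comp (Computable.recT (O := O) c1.to_comp)))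
  have h4 := RecT.prec (Computable.recT (O := O) (Computable.const 0)) h3
  have c3 : Primrec (fun n : ℕ => Nat.pair n n.unpair.2) :=
    Primrec₂.natPair.comp Primrec.id (Primrec.snd.comp Primrec.unpair)
  have h5 := h4.comp (Computable.recT (O := O) c3.to_comp)
  refine ⟨_, h5, fun n => ?_⟩
  simp only [Nat.unpair_pair]
  generalize n.unpair.2 = k
  induction k with
  | zero => simp
  | succ k ih =>
    constructor
    · intro h j hj
      change (Nat.rec 0 (fun y ih => ih + χ (Nat.pair n y)) k : ℕ) + χ (Nat.pair n k) = 0 at h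
      have e1 : (Nat.rec 0 (fun y ih => ih + χ (Nat.pair n y)) k : ℕ) = 0 := by omega
      have e2 : χ (Nat.pair n k) = 0 := by omega
      rcases Nat.lt_succ_iff_lt_or_eq.1 hj with h6 | h6
      · exact ih.1 e1 j h6
      · subst h6; exact (h2 _).1 e2
    · intro h
      change (Nat.rec 0 (fun y ih => ih + χ (Nat.pair n y)) k : ℕ) + χ (Nat.pair n k) = 0
      have e1 := ih.2 (fun j hj => h j (by omega))
      have e2 := (h2 _).2 (h k (by omega))
      omega

lemma W_primrec {f g k : ℕ → ℕ} (hf : Primrec f) (hg : Primrec g) (hk : Primrec k) :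
    Primrec (fun n => W (f n) (g n) (k n)) := by
  unfold W
  have h1 : Primrec (fun n => (Encodable.decode (f n) : Option (List ℕ)).getD []) :=
    Primrec.option_getD.comp (Primrec.decode.comp hf) (Primrec.const [])
  exact (Primrec.list_getD 0).comp h1 (Primrec₂.natPair.comp hg hk)

lemma pre_primrec (b : ℕ) : Primrec (fun n : ℕ => pre (WJ b n.unpair.1) n.unpair.2) := by
  unfold pre
  refine Primrec.list_map (Primrec.list_range.comp (Primrec.snd.comp Primrec.unpair)) ?_
  show Primrec (fun w : ℕ × ℕ => WJ b w.1.unpair.1 w.2)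
  unfold WJ
  have hW : Primrec (fun w : ℕ × ℕ => W w.1.unpair.1 w.2.unpair.1 w.2.unpair.2) := by
    unfold W
    have h1 : Primrec (fun n : ℕ × ℕ => (Encodable.decode (n.1.unpair.1) : Option (List ℕ)).getD []) :=
      Primrec.option_getD.comp (Primrec.decode.comp (Primrec.fst.comp
        (Primrec.unpair.comp Primrec.fst))) (Primrec.const [])
    exact (Primrec.list_getD 0).comp h1 (Primrec₂.natPair.comp
      (Primrec.fst.comp (Primrec.unpair.comp Primrec.snd))
      (Primrec.snd.comp (Primrec.unpair.comp Primrec.snd)))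
  exact Primrec.ite (Primrec.nat_lt.comp (Primrec.fst.comp (Primrec.unpair.comp Primrec.snd))
    (Primrec.const b)) hW (Primrec.const 0)

lemma decT_row {O : Set (ℕ →. ℕ)} (h : ℕ → ℕ → ℕ) (a : ℕ) (ha : RecT O (h a)) :
    DecT O (fun n => ∀ j < n.unpair.2, W n.unpair.1 a j = h a j) := by
  have hs : Primrec (fun k : ℕ => k.unpair.2) := Primrec.snd.comp Primrec.unpair
  have hz : Primrec (fun k : ℕ => k.unpair.1.unpair.1) :=
    Primrec.fst.comp (Primrec.unpair.comp (Primrec.fst.comp Primrec.unpair))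
  have h1 : DecT O (fun k => W k.unpair.1.unpair.1 a k.unpair.2 = h a k.unpair.2) :=
    DecT.eq (Computable.recT (O := O) (W_primrec hz (Primrec.const a) hs).to_comp)
      (ha.comp (Computable.recT (O := O) hs.to_comp))
  refine h1.ball.of_iff (fun n => ?_)
  simp only [Nat.unpair_pair]

lemma decT_rule {O : Set (ℕ →. ℕ)} (d : ℕ × ℕ × List ℕ × Option ℕ) :
    DecT O (fun n => ∀ i, Nat.pair d.2.1 i < n.unpair.2 → W n.unpair.1 d.1 (Nat.pair d.2.1 i) =
      ((d.2.2.1)[i]?).getD (match d.2.2.2 with | none => 0 | some a' => W n.unpair.1 a' i)) := by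
  have hs : Primrec (fun k : ℕ => k.unpair.2) := Primrec.snd.comp Primrec.unpair
  have hz : Primrec (fun k : ℕ => k.unpair.1.unpair.1) :=
    Primrec.fst.comp (Primrec.unpair.comp (Primrec.fst.comp Primrec.unpair))
  have hu : Primrec (fun k : ℕ => k.unpair.1.unpair.2) :=
    Primrec.snd.comp (Primrec.unpair.comp (Primrec.fst.comp Primrec.unpair))
  have hp : Primrec (fun k : ℕ => Nat.pair d.2.1 k.unpair.2) :=
    Primrec₂.natPair.comp (Primrec.const _) hs
  have hl : Primrec (fun k : ℕ => W k.unpair.1.unpair.1 d.1 (Nat.pair d.2.1 k.unpair.2)) :=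
    W_primrec hz (Primrec.const _) hp
  have hr0 : Primrec (fun k : ℕ => (match d.2.2.2 with
      | none => 0 | some a' => W k.unpair.1.unpair.1 a' k.unpair.2)) := by
    cases d.2.2.2 with
    | none => exact Primrec.const 0
    | some a' => exact W_primrec hz (Primrec.const _) hs
  have hr : Primrec (fun k : ℕ => ((d.2.2.1)[k.unpair.2]?).getD (match d.2.2.2 with
      | none => 0 | some a' => W k.unpair.1.unpair.1 a' k.unpair.2)) :=
    Primrec.option_getD.comp (Primrec.list_getElem?.comp (Primrec.const _) hs) hr0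
  -- value of the left side, switched off outside the range
  have hl' : Primrec (fun k : ℕ => if Nat.pair d.2.1 k.unpair.2 < k.unpair.1.unpair.2 then
      W k.unpair.1.unpair.1 d.1 (Nat.pair d.2.1 k.unpair.2) else 0) :=
    Primrec.ite (Primrec.nat_lt.comp hp hu) hl (Primrec.const 0)
  have hr' : Primrec (fun k : ℕ => if Nat.pair d.2.1 k.unpair.2 < k.unpair.1.unpair.2 then
      ((d.2.2.1)[k.unpair.2]?).getD (match d.2.2.2 with
      | none => 0 | some a' => W k.unpair.1.unpair.1 a' k.unpair.2) else 0) :=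
    Primrec.ite (Primrec.nat_lt.comp hp hu) hr (Primrec.const 0)
  have h1 := DecT.eq (Computable.recT (O := O) hl'.to_comp) (Computable.recT (O := O) hr'.to_comp)
  refine h1.ball.of_iff (fun n => ?_)
  simp only [Nat.unpair_pair]
  constructor
  · intro hh i hi
    have h2 := hh i (lt_of_le_of_lt (Nat.right_le_pair _ _) hi)
    rw [if_pos hi, if_pos hi] at h2
    exact h2
  · intro hh i _
    by_cases hi : Nat.pair d.2.1 i < n.unpair.2
    · rw [if_pos hi, if_pos hi]; exact hh i hi
    · rw [if_neg hi, if_neg hi]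

lemma decT_cons {O : Set (ℕ →. ℕ)} (A : List ℕ) (h : ℕ → ℕ → ℕ)
    (D : List (ℕ × ℕ × List ℕ × Option ℕ)) (hA : ∀ a ∈ A, RecT O (h a)) :
    DecT O (fun n => Cons A h D n.unpair.1 n.unpair.2) := by
  unfold Cons
  refine DecT.and ?_ ?_
  · exact DecT.list A (fun a n => ∀ j < n.unpair.2, W n.unpair.1 a j = h a j)
      (fun a ha => decT_row h a (hA a ha))
  · exact DecT.list D _ (fun d _ => decT_rule d)

/- Plain-words proof of the TARGET below.
We show ζ is recursive in O. Predicates decidable relative to O are closed under the boolean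
operations, bounded quantification and composition with functions recursive in O, so
Cons A h D z u is decidable relative to O as a predicate of (z,u): A and D are fixed finite
lists, W is computable, each h a (a ∈ A) is recursive in O, and both quantifiers (∀ j < u) and
(∀ i with Nat.pair n i < u, hence i < u) are bounded. It is convenient to define
  DecT O p := ∃ χ : ℕ → ℕ, RecT O χ ∧ ∀ n, χ n = 0 ↔ p n
and to prove closure under ∧, →(or ¬ and ∧), equality of two RecT functions, ∀ x ∈ l for a fixed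
finite list l, composition, and bounded quantification (by RecT.prec, summing χ).
The value ev (pre (WJ b z) u) m is a computable function of (z,u,m) (pre is List.range.map and W is
computable, so use Primrec.list_map / Computable closure; note hev : Computable₂ ev).
Given m, search with RecT.find for a code n = ⟨z,u⟩ with Cons A h D z u and ev (pre (WJ b z) u) m ≠
none (exists by h2) and output the value of ev; by h1 it equals ζ m.
-/

-- TARGET
theorem search {O : Set (ℕ →. ℕ)} (A : List ℕ) (h : ℕ → ℕ → ℕ)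
    (D : List (ℕ × ℕ × List ℕ × Option ℕ)) (hA : ∀ a ∈ A, RecT O (h a))
    (ev : List ℕ → ℕ → Option ℕ) (hev : Computable₂ ev) (b : ℕ) (ζ : ℕ → ℕ)
    (h1 : ∀ z u, Cons A h D z u → ∀ m v, ev (pre (WJ b z) u) m = some v → v = ζ m)
    (h2 : ∀ m, ∃ z u, Cons A h D z u ∧ (ev (pre (WJ b z) u) m).isSome) : RecT O ζ := by
  have hps : Primrec (fun k : ℕ => k.unpair.2) := Primrec.snd.comp Primrec.unpair
  have hpf : Primrec (fun k : ℕ => k.unpair.1) := Primrec.fst.comp Primrec.unpair
  -- the value of `ev`, input pair m n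
  have hval : Computable (fun k : ℕ =>
      ev (pre (WJ b k.unpair.2.unpair.1) k.unpair.2.unpair.2) k.unpair.1) :=
    hev.comp ((pre_primrec b).comp hps).to_comp hpf.to_comp
  have hv0 : Computable (fun k : ℕ => Encodable.encode
      (ev (pre (WJ b k.unpair.2.unpair.1) k.unpair.2.unpair.2) k.unpair.1)) :=
    Computable.encode.comp hval
  have hsw : Primrec (fun z : ℕ => if z = 0 then 1 else 0) :=
    Primrec.ite (Primrec.eq.comp Primrec.id (Primrec.const 0)) (Primrec.const 1) (Primrec.const 0)
  have hd2 : DecT O (fun k : ℕ =>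
      (ev (pre (WJ b k.unpair.2.unpair.1) k.unpair.2.unpair.2) k.unpair.1).isSome) := by
    refine ⟨_, Computable.recT (O := O) (hsw.to_comp.comp hv0), fun k => ?_⟩
    rcases hh : ev (pre (WJ b k.unpair.2.unpair.1) k.unpair.2.unpair.2) k.unpair.1 with _ | v
    · simp [hh]
    · simp [hh]
  have hd1 : DecT O (fun k : ℕ => Cons A h D k.unpair.2.unpair.1 k.unpair.2.unpair.2) :=
    (decT_cons A h D hA).comp (Computable.recT (O := O) hps.to_comp)
  obtain ⟨χ, hχ, hχ'⟩ := hd1.and hd2
  have hex : ∀ m, ∃ n, χ (Nat.pair m n) = 0 := by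
    intro m
    obtain ⟨z, u, h3, h4⟩ := h2 m
    refine ⟨Nat.pair z u, (hχ' _).2 ?_⟩
    simp only [Nat.unpair_pair]
    exact ⟨h3, h4⟩
  have hfind := RecT.find hχ hex
  have hout : Computable (fun k : ℕ =>
      (ev (pre (WJ b k.unpair.2.unpair.1) k.unpair.2.unpair.2) k.unpair.1).getD 0) :=
    Computable.option_getD hval (Computable.const 0)
  have h5 := (Computable.recT (O := O) hout).comp
    (RecT.pair (Computable.recT (O := O) Computable.id) hfind)
  refine Nat.RecursiveIn.of_eq h5 ?_
  intro m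
  congr 1
  have hsp := (hχ' _).1 (Nat.find_spec (hex m))
  simp only [Nat.unpair_pair, id] at hsp ⊢
  obtain ⟨hs1, hs2⟩ := hsp
  rw [Option.isSome_iff_exists] at hs2
  obtain ⟨v, hv⟩ := hs2
  rw [hv, Option.getD_some]
  exact h1 _ _ hs1 m v hv


end Pool.Agent.H246
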