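import Mathlib
import Pool.Agent.H246.Search
import Pool.Agent.H246.Block

set_option autoImplicit false

/-! Search below a condition; the pair requirement. -/

namespace Pool.Agent.H246

open Pool.Agent.Helper743

/-- unfolding `F` on the block -/
theorem block_F_eq {P : Type} (K : Set P) (idx : P → ℕ) (e : P → ℕ → Option P)
    (f : P → ℕ → ℕ) (r : ℕ → ℕ) {p : P} (hp : p ∈ K) (n i : ℕ)
    (hn : ∀ q, e p n = some q → i < Nat.pair n i) :
    F K idx e f r p (Nat.pair n i) =
      ((col r (Nat.pair (idx p) n))[i]?).getD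
        (match e p n with | none => 0 | some q => F K idx e f r q i) := by
  rw [F]
  simp only [hp, if_true, Nat.unpair_pair]
  cases h1 : (col r (Nat.pair (idx p) n))[i]? with
  | some a => simp
  | none =>
    simp only [Option.getD_none]
    cases h2 : e p n with
    | none => rfl
    | some q => simp [hn q h2]

theorem block_pre_eq {P : Type} (G : P → ℕ → ℕ) (R E2 : List P) (z u : ℕ)
    (h : ∀ j < u, ∀ (a : ℕ) (p : P), (R ++ E2)[a]? = some p → G p j = W z a j) :
    pre (J G R) u = pre (WJ R.length z) u := by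
  unfold pre
  apply List.map_congr_left
  intro t ht
  rw [List.mem_range] at ht
  unfold J WJ
  by_cases hb : t.unpair.1 < R.length
  · rw [List.getElem?_eq_getElem hb, if_pos hb]
    simp only
    apply h _ (lt_of_le_of_lt (Nat.unpair_right_le t) ht)
    rw [List.getElem?_append_left hb, List.getElem?_eq_getElem hb]
  · rw [List.getElem?_eq_none (by omega), if_neg hb]

-- TARGET
theorem block_search {P : Type} [PartialOrder P] (S K : Set P) (hd : Disjoint S K)
    (idx : P → ℕ) (hidx : Set.InjOn idx K) (e : P → ℕ → Option P)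
    (he1 : ∀ p ∈ K, ∀ n q, e p n = some q → q < p ∧ q ∈ S ∪ K)
    (he0 : ∀ p ∈ K, e p 0 = none) (f : P → ℕ → ℕ) (R : List P) (hR : R.Nodup)
    (hRS : ∀ l ∈ R, l ∈ S ∪ K) (ev : List ℕ → ℕ → Option ℕ) (hev : IsFn ev) (N : ℕ)
    (r₀ ζ : ℕ → ℕ)
    (h1 : ∀ r : ℕ → ℕ, (∀ c < N, r c = r₀ c) → ∀ m v, Hal ev (J (F K idx e f r) R) m v → v = ζ m)
    (h2 : ∀ m, ∃ r : ℕ → ℕ, (∀ c < N, r c = r₀ c) ∧ ∃ v, Hal ev (J (F K idx e f r) R) m v) :
    ∃ B : Finset P, (B : Set P) ⊆ S ∧ (∀ b ∈ B, ∃ l ∈ R, b ≤ l) ∧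
      RecT (Ora f (B : Set P)) ζ := by
  classical
  have hpos : ∀ p ∈ K, ∀ n q, e p n = some q → ∀ i, i < Nat.pair n i := by
    intro p hp n q hq i
    have hn : n ≠ 0 := by
      rintro rfl
      rw [he0 p hp] at hq
      exact absurd hq (by simp)
    have h := Nat.add_le_pair n i
    omega
  -- the extra elements
  set X : Set P := {q | q ∉ R ∧ ∃ p n, p ∈ K ∧ Nat.pair (idx p) n < N ∧ e p n = some q ∧
    ∃ l ∈ R, p ≤ l} with hX
  have hCfin : ({c : P × ℕ | c.1 ∈ K ∧ Nat.pair (idx c.1) c.2 < N} : Set (P × ℕ)).Finite := by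
    apply Set.Finite.of_finite_image (f := fun c : P × ℕ => Nat.pair (idx c.1) c.2)
    · apply (Set.finite_Iio N).subset
      rintro _ ⟨c, hc, rfl⟩
      exact hc.2
    · rintro ⟨p, n⟩ hc ⟨p', n'⟩ hc' heq
      simp only [Nat.pair_eq_pair] at heq
      have := hidx hc.1 hc'.1 heq.1
      simp only at this
      rw [this, heq.2]
  have hXfin : X.Finite := by
    have : X ⊆ (fun c : P × ℕ => (e c.1 c.2).getD c.1) ''
        {c : P × ℕ | c.1 ∈ K ∧ Nat.pair (idx c.1) c.2 < N} := by
      rintro q ⟨_, p, n, hp, hn, he, _⟩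
      exact ⟨(p, n), ⟨hp, hn⟩, by simp [he]⟩
    exact (hCfin.image _).subset this
  obtain ⟨E2, hE2n, hE2⟩ : ∃ E2 : List P, E2.Nodup ∧ ∀ q, q ∈ E2 ↔ q ∈ X :=
    ⟨hXfin.toFinset.toList, Finset.nodup_toList _, fun q => by simp⟩
  set E : List P := R ++ E2 with hE
  have hEn : E.Nodup := by
    rw [hE, List.nodup_append]
    refine ⟨hR, hE2n, ?_⟩
    intro a ha b hb hab
    rw [hE2] at hb
    exact hb.1 (hab ▸ ha)
  have hEle : ∀ q ∈ E, ∃ l ∈ R, q ≤ l := by
    intro q hq
    rw [hE, List.mem_append] at hq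
    rcases hq with hq | hq
    · exact ⟨q, hq, le_rfl⟩
    · rw [hE2] at hq
      obtain ⟨_, p, n, hp, _, he, l, hl, hpl⟩ := hq
      exact ⟨l, hl, (he1 p hp n q he).1.le.trans hpl⟩
  have hESK : ∀ q ∈ E, q ∈ S ∪ K := by
    intro q hq
    rw [hE, List.mem_append] at hq
    rcases hq with hq | hq
    · exact hRS q hq
    · rw [hE2] at hq
      obtain ⟨_, p, n, hp, _, he, _⟩ := hq
      exact (he1 p hp n q he).2
  have hclosed : ∀ p ∈ E, p ∈ K → ∀ n q, Nat.pair (idx p) n < N → e p n = some q → q ∈ E := by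
    intro p hpE hp n q hn hq
    by_cases hqR : q ∈ R
    · exact List.mem_append_left _ hqR
    · apply List.mem_append_right
      rw [hE2]
      exact ⟨hqR, p, n, hp, hn, hq, hEle p hpE⟩
  have hEinj : ∀ (a b : ℕ) (p : P), E[a]? = some p → E[b]? = some p → a = b := by
    intro a b p ha hb
    obtain ⟨ha', ha2⟩ := List.getElem?_eq_some_iff.1 ha
    obtain ⟨hb', hb2⟩ := List.getElem?_eq_some_iff.1 hb
    exact (List.Nodup.getElem_inj_iff hEn).1 (ha2.trans hb2.symm)
  have hEidx : ∀ q ∈ E, E[E.idxOf q]? = some q := by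
    intro q hq
    rw [List.getElem?_eq_getElem (List.idxOf_lt_length_iff.2 hq), List.getElem_idxOf]
  -- the rules
  obtain ⟨D, hD⟩ : ∃ D : List (ℕ × ℕ × List ℕ × Option ℕ), ∀ d, d ∈ D ↔
      ∃ a n p, E[a]? = some p ∧ p ∈ K ∧ Nat.pair (idx p) n < N ∧
        d = (a, n, col r₀ (Nat.pair (idx p) n), (e p n).map (fun q => E.idxOf q)) := by
    have hfin : ({d : ℕ × ℕ × List ℕ × Option ℕ | ∃ a n p, E[a]? = some p ∧ p ∈ K ∧
        Nat.pair (idx p) n < N ∧
        d = (a, n, col r₀ (Nat.pair (idx p) n), (e p n).map (fun q => E.idxOf q))}).Finite := by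
      have hbox : ((Set.Iio E.length) ×ˢ (Set.Iio N) : Set (ℕ × ℕ)).Finite :=
        (Set.finite_Iio _).prod (Set.finite_Iio _)
      apply (hbox.image (fun c : ℕ × ℕ => match E[c.1]? with
        | some p => (c.1, c.2, col r₀ (Nat.pair (idx p) c.2), (e p c.2).map (fun q => E.idxOf q))
        | none => (0, 0, [], none))).subset
      rintro d ⟨a, n, p, ha, hp, hn, rfl⟩
      refine ⟨(a, n), ⟨?_, ?_⟩, ?_⟩
      · exact (List.getElem?_eq_some_iff.1 ha).1
      · exact lt_of_le_of_lt (Nat.right_le_pair _ _) hn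
      · simp only [ha]
    exact ⟨hfin.toFinset.toList, fun d => by simp⟩
  obtain ⟨A, hA⟩ : ∃ A : List ℕ, ∀ a, a ∈ A ↔ ∃ p ∈ S, E[a]? = some p := by
    refine ⟨(List.range E.length).filter (fun a => ∃ p ∈ S, E[a]? = some p), fun a => ?_⟩
    simp only [List.mem_filter, List.mem_range, decide_eq_true_eq, and_iff_right_iff_imp]
    rintro ⟨p, _, hp⟩
    exact (List.getElem?_eq_some_iff.1 hp).1
  set h : ℕ → ℕ → ℕ := fun a => match E[a]? with
    | some p => f p
    | none => fun _ => 0 with hh
  set B : Finset P := (E.filter (fun p => p ∈ S)).toFinset with hB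
  have hBm : ∀ b, b ∈ B ↔ b ∈ E ∧ b ∈ S := by
    intro b
    rw [hB]
    simp
  refine ⟨B, fun b hb => ((hBm b).1 hb).2, fun b hb => hEle b ((hBm b).1 hb).1, ?_⟩
  apply search A h D ?_ ev hev.1 R.length ζ
  · -- h1
    intro z u hC m v hv
    -- the parameter
    set r : ℕ → ℕ := fun c => if c < N then r₀ c else
      if hc : ∃ a p, E[a]? = some p ∧ p ∈ K ∧ idx p = c.unpair.1 then
        Encodable.encode ((List.range u).map (fun i => W z hc.choose (Nat.pair c.unpair.2 i)))
      else 0 with hr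
    have hrN : ∀ c < N, r c = r₀ c := by
      intro c hc
      simp only [hr, if_pos hc]
    have hrcol : ∀ (a : ℕ) (p : P) (n : ℕ), E[a]? = some p → p ∈ K → ¬ Nat.pair (idx p) n < N →
        col r (Nat.pair (idx p) n) = (List.range u).map (fun i => W z a (Nat.pair n i)) := by
      intro a p n ha hp hn
      have hc : ∃ a' p', E[a']? = some p' ∧ p' ∈ K ∧ idx p' = (Nat.pair (idx p) n).unpair.1 :=
        ⟨a, p, ha, hp, by simp⟩
      have hca : hc.choose = a := by
        obtain ⟨p', hp1, hp2, hp3⟩ := hc.choose_spec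
        rw [Nat.unpair_pair] at hp3
        have : p' = p := hidx hp2 hp hp3
        subst this
        exact hEinj _ _ _ hp1 ha
      have : r (Nat.pair (idx p) n) =
          Encodable.encode ((List.range u).map (fun i => W z a (Nat.pair n i))) := by
        simp only [hr, if_neg hn, dif_pos hc, hca]
        simp
      unfold col
      rw [this, Encodable.encodek]
      rfl
    have key : ∀ j < u, ∀ (a : ℕ) (p : P), E[a]? = some p → F K idx e f r p j = W z a j := by
      intro j
      induction j using Nat.strong_induction_on with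
      | _ j ih =>
        intro hj a p ha
        by_cases hp : p ∈ K
        · obtain ⟨n, i, rfl⟩ : ∃ n i, j = Nat.pair n i :=
            ⟨j.unpair.1, j.unpair.2, (Nat.pair_unpair j).symm⟩
          rw [block_F_eq K idx e f r hp n i (fun q hq => hpos p hp n q hq i)]
          by_cases hn : Nat.pair (idx p) n < N
          · have hrule := hC.2 (a, n, col r₀ (Nat.pair (idx p) n),
              (e p n).map (fun q => E.idxOf q)) ((hD _).2 ⟨a, n, p, ha, hp, hn, rfl⟩) i hj
            simp only at hrule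
            rw [hrule]
            have hcol : col r (Nat.pair (idx p) n) = col r₀ (Nat.pair (idx p) n) := by
              unfold col
              rw [hrN _ hn]
            rw [hcol]
            congr 1
            cases hq : e p n with
            | none => rfl
            | some q =>
              simp only [Option.map_some]
              have hlt := hpos p hp n q hq i
              exact ih i hlt (hlt.trans hj) _ q (hEidx q
                (hclosed p (List.mem_of_getElem? ha) hp n q hn hq))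
          · rw [hrcol a p n ha hp hn]
            have hi : i < u := lt_of_le_of_lt (Nat.right_le_pair n i) hj
            simp [hi]
        · have hpS : p ∈ S := by
            rcases hESK p (List.mem_of_getElem? ha) with h | h
            · exact h
            · exact absurd h hp
          rw [F_of_not_mem K idx e f r hp, hC.1 a ((hA a).2 ⟨p, hpS, ha⟩) j hj, hh]
          simp only [ha]
    have hpre := block_pre_eq (F K idx e f r) R E2 z u key
    exact h1 r hrN m v ⟨u, by rw [hpre]; exact hv⟩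
  · -- h2
    intro m
    obtain ⟨r, hrN, v, u, hv⟩ := h2 m
    set G : ℕ → ℕ := fun t => match E[t.unpair.1]? with
      | some p => F K idx e f r p t.unpair.2
      | none => 0 with hG
    set z : ℕ := Encodable.encode ((List.range (Nat.pair E.length u)).map G) with hz
    have hW : ∀ a j, Nat.pair a j < Nat.pair E.length u → W z a j = G (Nat.pair a j) := by
      intro a j haj
      unfold W
      rw [hz, Encodable.encodek]
      simp [haj]
    have hlt : ∀ a j, a < E.length → j < u → Nat.pair a j < Nat.pair E.length u := by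
      intro a j ha hj
      exact (Nat.pair_lt_pair_left j ha).trans (Nat.pair_lt_pair_right _ hj)
    have key : ∀ j < u, ∀ (a : ℕ) (p : P), E[a]? = some p → F K idx e f r p j = W z a j := by
      intro j hj a p ha
      rw [hW a j (hlt a j (List.getElem?_eq_some_iff.1 ha).1 hj)]
      simp only [hG, Nat.unpair_pair, ha]
    refine ⟨z, u, ⟨?_, ?_⟩, ?_⟩
    · intro a ha j hj
      obtain ⟨p, hpS, hp⟩ := (hA a).1 ha
      have hpK : p ∉ K := fun hK => Set.disjoint_left.1 hd hpS hK
      rw [← key j hj a p hp, F_of_not_mem K idx e f r hpK, hh]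
      simp only [hp]
    · intro d hd i hi
      obtain ⟨a, n, p, ha, hp, hn, rfl⟩ := (hD d).1 hd
      simp only at hi ⊢
      rw [← key _ hi a p ha, block_F_eq K idx e f r hp n i (fun q hq => hpos p hp n q hq i)]
      have hcol : col r (Nat.pair (idx p) n) = col r₀ (Nat.pair (idx p) n) := by
        unfold col
        rw [hrN _ hn]
      rw [hcol]
      congr 1
      cases hq : e p n with
      | none => rfl
      | some q =>
        simp only [Option.map_some]
        have hlt' := hpos p hp n q hq i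
        exact key i (hlt'.trans hi) _ q (hEidx q
          (hclosed p (List.mem_of_getElem? ha) hp n q hn hq))
    · rw [← block_pre_eq (F K idx e f r) R E2 z u key, hv]
      rfl
  · -- hA
    intro a ha
    obtain ⟨p, hpS, hp⟩ := (hA a).1 ha
    have : h a = f p := by
      simp only [hh, hp]
    rw [this]
    have hpB : p ∈ B := (hBm p).2 ⟨List.mem_of_getElem? hp, hpS⟩
    exact Nat.RecursiveIn.oracle _ ⟨p, hpB, rfl⟩

theorem dense_pair {P : Type} [PartialOrder P] (S K : Set P) (hd : Disjoint S K)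
    (idx : P → ℕ) (hidx : Set.InjOn idx K) (e : P → ℕ → Option P)
    (he1 : ∀ p ∈ K, ∀ n q, e p n = some q → q < p ∧ q ∈ S ∪ K)
    (he0 : ∀ p ∈ K, e p 0 = none) (f : P → ℕ → ℕ) (R : List P) (hR : R.Nodup)
    (hRS : ∀ l ∈ R, l ∈ S ∪ K) (ev : List ℕ → ℕ → Option ℕ) (hev : IsFn ev) :
    Dense2 (fun r r' => ∀ ζ : ℕ → ℕ, (∀ m, Hal ev (J (F K idx e f r) R) m (ζ m)) →
      (∀ m, Hal ev (J (F K idx e f r') R) m (ζ m)) →
      ∃ B : Finset P, (B : Set P) ⊆ S ∧ (∀ b ∈ B, ∃ l ∈ R, b ≤ l) ∧
        RecT (Ora f (B : Set P)) ζ) := by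
  intro N r r'
  by_cases hsp : ∃ t t' : ℕ → ℕ, (∀ c < N, t c = r c) ∧ (∀ c < N, t' c = r' c) ∧
      ∃ m v v', Hal ev (J (F K idx e f t) R) m v ∧ Hal ev (J (F K idx e f t') R) m v' ∧ v ≠ v'
  · obtain ⟨t, t', ht, ht', m, v, v', hv, hv', hne⟩ := hsp
    obtain ⟨M, hM⟩ := Hal_cont K idx e f t R hv
    obtain ⟨M', hM'⟩ := Hal_cont K idx e f t' R hv'
    refine ⟨t, t', max M M', ht, ht', fun s s' hs hs' ζ h1 h2 => ?_⟩
    exfalso
    have h3 := Hal.unique hev (hM s (fun c hc => hs c (by omega))) (h1 m)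
    have h4 := Hal.unique hev (hM' s' (fun c hc => hs' c (by omega))) (h2 m)
    exact hne (h3.trans h4.symm)
  · refine ⟨r, r', N, fun _ _ => rfl, fun _ _ => rfl, fun s s' hs hs' ζ h1 h2 => ?_⟩
    refine block_search S K hd idx hidx e he1 he0 f R hR hRS ev hev N r ζ ?_ ?_
    · intro t ht m v hv
      by_contra hne
      exact hsp ⟨t, s', ht, hs', m, v, ζ m, hv, h2 m, hne⟩
    · intro m
      exact ⟨s, hs, ζ m, h1 m⟩

end Pool.Agent.H246
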