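import Mathlib
import Pool.Agent.H246.Defs

set_option autoImplicit false

/-! Fewer than cov(M) dense requirements can be met. -/

namespace Pool.Agent.H246

open Pool.Agent.Helper743

/-- a requirement can be met densely, with finite information -/
def Dense1 (V : (ℕ → ℕ) → Prop) : Prop :=
  ∀ (N : ℕ) (r : ℕ → ℕ), ∃ (s : ℕ → ℕ) (M : ℕ), (∀ c < N, s c = r c) ∧
    ∀ t : ℕ → ℕ, (∀ c < M, t c = s c) → V t


theorem meagre_of_dense1 {V : (ℕ → ℕ) → Prop} (hV : Dense1 V) : IsMeagre {t | ¬ V t} := by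
  classical
  set O : Set (ℕ → ℕ) := {t | ∃ M, ∀ t' : ℕ → ℕ, (∀ c < M, t' c = t c) → V t'} with hO
  have hopen : IsOpen O := by
    rw [isOpen_iff_mem_nhds]
    rintro t ⟨M, hM⟩
    have hcyl : {t' : ℕ → ℕ | ∀ c ∈ Set.Iio M, t' c ∈ ({t c} : Set ℕ)} ∈ nhds t := by
      have := set_pi_mem_nhds (Set.finite_Iio M) (x := t) (s := fun c => ({t c} : Set ℕ))
        (fun c _ => by simp)
      simpa [Set.pi] using this
    refine Filter.mem_of_superset hcyl ?_
    intro t' ht'
    refine ⟨M, fun t'' h'' => hM t'' fun c hc => ?_⟩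
    rw [h'' c hc]
    exact ht' c hc
  have hdense : Dense O := by
    rw [dense_iff_inter_open]
    rintro U hU ⟨r, hr⟩
    rw [isOpen_pi_iff] at hU
    obtain ⟨I, u, hu, hsub⟩ := hU r hr
    obtain ⟨N, hN⟩ : ∃ N, ∀ c ∈ I, c < N := ⟨I.sup id + 1, fun c hc =>
      Nat.lt_succ_of_le (Finset.le_sup (f := id) hc)⟩
    obtain ⟨s, M, hs, hM⟩ := hV N r
    refine ⟨s, hsub ?_, M, hM⟩
    intro c hc
    have := hs c (hN c hc)
    rw [this]
    exact (hu c hc).2
  have h1 : {t | ¬ V t} ⊆ Oᶜ := by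
    intro t ht hO'
    obtain ⟨M, hM⟩ := hO'
    exact ht (hM t fun _ _ => rfl)
  have h2 : IsMeagre Oᶜ := by
    rw [IsMeagre, compl_compl]
    exact residual_of_dense_open hopen hdense
  exact h2.mono h1

theorem meagre_singleton (x : ℕ → ℕ) : IsMeagre {x} := by
  have h : Dense1 (fun t => t ≠ x) := by
    intro N r
    refine ⟨Function.update r N (x N + 1), N + 1, fun c hc => ?_, fun t ht h => ?_⟩
    · rw [Function.update_of_ne (by omega)]
    · have := ht N (by omega)
      rw [h] at this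
      simp at this
  refine (meagre_of_dense1 h).mono ?_
  intro t ht
  simpa using ht

theorem covM_mem : ∃ C : Set (Set (ℕ → ℕ)), (∀ s ∈ C, IsMeagre s) ∧ ⋃₀ C = Set.univ ∧
    covM = Cardinal.mk C := by
  have hne : {c : Cardinal.{0} | ∃ C : Set (Set (ℕ → ℕ)), (∀ s ∈ C, IsMeagre s) ∧
      ⋃₀ C = Set.univ ∧ c = Cardinal.mk C}.Nonempty := by
    refine ⟨_, Set.range (fun x : ℕ → ℕ => ({x} : Set (ℕ → ℕ))), ?_, ?_, rfl⟩
    · rintro s ⟨x, rfl⟩
      exact meagre_singleton x
    · rw [Set.eq_univ_iff_forall]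
      intro t
      exact ⟨{t}, ⟨t, rfl⟩, rfl⟩
  exact csInf_mem hne

theorem aleph0_lt_covM : Cardinal.aleph0 < covM := by
  by_contra hcon
  obtain ⟨C, h1, h2, h3⟩ := covM_mem
  have hC : C.Countable := by
    rw [← Set.countable_coe_iff, ← Cardinal.mk_le_aleph0_iff, ← h3]
    exact not_lt.1 hcon
  have h4 : IsMeagre (⋃₀ C) := by
    rw [Set.sUnion_eq_iUnion]
    have := hC.to_subtype
    exact isMeagre_iUnion (fun s => h1 s.1 s.2)
  rw [h2] at h4
  exact not_isMeagre_of_isOpen isOpen_univ Set.univ_nonempty h4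


/- Plain-words proof of the TARGET below.
For each i the set {t | ¬ V i t} is meager, even nowhere dense: it is disjoint from the set O_i of
all t having some M with {t' | ∀ c < M, t' c = t c} ⊆ V i; O_i is open (cylinders are open in ℕ → ℕ
with the product topology) and dense by Dense1. So {t | ¬ V i t} ⊆ (O_i)ᶜ, a closed set with empty
interior, hence IsMeagre. Let C = range of i ↦ {t | ¬ V i t}; Cardinal.mk C ≤ Cardinal.mk ι < covM,
so by the definition of covM as an infimum (csInf_le', not_mem_of_lt_csInf) C does not cover, and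
any t outside the union works.
-/

-- TARGET
theorem exists_generic {ι : Type} (hι : Cardinal.mk ι < covM) (V : ι → (ℕ → ℕ) → Prop)
    (hV : ∀ i, Dense1 (V i)) : ∃ t : ℕ → ℕ, ∀ i, V i t := by
  classical
  -- the complement of each requirement is meager
  have hme : ∀ i, IsMeagre {t | ¬ V i t} := by
    intro i
    set O : Set (ℕ → ℕ) := {t | ∃ M, ∀ t' : ℕ → ℕ, (∀ c < M, t' c = t c) → V i t'} with hO
    have hopen : IsOpen O := by
      rw [isOpen_iff_mem_nhds]
      rintro t ⟨M, hM⟩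
      have hcyl : {t' : ℕ → ℕ | ∀ c ∈ Set.Iio M, t' c ∈ ({t c} : Set ℕ)} ∈ nhds t := by
        have := set_pi_mem_nhds (Set.finite_Iio M) (x := t) (s := fun c => ({t c} : Set ℕ))
          (fun c _ => by simp)
        simpa [Set.pi] using this
      refine Filter.mem_of_superset hcyl ?_
      intro t' ht'
      refine ⟨M, fun t'' h'' => hM t'' fun c hc => ?_⟩
      rw [h'' c hc]
      exact ht' c hc
    have hdense : Dense O := by
      rw [dense_iff_inter_open]
      rintro U hU ⟨r, hr⟩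
      rw [isOpen_pi_iff] at hU
      obtain ⟨I, u, hu, hsub⟩ := hU r hr
      obtain ⟨N, hN⟩ : ∃ N, ∀ c ∈ I, c < N := ⟨I.sup id + 1, fun c hc =>
        Nat.lt_succ_of_le (Finset.le_sup (f := id) hc)⟩
      obtain ⟨s, M, hs, hM⟩ := hV i N r
      refine ⟨s, hsub ?_, M, hM⟩
      intro c hc
      have := hs c (hN c hc)
      rw [this]
      exact (hu c hc).2
    have h1 : {t | ¬ V i t} ⊆ Oᶜ := by
      intro t ht hO'
      obtain ⟨M, hM⟩ := hO'
      exact ht (hM t fun _ _ => rfl)
    have h2 : IsMeagre Oᶜ := by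
      rw [IsMeagre, compl_compl]
      exact residual_of_dense_open hopen hdense
    exact h2.mono h1
  by_contra hcon
  push Not at hcon
  have hmem : Cardinal.mk (Set.range fun i => {t | ¬ V i t}) ∈
      {c | ∃ C : Set (Set (ℕ → ℕ)), (∀ s ∈ C, IsMeagre s) ∧ ⋃₀ C = Set.univ ∧
        c = Cardinal.mk C} := by
    refine ⟨Set.range fun i => {t | ¬ V i t}, ?_, ?_, rfl⟩
    · rintro s ⟨i, rfl⟩
      exact hme i
    · rw [Set.eq_univ_iff_forall]
      intro t
      obtain ⟨i, hi⟩ := hcon t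
      exact ⟨_, ⟨i, rfl⟩, hi⟩
  have h2 : covM ≤ Cardinal.mk (Set.range fun i => {t | ¬ V i t}) := csInf_le' hmem
  exact absurd (lt_of_le_of_lt (le_trans h2 Cardinal.mk_range_le) hι) (lt_irrefl _)

end Pool.Agent.H246
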