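import Mathlib
import Pool.Agent.H246.Generic

set_option autoImplicit false

/-! A perfect tree of reals meeting fewer than cov(M) pair requirements. -/

namespace Pool.Agent.H246

open Pool.Agent.Helper743

/- Plain-words proof of the TARGET below.
Parameter space: t : ℕ → ℕ. For a finite binary sequence σ : List Bool let
bl t σ := (Encodable.decode (t (Encodable.encode σ)) : Option (List ℕ)).getD [] ++ [0], a nonempty
list. For y : ℕ → Bool let y|n = (List.range n).map y and let φ_t(y) : ℕ → ℕ be the infinite
concatenation of bl t (y|0), bl t (y|1), bl t (y|2), ... (nonempty blocks, so it is a total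
function; e.g. let pref t y n be the concatenation of the first n blocks, of length ≥ n, increasing
in n, and φ_t(y) j = entry j of pref t y (j+1)).
For i and two different finite binary sequences σ ≠ σ' of the same length n let
V(i,σ,σ') t := ∀ y y', y|n = σ → y'|n = σ' → U i (φ_t y) (φ_t y').
Claim: Dense1 (V(i,σ,σ')). Given N and τ, choose m ≥ n such that every binary sequence of length m
has code ≥ N (possible since finitely many sequences have code < N). Keep τ at all codes of
sequences of length < m and at all codes < N; we choose new values at the codes of the sequences of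
length m. For ρ of length m, the concatenation p_ρ of the blocks of the m proper initial segments
of ρ is determined by τ. Run through the finitely many pairs (ρ,ρ') of sequences of length m with
ρ extending σ and ρ' extending σ' (so ρ ≠ ρ'), keeping finite lists q_ρ (initially empty) that only
get extended: for the pair (ρ,ρ') apply Dense2 (U i) with the finite sequences p_ρ ++ q_ρ,
p_ρ' ++ q_ρ' (choose N there as the maximum of their lengths, and r, r' any functions extending
them) to get longer finite sequences all of whose extensions t,t' satisfy U i t t'; extend q_ρ, q_ρ'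
accordingly. Finally let s be τ changed at the codes of ρ (length m) to the code of the list q_ρ.
Then s agrees with τ below N, and with M larger than all codes of sequences of length ≤ m, every t
agreeing with s below M satisfies V(i,σ,σ') t: φ_t(y) extends p_ρ ++ q_ρ for ρ = y|m.
The index set ι × List Bool × List Bool has cardinality < covM (as ℵ₀ < covM; Cardinal.mul_lt_of_lt),
so exists_generic gives t in all of them; φ = φ_t works since y ≠ y' gives n with y|n ≠ y'|n.
-/

/-- the function `f` extends the list `l` -/
def MycAg (l : List ℕ) (f : ℕ → ℕ) : Prop := ∀ j, j < l.length → f j = l.getD j 0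

theorem MycAg.mono {l l' : List ℕ} {f : ℕ → ℕ} (h : l <+: l') (hf : MycAg l' f) : MycAg l f := by
  intro j hj
  obtain ⟨u, rfl⟩ := h
  rw [hf j (by rw [List.length_append]; omega), List.getD_append _ _ _ _ hj]

theorem mycAg_ofFn {N : ℕ} {f g : ℕ → ℕ} (h : MycAg (List.ofFn fun i : Fin N => g i) f) {j : ℕ}
    (hj : j < N) : f j = g j := by
  rw [h j (by rw [List.length_ofFn]; exact hj), List.getD_eq_getElem _ _ (by
    rw [List.length_ofFn]; exact hj), List.getElem_ofFn]

theorem myc_prefix_ofFn {l : List ℕ} {g : ℕ → ℕ} (h : MycAg l g) {N : ℕ} (hN : l.length ≤ N) :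
    l <+: List.ofFn fun i : Fin N => g i := by
  rw [List.prefix_iff_eq_take]
  apply List.ext_getElem
  · rw [List.length_take, List.length_ofFn, min_eq_left hN]
  · intro i h1 h2
    rw [List.getElem_take, List.getElem_ofFn, h i h1, List.getD_eq_getElem _ _ h1]

theorem myc_step {A : Type} [DecidableEq A] {U : (ℕ → ℕ) → (ℕ → ℕ) → Prop} (hU : Dense2 U)
    (L : List (A × A)) (l : A → List ℕ) : ∃ l' : A → List ℕ, (∀ a, l a <+: l' a) ∧
      ∀ p ∈ L, p.1 ≠ p.2 → ∀ f g, MycAg (l' p.1) f → MycAg (l' p.2) g → U f g := by
  induction L with
  | nil => exact ⟨l, fun a => List.prefix_refl _, fun p hp => absurd hp (List.not_mem_nil)⟩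
  | cons x L ih =>
    obtain ⟨l', h1, h2⟩ := ih
    obtain ⟨a, b⟩ := x
    by_cases hab : a = b
    · refine ⟨l', h1, fun p hp hne => ?_⟩
      rcases List.mem_cons.1 hp with rfl | hp
      · exact absurd hab hne
      · exact h2 p hp hne
    · obtain ⟨s, s', M, hs, hs', hM⟩ := hU (max (l' a).length (l' b).length)
        (fun j => (l' a).getD j 0) (fun j => (l' b).getD j 0)
      have ga : MycAg (l' a) s := fun j hj => hs j (lt_of_lt_of_le hj (le_max_left _ _))
      have gb : MycAg (l' b) s' := fun j hj => hs' j (lt_of_lt_of_le hj (le_max_right _ _))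
      set N := max M (max (l' a).length (l' b).length) with hN
      have pa : l' a <+: List.ofFn fun i : Fin N => s i :=
        myc_prefix_ofFn ga ((le_max_left _ _).trans (le_max_right _ _))
      have pb : l' b <+: List.ofFn fun i : Fin N => s' i :=
        myc_prefix_ofFn gb ((le_max_right _ _).trans (le_max_right _ _))
      let l'' : A → List ℕ := fun x => if x = a then List.ofFn (fun i : Fin N => s i) else
        if x = b then List.ofFn (fun i : Fin N => s' i) else l' x
      have ha : l'' a = List.ofFn (fun i : Fin N => s i) := by simp [l'']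
      have hb : l'' b = List.ofFn (fun i : Fin N => s' i) := by
        show (if b = a then List.ofFn (fun i : Fin N => s i) else
          if b = b then List.ofFn (fun i : Fin N => s' i) else l' b) = _
        rw [if_neg (Ne.symm hab), if_pos rfl]
      have hpre : ∀ x, l' x <+: l'' x := by
        intro x
        by_cases hxa : x = a
        · rw [hxa, ha]; exact pa
        · by_cases hxb : x = b
          · rw [hxb, hb]; exact pb
          · have : l'' x = l' x := by
              show (if x = a then List.ofFn (fun i : Fin N => s i) else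
                if x = b then List.ofFn (fun i : Fin N => s' i) else l' x) = _
              rw [if_neg hxa, if_neg hxb]
            rw [this]
      refine ⟨l'', fun x => (h1 x).trans (hpre x), fun p hp hne f g hf hg => ?_⟩
      rcases List.mem_cons.1 hp with rfl | hp
      · simp only at hf hg
        rw [ha] at hf
        rw [hb] at hg
        exact hM f g (fun c hc => mycAg_ofFn hf (lt_of_lt_of_le hc (le_max_left _ _)))
          (fun c hc => mycAg_ofFn hg (lt_of_lt_of_le hc (le_max_left _ _)))
      · exact h2 p hp hne f g (hf.mono (hpre _)) (hg.mono (hpre _))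

/-- the restriction of `y` to `n` -/
def mycRs (y : ℕ → Bool) (n : ℕ) : List Bool := List.ofFn fun i : Fin n => y i

theorem mycRs_length (y : ℕ → Bool) (n : ℕ) : (mycRs y n).length = n := List.length_ofFn

/-- the block at `w` -/
def mycBl (t : ℕ → ℕ) (w : List Bool) : List ℕ :=
  (Encodable.decode (t (Encodable.encode w)) : Option (List ℕ)).getD [] ++ [0]

/-- the concatenation of the first `n` blocks -/
def mycPref (t : ℕ → ℕ) (y : ℕ → Bool) : ℕ → List ℕ
  | 0 => []
  | n + 1 => mycPref t y n ++ mycBl t (mycRs y n)

theorem mycPref_congr {t t' : ℕ → ℕ} {y y' : ℕ → Bool} {n : ℕ}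
    (h : ∀ k < n, mycBl t (mycRs y k) = mycBl t' (mycRs y' k)) : mycPref t y n = mycPref t' y' n := by
  induction n with
  | zero => rfl
  | succ n ih =>
    show mycPref t y n ++ mycBl t (mycRs y n) = mycPref t' y' n ++ mycBl t' (mycRs y' n)
    rw [ih fun k hk => h k (hk.trans (Nat.lt_succ_self n)), h n (Nat.lt_succ_self n)]

theorem mycPref_mono (t : ℕ → ℕ) (y : ℕ → Bool) {m n : ℕ} (h : m ≤ n) :
    mycPref t y m <+: mycPref t y n := by
  induction n, h using Nat.le_induction with
  | base => exact List.prefix_refl _
  | succ n _ ih => exact ih.trans (List.prefix_append _ _)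

theorem mycPref_len (t : ℕ → ℕ) (y : ℕ → Bool) (n : ℕ) : n ≤ (mycPref t y n).length := by
  induction n with
  | zero => exact Nat.zero_le _
  | succ n ih =>
    have : (mycPref t y (n + 1)).length = (mycPref t y n).length + (mycBl t (mycRs y n)).length :=
      List.length_append
    rw [this]
    have : 1 ≤ (mycBl t (mycRs y n)).length := by
      unfold mycBl
      rw [List.length_append]
      simp
    omega

/-- the function with the given blocks along `y` -/
def mycPhi (t : ℕ → ℕ) (y : ℕ → Bool) : ℕ → ℕ := fun j => (mycPref t y (j + 1)).getD j 0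

theorem mycPhi_ag (t : ℕ → ℕ) (y : ℕ → Bool) (n : ℕ) : MycAg (mycPref t y n) (mycPhi t y) := by
  intro j hj
  show (mycPref t y (j + 1)).getD j 0 = (mycPref t y n).getD j 0
  rcases le_total (j + 1) n with h | h
  · obtain ⟨u, hu⟩ := mycPref_mono t y h
    rw [← hu, List.getD_append _ _ _ _ (by have := mycPref_len t y (j + 1); omega)]
  · obtain ⟨u, hu⟩ := mycPref_mono t y h
    rw [← hu, List.getD_append _ _ _ _ hj]

/-- the canonical extension -/
def mycExt {m : ℕ} (a : Fin m → Bool) : ℕ → Bool := fun j => if h : j < m then a ⟨j, h⟩ else false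

theorem mycRs_ext {m k : ℕ} (y : ℕ → Bool) (h : k ≤ m) :
    mycRs (mycExt fun i : Fin m => y i) k = mycRs y k := by
  unfold mycRs
  congr 1
  funext i
  show (if h : (i : ℕ) < m then y i else false) = y i
  rw [dif_pos (lt_of_lt_of_le i.2 h)]

theorem myc_dense {U : (ℕ → ℕ) → (ℕ → ℕ) → Prop} (hU : Dense2 U) (n : ℕ) :
    Dense1 fun t => ∀ y y' : ℕ → Bool, mycRs y n ≠ mycRs y' n → U (mycPhi t y) (mycPhi t y') := by
  classical
  intro N τ
  -- the length `m`
  obtain ⟨m, hnm, hm⟩ : ∃ m, n ≤ m ∧ ∀ w : List Bool, w.length = m → N ≤ Encodable.encode w := by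
    refine ⟨max n (1 + (Finset.range N).sup fun c =>
      ((Encodable.decode c : Option (List Bool)).getD []).length), le_max_left _ _, ?_⟩
    intro w hw
    by_contra hlt
    push Not at hlt
    have h1 : ((Encodable.decode (Encodable.encode w) : Option (List Bool)).getD []).length ≤
        (Finset.range N).sup fun c => ((Encodable.decode c : Option (List Bool)).getD []).length :=
      Finset.le_sup (f := fun c => ((Encodable.decode c : Option (List Bool)).getD []).length)
        (Finset.mem_range.2 hlt)
    rw [Encodable.encodek] at h1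
    simp only [Option.getD_some] at h1
    have h2 := le_max_right n (1 + (Finset.range N).sup fun c =>
      ((Encodable.decode c : Option (List Bool)).getD []).length)
    omega
  -- the lists
  obtain ⟨l, hl1, hl2⟩ := myc_step hU (Finset.univ : Finset ((Fin m → Bool) × (Fin m → Bool))).toList
    (fun a => mycPref τ (mycExt a) m)
  choose q hq using hl1
  let s : ℕ → ℕ := fun c => if h : ∃ a : Fin m → Bool, Encodable.encode (List.ofFn a) = c then
    Encodable.encode (q (Classical.choose h)) else τ c
  have hs1 : ∀ a : Fin m → Bool, s (Encodable.encode (List.ofFn a)) = Encodable.encode (q a) := by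
    intro a
    have h : ∃ b : Fin m → Bool, Encodable.encode (List.ofFn b) = Encodable.encode (List.ofFn a) :=
      ⟨a, rfl⟩
    have h1 : Classical.choose h = a :=
      List.ofFn_injective (Encodable.encode_injective (Classical.choose_spec h))
    show (if h : ∃ b : Fin m → Bool, Encodable.encode (List.ofFn b) =
      Encodable.encode (List.ofFn a) then Encodable.encode (q (Classical.choose h)) else _) = _
    rw [dif_pos h, h1]
  have hs2 : ∀ w : List Bool, w.length ≠ m → s (Encodable.encode w) = τ (Encodable.encode w) := by
    intro w hw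
    refine dif_neg ?_
    rintro ⟨a, ha⟩
    apply hw
    rw [← Encodable.encode_injective ha, List.length_ofFn]
  let M : ℕ := 1 + (Finset.range (m + 1)).sup fun k =>
    (Finset.univ : Finset (Fin k → Bool)).sup fun a => Encodable.encode (List.ofFn a)
  have hM : ∀ (y : ℕ → Bool) (k : ℕ), k ≤ m → Encodable.encode (mycRs y k) < M := by
    intro y k hk
    have h1 : Encodable.encode (List.ofFn fun i : Fin k => y i) ≤
        (Finset.univ : Finset (Fin k → Bool)).sup fun a => Encodable.encode (List.ofFn a) :=
      Finset.le_sup (f := fun a : Fin k → Bool => Encodable.encode (List.ofFn a))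
        (Finset.mem_univ _)
    have h2 : ((Finset.univ : Finset (Fin k → Bool)).sup fun a => Encodable.encode (List.ofFn a)) ≤
        (Finset.range (m + 1)).sup fun k =>
          (Finset.univ : Finset (Fin k → Bool)).sup fun a => Encodable.encode (List.ofFn a) :=
      Finset.le_sup (f := fun k => (Finset.univ : Finset (Fin k → Bool)).sup fun a =>
        Encodable.encode (List.ofFn a)) (Finset.mem_range.2 (Nat.lt_succ_of_le hk))
    show Encodable.encode (List.ofFn fun i : Fin k => y i) < _
    omega
  refine ⟨s, M, fun c hc => ?_, fun t ht y y' hne => ?_⟩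
  · refine dif_neg ?_
    rintro ⟨a, ha⟩
    have := hm (List.ofFn a) (List.length_ofFn)
    omega
  · have key : ∀ y : ℕ → Bool, MycAg (l fun i : Fin m => y i) (mycPhi t y) := by
      intro y
      have h1 : mycPref t y m = mycPref τ (mycExt fun i : Fin m => y i) m := by
        apply mycPref_congr
        intro k hk
        rw [mycRs_ext y hk.le]
        unfold mycBl
        rw [ht _ (hM y k hk.le), hs2 _ (by rw [mycRs_length]; exact hk.ne)]
      have h2 : mycPref t y (m + 1) = mycPref τ (mycExt fun i : Fin m => y i) m ++
          (q (fun i : Fin m => y i) ++ [0]) := by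
        show mycPref t y m ++ mycBl t (mycRs y m) = _
        rw [h1]
        unfold mycBl
        rw [ht _ (hM y m le_rfl)]
        have h3 := hs1 fun i : Fin m => y i
        unfold mycRs
        rw [h3, Encodable.encodek]
        rfl
      have h4 := mycPhi_ag t y (m + 1)
      rw [h2, ← List.append_assoc, hq] at h4
      exact h4.mono (List.prefix_append _ _)
    have hne' : (fun i : Fin m => y i) ≠ fun i : Fin m => y' i := by
      intro heq
      apply hne
      unfold mycRs
      congr 1
      funext i
      exact congrFun heq ⟨i, lt_of_lt_of_le i.2 hnm⟩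
    exact hl2 (fun i : Fin m => y i, fun i : Fin m => y' i)
      (Finset.mem_toList.2 (Finset.mem_univ _)) hne' _ _ (key y) (key y')

-- TARGET
theorem mycielski {ι : Type} (hι : Cardinal.mk ι < covM) (U : ι → (ℕ → ℕ) → (ℕ → ℕ) → Prop)
    (hU : ∀ i, Dense2 (U i)) :
    ∃ φ : (ℕ → Bool) → (ℕ → ℕ), ∀ i y y', y ≠ y' → U i (φ y) (φ y') := by
  have hc : Cardinal.mk (ι × ℕ) < covM := by
    rw [Cardinal.mk_prod, Cardinal.lift_id, Cardinal.lift_id, Cardinal.mk_nat]
    exact Cardinal.mul_lt_of_lt aleph0_lt_covM.le hι aleph0_lt_covM
  obtain ⟨t, ht⟩ := exists_generic hc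
    (fun i t => ∀ y y' : ℕ → Bool, mycRs y i.2 ≠ mycRs y' i.2 → U i.1 (mycPhi t y) (mycPhi t y'))
    (fun i => myc_dense (hU i.1) i.2)
  refine ⟨mycPhi t, fun i y y' hne => ?_⟩
  obtain ⟨j, hj⟩ := Function.ne_iff.1 hne
  refine ht (i, j + 1) y y' fun heq => hj ?_
  have h1 := List.ofFn_injective heq
  exact congrFun h1 ⟨j, Nat.lt_succ_self j⟩

end Pool.Agent.H246
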