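import Mathlib
import Pool.Agent.H246.Myc
import Pool.Agent.H246.BSearch

set_option autoImplicit false

/-! One block of the recursion. -/

namespace Pool.Agent.H246

open Pool.Agent.Helper743

/- Plain-words proof of the TARGET below.
Choose idx : P → ℕ injective on the countable set K, and e : P → ℕ → Option P such that for p ∈ K:
e p 0 = none, e p n = some q implies q < p, and every q < p is e p n for some n (the set of
q < p is countable). As S ∪ K is a lower set, e p n = some q implies q ∈ S ∪ K. Write F r for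
F K idx e f r. For every r: F r p = f p for p ∈ S (F_of_not_mem), and q ≤ p in S ∪ K implies
TR (F r q) (F r p): trivial if q = p; for p ∈ K, q < p it is TR_F; for p ∈ S, q ∈ S by hS, use hf.
Let Nei = {q ∈ S | ∃ k ∈ K, q ∈ Nb k}, of cardinality < covM. Requirements (index type: pairs
consisting of a finite subset R of Nei ∪ K and of a functional ev with IsFn ev, and x ∈ K; its
cardinality is < covM because covM is uncountable, K and {ev | IsFn ev} are countable and the
finite subsets of a set of cardinality < covM (or of its union with a countable set) are < covM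
many): dense_inj for x ∈ K; dense_self for (R, ev, x), when x ≤ no element of R (list R.toList);
dense_pair for (R, ev) (requirement True if the side conditions fail). mycielski gives
φ : (ℕ → Bool) → (ℕ → ℕ) such that for y ≠ y' all requirements hold for (φ y, φ y').
Call y bad if one of:
 (b1) for some x ∈ K and some finite Q ⊆ S, RecT (Ora f Q) (F (φ y) x);
 (b2) for some x ∈ S, finite R ⊆ Nei ∪ K such that R is bounded above, x ≤ no element of R, and
      some functional ev: ∀ m, Hal ev (J (F (φ y)) R.toList) m (f x m).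
For (b1): for fixed x, Q the set of functions recursive in Ora f Q is countable and
y ↦ F (φ y) x is injective (dense_inj requirement), so countably many y are bad because of (x,Q).
For (b2): for fixed (x,R,ev) at most one y is bad: if y ≠ y' are, then dense_pair gives a finite
B ⊆ S, each b ∈ B below some l ∈ R, with RecT (Ora f B) (f x); B is bounded above since R is, and
x ≤ b ∈ B would give x ≤ l ∈ R, so x ≤ no element of B, contradicting hf.
S has cardinality < continuum, so there are fewer than continuum many triples (x,Q), (x,R,ev), each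
excluding countably many y, so the set of bad y has cardinality < continuum, and there is a good y
(there are continuum many y : ℕ → Bool). Let g = F (φ y) for a good y.
Inv (S ∪ K) g: the first part is done. Let Q ⊆ S ∪ K be finite, bounded above, x ∈ S ∪ K, x ≤ no
element of Q; suppose RecT (Ora g Q) (g x). If Q ⊆ S then Ora g Q = Ora f Q; if x ∈ S this
contradicts hf (g x = f x) and if x ∈ K this contradicts that y is not (b1)-bad. So suppose
Q ∩ K is not empty, say l₀ ∈ Q ∩ K. Let R = (Q ∩ K) ∪ {q ∈ Q ∩ S | q ≤ l for no l ∈ Q ∩ K}. Every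
g q with q ∈ Q is recursive in Ora g R (if q ∈ S, q ≤ l ∈ Q ∩ K use TR (g q) (g l)), so
RecT (Ora g R) (g x) (RecT.subst). Elements q ∈ R ∩ S are in Nei: q is not ≤ l₀, l₀ is not ≤ q
(S is a lower set and l₀ ∉ S), and q, l₀ have a common upper bound as Q is bounded above. So
R ⊆ Nei ∪ K. By exists_fn there is ev with IsFn ev and ∀ m, Hal ev (J g R.toList) m (g x m). If
x ∈ S this is (b2). If x ∈ K it contradicts the requirement dense_self for (R, ev, x) (apply it to
y and any y' ≠ y).
-/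

theorem ext_dense_true : Dense2 fun _ _ => True := fun _ r r' =>
  ⟨r, r', 0, fun _ _ => rfl, fun _ _ => rfl, fun _ _ _ _ => trivial⟩

theorem ext_dense_imp {c : Prop} {U : (ℕ → ℕ) → (ℕ → ℕ) → Prop} (h : c → Dense2 U) :
    Dense2 fun r r' => c → U r r' := by
  intro N r r'
  by_cases hc : c
  · obtain ⟨s, s', M, h1, h2, h3⟩ := h hc N r r'
    exact ⟨s, s', M, h1, h2, fun t t' ht ht' _ => h3 t t' ht ht'⟩
  · exact ⟨r, r', 0, fun _ _ => rfl, fun _ _ => rfl, fun _ _ _ _ h => (hc h).elim⟩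

theorem ext_mk_finset_lt {T : Type} {c : Cardinal.{0}} (hc : Cardinal.aleph0 ≤ c)
    (hc' : Cardinal.aleph0 < c) (h : Cardinal.mk T < c) : Cardinal.mk (Finset T) < c := by
  rcases finite_or_infinite T with hT | hT
  · exact (Cardinal.mk_le_aleph0 (α := Finset T)).trans_lt hc'
  · rwa [Cardinal.mk_finset_of_infinite]

theorem ext_union_lt {I Y : Type} (A : I → Set Y) (hA : ∀ i, (A i).Countable)
    (hI : Cardinal.mk I < Cardinal.continuum) :
    Cardinal.mk (⋃ i, A i : Set Y) < Cardinal.continuum := by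
  refine (Cardinal.mk_iUnion_le A).trans_lt ?_
  refine Cardinal.mul_lt_of_lt Cardinal.aleph0_le_continuum hI ?_
  refine lt_of_le_of_lt (ciSup_le' fun i => ?_) Cardinal.aleph0_lt_continuum
  exact Cardinal.le_aleph0_iff_set_countable.2 (hA i)

-- TARGET
theorem extend {P : Type} [PartialOrder P] (hloc : ∀ x : P, (Set.Iio x).Countable)
    (S K : Set P) (hS : IsLowerSet S) (hSK : IsLowerSet (S ∪ K)) (hd : Disjoint S K)
    (hK : K.Countable) (f : P → ℕ → ℕ) (hf : Inv S f)
    (hS1 : Cardinal.mk S < Cardinal.continuum)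
    (hS2 : Cardinal.mk {q : P | q ∈ S ∧ ∃ k ∈ K, q ∈ Nb k} < covM) :
    ∃ g : P → ℕ → ℕ, (∀ p ∈ S, g p = f p) ∧ Inv (S ∪ K) g := by
  classical
  obtain ⟨idx, hidx⟩ := Set.countable_iff_exists_injOn.1 hK
  have hex : ∀ p : P, ∃ ep : ℕ → Option P, ep 0 = none ∧ (∀ n q, ep n = some q → q < p) ∧
      ∀ q < p, ∃ n, ep n = some q := by
    intro p
    rcases (Set.Iio p).eq_empty_or_nonempty with he | hne
    · refine ⟨fun _ => none, rfl, fun n q h => by simp at h, fun q hq => ?_⟩
      have : q ∈ Set.Iio p := hq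
      rw [he] at this
      exact this.elim
    · obtain ⟨g, hg⟩ := (hloc p).exists_eq_range hne
      refine ⟨fun n => match n with
        | 0 => none
        | n + 1 => some (g n), rfl, ?_, ?_⟩
      · intro n q h
        rcases n with _ | n
        · simp at h
        · simp only [Option.some.injEq] at h
          rw [← h]
          have : g n ∈ Set.Iio p := by rw [hg]; exact ⟨n, rfl⟩
          exact this
      · intro q hq
        have : q ∈ Set.Iio p := hq
        rw [hg] at this
        obtain ⟨n, hn⟩ := this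
        exact ⟨n + 1, by simp [hn]⟩
  choose e he0 he1 he2 using hex
  have he1' : ∀ p ∈ K, ∀ n q, e p n = some q → q < p ∧ q ∈ S ∪ K := fun p hp n q h =>
    ⟨he1 p n q h, hSK (he1 p n q h).le (Or.inr hp)⟩
  have hSK' : ∀ p ∈ S, p ∉ K := fun p hp hk => Set.disjoint_left.1 hd hp hk
  have hFS : ∀ r, ∀ p ∈ S, F K idx e f r p = f p := fun r p hp =>
    F_of_not_mem K idx e f r (hSK' p hp)
  have hB : ∀ r, ∀ p ∈ S ∪ K, ∀ q ∈ S ∪ K, q ≤ p →
      TR (F K idx e f r q) (F K idx e f r p) := by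
    intro r p hp q hq hqp
    rcases eq_or_lt_of_le hqp with rfl | hlt
    · exact TR.refl _
    · rcases hp with hp | hp
      · have hqS := hS hqp hp
        rw [hFS r p hp, hFS r q hqS]
        exact hf.1 p hp q hqS hqp
      · exact TR_F K idx e (fun p _ => he0 p) f r hp (he2 p q hlt)
  set Nei : Set P := {q : P | q ∈ S ∧ ∃ k ∈ K, q ∈ Nb k} with hNei
  have hKc : Cardinal.mk K ≤ Cardinal.aleph0 := Cardinal.le_aleph0_iff_set_countable.2 hK
  have hcov : Cardinal.aleph0 < covM := aleph0_lt_covM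
  have hTc : Cardinal.mk (Nei ∪ K : Set P) < covM :=
    (Cardinal.mk_union_le Nei K).trans_lt
      (Cardinal.add_lt_of_lt hcov.le hS2 (hKc.trans_lt hcov))
  have hTc' : Cardinal.mk (Nei ∪ K : Set P) < Cardinal.continuum := by
    refine (Cardinal.mk_union_le Nei K).trans_lt
      (Cardinal.add_lt_of_lt Cardinal.aleph0_le_continuum ?_
        (hKc.trans_lt Cardinal.aleph0_lt_continuum))
    refine (Cardinal.mk_le_mk_of_subset ?_).trans_lt hS1
    exact fun q hq => hq.1
  let EV := {ev : List ℕ → ℕ → Option ℕ // IsFn ev}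
  have hEV : Cardinal.mk EV ≤ Cardinal.aleph0 :=
    Cardinal.le_aleph0_iff_set_countable.2 countable_fn
  let T := (Nei ∪ K : Set P)
  let ls : Finset T → List P := fun R => (R.map (Function.Embedding.subtype _)).toList
  have hls : ∀ (R : Finset T) (q : P), q ∈ ls R ↔ ∃ h : q ∈ Nei ∪ K, (⟨q, h⟩ : T) ∈ R := by
    intro R q
    simp only [ls, Finset.mem_toList, Finset.mem_map, Function.Embedding.subtype_apply]
    constructor
    · rintro ⟨a, ha, rfl⟩
      exact ⟨a.2, ha⟩
    · rintro ⟨h, h'⟩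
      exact ⟨_, h', rfl⟩
  have hTSK : ∀ q ∈ Nei ∪ K, q ∈ S ∪ K := by
    rintro q (hq | hq)
    · exact Or.inl hq.1
    · exact Or.inr hq
  let ι := K ⊕ ((Finset T × EV × K) ⊕ (Finset T × EV))
  have hι : Cardinal.mk ι < covM := by
    have a1 : Cardinal.mk (Finset T) < covM := ext_mk_finset_lt hcov.le hcov hTc
    have a2 : Cardinal.mk EV < covM := hEV.trans_lt hcov
    have a3 : Cardinal.mk K < covM := hKc.trans_lt hcov
    simp only [ι, Cardinal.mk_sum, Cardinal.mk_prod, Cardinal.lift_id]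
    refine Cardinal.add_lt_of_lt hcov.le a3 (Cardinal.add_lt_of_lt hcov.le ?_ ?_)
    · exact Cardinal.mul_lt_of_lt hcov.le a1 (Cardinal.mul_lt_of_lt hcov.le a2 a3)
    · exact Cardinal.mul_lt_of_lt hcov.le a1 a2
  let U : ι → (ℕ → ℕ) → (ℕ → ℕ) → Prop := fun i => match i with
    | Sum.inl x => fun r r' => F K idx e f r x ≠ F K idx e f r' x
    | Sum.inr (Sum.inl (R, ev, x)) => fun r _ => (∀ l ∈ ls R, ¬ (x : P) ≤ l) →
        ¬ ∀ m, Hal ev.1 (J (F K idx e f r) (ls R)) m (F K idx e f r x m)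
    | Sum.inr (Sum.inr (R, ev)) => fun r r' => ∀ ζ : ℕ → ℕ,
        (∀ m, Hal ev.1 (J (F K idx e f r) (ls R)) m (ζ m)) →
        (∀ m, Hal ev.1 (J (F K idx e f r') (ls R)) m (ζ m)) →
        ∃ B : Finset P, (B : Set P) ⊆ S ∧ (∀ b ∈ B, ∃ l ∈ ls R, b ≤ l) ∧
          RecT (Ora f (B : Set P)) ζ
  have hU : ∀ i, Dense2 (U i) := by
    rintro (x | ⟨R, ev, x⟩ | ⟨R, ev⟩)
    · exact dense_inj K idx e f x.2
    · exact ext_dense_imp fun h =>
        dense_self K idx hidx e (fun p _ => he1 p) f (ls R) ev.1 ev.2 x.2 h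
    · refine dense_pair S K hd idx hidx e he1' (fun p _ => he0 p) f (ls R)
        (Finset.nodup_toList _) ?_ ev.1 ev.2
      intro l hl
      obtain ⟨h, -⟩ := (hls R l).1 hl
      exact hTSK l h
  obtain ⟨φ, hφ⟩ := mycielski hι U hU
  -- bad points
  let Bad1 : K × Finset S → Set (ℕ → Bool) := fun i =>
    {y | RecT (Ora f ((i.2.map (Function.Embedding.subtype _) : Finset P) : Set P))
      (F K idx e f (φ y) i.1)}
  let Bad2 : S × Finset T × EV → Set (ℕ → Bool) := fun i =>
    {y | BddAbove {q | q ∈ ls i.2.1} ∧ (∀ l ∈ ls i.2.1, ¬ (i.1 : P) ≤ l) ∧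
      ∀ m, Hal i.2.2.1 (J (F K idx e f (φ y)) (ls i.2.1)) m (f i.1 m)}
  have hBad1 : ∀ i, (Bad1 i).Countable := by
    rintro ⟨x, Q⟩
    have hinj : Function.Injective fun y => F K idx e f (φ y) x := by
      intro y y' h
      by_contra hne
      exact hφ (Sum.inl x) y y' hne h
    refine Set.Countable.preimage_of_injOn (countable_recT f (Q.map (Function.Embedding.subtype _)))
      (f := fun y => F K idx e f (φ y) x) hinj.injOn
  have hBad2 : ∀ i, (Bad2 i).Countable := by
    rintro ⟨x, R, ev⟩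
    refine Set.Subsingleton.countable ?_
    rintro y ⟨hb, hx, h1⟩ y' ⟨-, -, h2⟩
    by_contra hne
    obtain ⟨B, hBS, hBR, hrec⟩ := hφ (Sum.inr (Sum.inr (R, ev))) y y' hne (f x) h1 h2
    refine hf.2 B hBS ?_ x x.2 ?_ hrec
    · obtain ⟨c, hc⟩ := hb
      refine ⟨c, fun b hb => ?_⟩
      obtain ⟨l, hl, hbl⟩ := hBR b hb
      exact hbl.trans (hc hl)
    · intro q hq hxq
      obtain ⟨l, hl, hbl⟩ := hBR q hq
      exact hx l hl (hxq.trans hbl)
  have c1 : Cardinal.mk (⋃ i, Bad1 i : Set (ℕ → Bool)) < Cardinal.continuum := by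
    refine ext_union_lt Bad1 hBad1 ?_
    rw [Cardinal.mk_prod, Cardinal.lift_id, Cardinal.lift_id]
    exact Cardinal.mul_lt_of_lt Cardinal.aleph0_le_continuum
      (hKc.trans_lt Cardinal.aleph0_lt_continuum)
      (ext_mk_finset_lt Cardinal.aleph0_le_continuum Cardinal.aleph0_lt_continuum hS1)
  have c2 : Cardinal.mk (⋃ i, Bad2 i : Set (ℕ → Bool)) < Cardinal.continuum := by
    refine ext_union_lt Bad2 hBad2 ?_
    simp only [Cardinal.mk_prod, Cardinal.lift_id]
    exact Cardinal.mul_lt_of_lt Cardinal.aleph0_le_continuum hS1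
      (Cardinal.mul_lt_of_lt Cardinal.aleph0_le_continuum
        (ext_mk_finset_lt Cardinal.aleph0_le_continuum Cardinal.aleph0_lt_continuum hTc')
        (hEV.trans_lt Cardinal.aleph0_lt_continuum))
  obtain ⟨y, hy⟩ : ∃ y, y ∉ (⋃ i, Bad1 i) ∪ ⋃ i, Bad2 i := by
    by_contra hcon
    push Not at hcon
    have h1 : ((⋃ i, Bad1 i) ∪ ⋃ i, Bad2 i) = Set.univ := Set.eq_univ_of_forall hcon
    have h2 := (Cardinal.mk_union_le (⋃ i, Bad1 i) (⋃ i, Bad2 i)).trans_lt
      (Cardinal.add_lt_of_lt Cardinal.aleph0_le_continuum c1 c2)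
    rw [h1, Cardinal.mk_univ] at h2
    simp at h2
  have hy1 : ∀ i, y ∉ Bad1 i := fun i h => hy (Or.inl (Set.mem_iUnion.2 ⟨i, h⟩))
  have hy2 : ∀ i, y ∉ Bad2 i := fun i h => hy (Or.inr (Set.mem_iUnion.2 ⟨i, h⟩))
  refine ⟨F K idx e f (φ y), hFS (φ y), hB (φ y), ?_⟩
  intro Q hQ hQb x hx hxQ hrec
  by_cases hQS : (Q : Set P) ⊆ S
  · have hOra : Ora (F K idx e f (φ y)) (Q : Set P) = Ora f (Q : Set P) := by
      ext g
      constructor
      · rintro ⟨q, hq, rfl⟩
        exact ⟨q, hq, by rw [hFS _ q (hQS hq)]⟩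
      · rintro ⟨q, hq, rfl⟩
        exact ⟨q, hq, by rw [hFS _ q (hQS hq)]⟩
    rw [hOra] at hrec
    rcases hx with hx | hx
    · rw [hFS _ x hx] at hrec
      exact hf.2 Q hQS hQb x hx hxQ hrec
    · apply hy1 (⟨x, hx⟩, Q.subtype (· ∈ S))
      show RecT _ _
      rw [show ((Q.subtype (· ∈ S)).map (Function.Embedding.subtype _)) = Q from
        Finset.subtype_map_of_mem fun q hq => hQS hq]
      exact hrec
  · obtain ⟨l0, hl0Q, hl0S⟩ := Set.not_subset.1 hQS
    have hl0K : l0 ∈ K := (hQ hl0Q).resolve_left hl0S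
    let R0 : Finset P := Q.filter fun q => q ∈ K ∨ ∀ l ∈ Q, l ∈ K → ¬ q ≤ l
    have hR0 : ∀ q ∈ R0, q ∈ Nei ∪ K := by
      intro q hq
      obtain ⟨hqQ, hq⟩ := Finset.mem_filter.1 hq
      by_cases hqK : q ∈ K
      · exact Or.inr hqK
      · have hqS : q ∈ S := (hQ hqQ).resolve_right hqK
        have h1 := (hq.resolve_left hqK) l0 hl0Q hl0K
        obtain ⟨c, hc⟩ := hQb
        exact Or.inl ⟨hqS, l0, hl0K, fun h => hl0S (hS h hqS), h1, c, hc hl0Q, hc hqQ⟩
    let R : Finset T := R0.subtype (· ∈ Nei ∪ K)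
    have hlR : ∀ q, q ∈ ls R ↔ q ∈ R0 := by
      intro q
      rw [hls]
      constructor
      · rintro ⟨h, h'⟩
        exact Finset.mem_subtype.1 h'
      · intro h
        exact ⟨hR0 q h, Finset.mem_subtype.2 h⟩
    have hR0Q : ∀ q ∈ R0, q ∈ Q := fun q hq => (Finset.mem_filter.1 hq).1
    have hrec2 : RecT (Ora (F K idx e f (φ y)) {q | q ∈ ls R}) (F K idx e f (φ y) x) := by
      refine RecT.subst hrec ?_
      rintro h ⟨q, hq, rfl⟩
      by_cases hqR : q ∈ R0
      · exact Nat.RecursiveIn.oracle _ ⟨q, (hlR q).2 hqR, rfl⟩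
      · have : ¬ (q ∈ K ∨ ∀ l ∈ Q, l ∈ K → ¬ q ≤ l) := fun h =>
          hqR (Finset.mem_filter.2 ⟨hq, h⟩)
        push Not at this
        obtain ⟨-, l, hlQ, hlK, hql⟩ := this
        have h1 := hB (φ y) l (hQ hlQ) q (hQ hq) hql
        refine TR.of_recT h1 ?_
        exact Nat.RecursiveIn.oracle _ ⟨l, (hlR l).2 (Finset.mem_filter.2 ⟨hlQ, Or.inl hlK⟩), rfl⟩
    obtain ⟨ev, hev, hHal⟩ := exists_fn _ (ls R) _ hrec2
    have hxR : ∀ l ∈ ls R, ¬ x ≤ l := fun l hl => hxQ l (hR0Q l ((hlR l).1 hl))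
    rcases hx with hx | hx
    · apply hy2 (⟨x, hx⟩, R, ⟨ev, hev⟩)
      refine ⟨?_, hxR, fun m => ?_⟩
      · obtain ⟨c, hc⟩ := hQb
        exact ⟨c, fun q hq => hc (hR0Q q ((hlR q).1 hq))⟩
      · have := hHal m
        rw [hFS _ x hx] at this
        exact this
    · have hne : y ≠ fun n => !(y n) := by
        intro h
        have := congrFun h 0
        simp at this
      exact hφ (Sum.inr (Sum.inl (R, ⟨ev, hev⟩, ⟨x, hx⟩))) y _ hne hxR hHal

end Pool.Agent.H246
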