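import Mathlib
import Pool.Agent.H246.Extend

set_option autoImplicit false

/-! The transfinite recursion. -/

namespace Pool.Agent.H246

open Pool.Agent.Helper743

/- Plain-words proof of the TARGET below.
Write S i = {p | idx p < i}, K i = {p | idx p = i}; S i and S i ∪ K i = {p | idx p ≤ i} are lower
sets by hmono, K i is countable. By well-founded recursion on i ∈ I define G i : P → ℕ → ℕ: let
f_i p = G (idx p) p for p with idx p < i (0 otherwise); if there is g with g = f_i on S i and
Inv (S i ∪ K i) g, let G i be such a g, otherwise anything. Let f p = G (idx p) p. Note that Inv S f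
only depends on the values of f on S (Ora f Q only depends on f on Q). By well-founded induction on
i we show Inv (S i) f and Inv (S i ∪ K i) f. Suppose it is true below i. Inv (S i) f: the first part
for p, q ∈ S i with q ≤ p: p, q ∈ S j ∪ K j for j = idx p < i. Second part: given a finite Q ⊆ S i and
x ∈ S i let j be the largest of idx x, idx q (q ∈ Q); j < i and Q, x are in S j ∪ K j. Then f_i = f on
S i, Inv (S i) f_i, and `extend` (with hcard, hN) gives g with g = f_i on S i and Inv (S i ∪ K i) g,
so G i is such a function, and it agrees with f on S i ∪ K i; so Inv (S i ∪ K i) f. Finally Inv univ f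
follows from Inv (S i ∪ K i) f for all i in the same way as Inv (S i) f (if P is nonempty; the finite
set Q ∪ {x} has a largest index).
-/


theorem assemble_congr {P : Type} [PartialOrder P] {S : Set P} {f g : P → ℕ → ℕ}
    (h : ∀ p ∈ S, g p = f p) (hf : Inv S f) : Inv S g := by
  obtain ⟨h1, h2⟩ := hf
  refine ⟨fun p hp q hq hqp => ?_, fun Q hQ hb x hx hn => ?_⟩
  · rw [h p hp, h q hq]
    exact h1 p hp q hq hqp
  · have e : Ora g (Q : Set P) = Ora f (Q : Set P) := by
      ext k
      constructor
      · rintro ⟨q, hq, rfl⟩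
        exact ⟨q, hq, by rw [h q (hQ hq)]⟩
      · rintro ⟨q, hq, rfl⟩
        exact ⟨q, hq, by rw [h q (hQ hq)]⟩
    rw [e, h x hx]
    exact h2 Q hQ hb x hx hn

theorem assemble_union {P : Type} [PartialOrder P] {I : Type} [LinearOrder I] (idx : P → I)
    (hmono : ∀ p q : P, q ≤ p → idx q ≤ idx p) {A : Set P} {f : P → ℕ → ℕ}
    (h : ∀ p ∈ A, Inv {q | idx q ≤ idx p} f) : Inv A f := by
  classical
  refine ⟨fun p hp q _ hqp => ?_, fun Q hQ hb x hx hn => ?_⟩
  · exact (h p hp).1 p (le_refl (idx p)) q (hmono p q hqp) hqp
  · obtain ⟨y, hy, hmax⟩ := Finset.exists_max_image (insert x Q) idx ⟨x, Finset.mem_insert_self x Q⟩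
    have hyA : y ∈ A := by
      rcases Finset.mem_insert.1 hy with rfl | hy
      · exact hx
      · exact hQ hy
    exact (h y hyA).2 Q (fun q hq => hmax q (Finset.mem_insert_of_mem hq)) hb x
      (hmax x (Finset.mem_insert_self x Q)) hn

open Classical in
/-- the recursion -/
noncomputable def assemble_G {P : Type} [PartialOrder P] {I : Type} [LinearOrder I]
    [WellFoundedLT I] (idx : P → I) : I → P → ℕ → ℕ :=
  WellFounded.fix (wellFounded_lt (α := I)) (fun i rec =>
    if h : ∃ g : P → ℕ → ℕ, (∀ p, ∀ hp : idx p < i, g p = rec (idx p) hp p) ∧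
      Inv {q | idx q ≤ i} g then Classical.choose h else fun _ _ => 0)

theorem assemble_G_spec {P : Type} [PartialOrder P] {I : Type} [LinearOrder I]
    [WellFoundedLT I] (idx : P → I) (i : I)
    (h : ∃ g : P → ℕ → ℕ, (∀ p, idx p < i → g p = assemble_G idx (idx p) p) ∧
      Inv {q | idx q ≤ i} g) :
    (∀ p, idx p < i → assemble_G idx i p = assemble_G idx (idx p) p) ∧
      Inv {q | idx q ≤ i} (assemble_G idx i) := by
  have e : assemble_G idx i = Classical.choose h := by
    unfold assemble_G
    rw [WellFounded.fix_eq]
    exact dif_pos h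
  rw [e]
  exact Classical.choose_spec h

-- TARGET
theorem assemble {P : Type} [PartialOrder P] (hloc : ∀ x : P, (Set.Iio x).Countable)
    {I : Type} [LinearOrder I] [WellFoundedLT I] (idx : P → I)
    (hmono : ∀ p q : P, q ≤ p → idx q ≤ idx p) (hfib : ∀ i, {p | idx p = i}.Countable)
    (hcard : ∀ i, Cardinal.mk {p | idx p < i} < Cardinal.continuum)
    (hN : ∀ i, Cardinal.mk {q : P | idx q < i ∧ ∃ k, idx k = i ∧ q ∈ Nb k} < covM) :
    ∃ f : P → ℕ → ℕ, Inv Set.univ f := by
  set f : P → ℕ → ℕ := fun p => assemble_G idx (idx p) p with hf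
  have key : ∀ i, Inv {q | idx q ≤ i} f := by
    intro i
    induction i using WellFoundedLT.induction with
    | ind i ih =>
      have hS : Inv {q | idx q < i} f := assemble_union idx hmono fun p hp => ih (idx p) hp
      have hU : {q : P | idx q < i} ∪ {q | idx q = i} = {q | idx q ≤ i} := by
        ext q
        simp only [Set.mem_union, Set.mem_ofPred_eq]
        exact le_iff_lt_or_eq.symm
      obtain ⟨g, hg1, hg2⟩ := extend hloc {q | idx q < i} {q | idx q = i}
        (fun p q hqp hp => lt_of_le_of_lt (hmono p q hqp) hp)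
        (by
          rw [hU]
          exact fun p q hqp hp => le_trans (hmono p q hqp) hp)
        (by
          rw [Set.disjoint_left]
          intro q hq hq'
          exact absurd hq' (ne_of_lt hq))
        (hfib i) f hS (hcard i) (hN i)
      rw [hU] at hg2
      obtain ⟨s1, s2⟩ := assemble_G_spec idx i ⟨g, fun p hp => hg1 p hp, hg2⟩
      refine assemble_congr (fun p hp => ?_) s2
      rcases lt_or_eq_of_le (show idx p ≤ i from hp) with h | h
      · exact (s1 p h).symm
      · rw [hf]
        simp only
        rw [h]
  exact ⟨f, assemble_union idx hmono fun p _ => key (idx p)⟩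

end Pool.Agent.H246
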