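import Mathlib
import Pool.Agent.Helper743.Oracle
import Pool.Agent.H246.Defs

set_option autoImplicit false

/-! Definitions for the embedding through a fixed generic tree. -/

namespace Pool.Agent.H246

open Pool.Agent.Helper743

/-- `x` and `y` agree below `k` -/
def Agr (k : ℕ) (x y : ℕ → Bool) : Prop := ∀ i < k, x i = y i

/-- the value at place `a` of a column which starts with the list `l` and continues with the
function attached to the reference `r` (with zeros if there is no reference) -/
def rv {I : Type} (l : List ℕ) (r : Option I) (g : I → ℕ → ℕ) (a : ℕ) : ℕ :=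
  (l[a]?).getD (match r with | none => 0 | some i => g i a)

/-- the family `g` follows the rules `(c, e)` in the columns below `N` -/
def Follows {I : Type} (c : I → ℕ → List ℕ) (e : I → ℕ → Option I) (N : ℕ)
    (g : I → ℕ → ℕ) : Prop :=
  ∀ i n a, n < N → g i (Nat.pair n a) = rv (c i n) (e i n) g a

open Classical in
/-- The family of functions with columns given by `c` and `e` on the set `K`, and by `f` off `K`. -/
noncomputable def G {I : Type} (K : Set I) (c : I → ℕ → List ℕ) (e : I → ℕ → Option I)
    (f : I → ℕ → ℕ) (p : I) (j : ℕ) : ℕ :=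
  if p ∈ K then
    match (c p j.unpair.1)[j.unpair.2]? with
    | some a => a
    | none => match e p j.unpair.1 with
      | none => 0
      | some q => if _h : j.unpair.2 < j then G K c e f q j.unpair.2 else 0
  else f p j
termination_by j

/-- A Cantor scheme of columns: `C x n` is the list at the beginning of column `n` attached to the
point `x`; below `h k` it depends only on the first `k` values of `x`; the columns `h k` are
special: they are left for the references. At each level `k` the first `k` functionals are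
treated, for all finite configurations of points with different restrictions to `k`. -/
structure Tree (ev : ℕ → List ℕ → ℕ → Option ℕ) (h : ℕ → ℕ) (C : (ℕ → Bool) → ℕ → List ℕ) :
    Prop where
  pos : 0 < h 0
  step : ∀ k, h k + 1 < h (k + 1)
  agr : ∀ k x y, Agr k x y → ∀ n < h k, C x n = C y n
  sp : ∀ k x, C x (h k) = []
  bit : ∀ k x, C x (h k + 1) = [if x k = true then 1 else 0]
  split : ∀ k a, a < k → ∀ (I : Type) (x : I → ℕ → Bool),
    (∀ i i', Agr k (x i) (x i') → i = i') →
    ∀ e : I → ℕ → Option I, (∀ i n, n ∉ Set.range h → e i n = none) →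
    ∀ R R' : List I, R.length ≤ k → R'.length ≤ k →
    (∃ m v v', v ≠ v' ∧ ∀ g, Follows (fun i => C (x i)) e (h k) g →
      Hal (ev a) (J g R) m v ∧ Hal (ev a) (J g R') m v') ∨
    (∀ g, Follows (fun i => C (x i)) e (h k) g →
      ∀ m v v', Hal (ev a) (J g R) m v → Hal (ev a) (J g R') m v' → v = v')
  diag : ∀ k a, a < k → ∀ (I : Type) (x : I → ℕ → Bool),
    (∀ i i', Agr k (x i) (x i') → i = i') →
    ∀ e : I → ℕ → Option I, (∀ i n, n ∉ Set.range h → e i n = none) →
    ∀ y : ℕ → Bool, (∀ i, ¬ Agr k y (x i)) →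
    ∀ R : List I, R.length ≤ k →
    ∀ g, Follows (fun i => C (x i)) e (h k) g →
    ∀ w : ℕ → ℕ, (∀ n < h k, ∀ b v, (C y n)[b]? = some v → w (Nat.pair n b) = v) →
    ¬ ∀ m, Hal (ev a) (J g R) m (w m)

/-- the level `k` separates a finite set containing `Q` which is closed under the references below
`h k`; moreover all points take the value `true` between `s` and `k` -/
def Good {P : Type} [PartialOrder P] (h : ℕ → ℕ) (x : P → ℕ → Bool) (e : P → ℕ → Option P)
    (Q : Finset P) (s k : ℕ) : Prop :=
  ∃ E : Finset P, Q ⊆ E ∧ (∀ p ∈ E, ∃ q ∈ Q, p ≤ q) ∧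
    (∀ p ∈ E, ∀ n < h k, ∀ b, e p n = some b → b ∈ E) ∧
    (∀ p ∈ E, ∀ q ∈ E, Agr k (x p) (x q) → p = q) ∧
    (∀ p ∈ E, ∃ i, s ≤ i ∧ i < k ∧ x p i = true)

/-- the invariant of the recursion: each `p ∈ S` has a point `x p`, references `e p` and a function
`f p` -/
structure Sys {P : Type} [PartialOrder P] (h : ℕ → ℕ) (C : (ℕ → Bool) → ℕ → List ℕ) (S : Set P)
    (x : P → ℕ → Bool) (e : P → ℕ → Option P) (f : P → ℕ → ℕ) : Prop where
  lt : ∀ p ∈ S, ∀ n q, e p n = some q → q < p
  sp : ∀ p ∈ S, ∀ n, n ∉ Set.range h → e p n = none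
  all : ∀ p ∈ S, ∀ q, q < p → ∃ n, e p n = some q
  val : ∀ p ∈ S, ∀ n a, f p (Nat.pair n a) = rv (C (x p) n) (e p n) f a
  good : ∀ Q : Finset P, (Q : Set P) ⊆ S → BddAbove (Q : Set P) → ∀ s, ∃ k ≥ s, Good h x e Q s k
  ind : ∀ Q : Finset P, (Q : Set P) ⊆ S → BddAbove (Q : Set P) → ∀ y ∈ S, (∀ q ∈ Q, ¬ y ≤ q) →
    ¬ RecT (Ora f (Q : Set P)) (f y)

/-- the dominating number: the least cardinality of a family of functions such that every function
is eventually bounded by a member of the family -/
noncomputable def domN : Cardinal.{0} :=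
  sInf {c | ∃ D : Set (ℕ → ℕ), (∀ f : ℕ → ℕ, ∃ g ∈ D, ∃ N, ∀ n, N ≤ n → f n ≤ g n) ∧
    c = Cardinal.mk D}

open Classical in
/-- the point with index `a` of the block with marker places `j` and parameter `θ` -/
noncomputable def pt (j : ℕ → ℕ) (θ : ℕ → Bool) (a : ℕ) (t : ℕ) : Bool :=
  decide (∃ i, a ≤ i ∧ (t = j i + a ∨ ∃ l < i, t = j i + i + 1 + l ∧ θ l = true))

end Pool.Agent.H246
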