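import Mathlib
import Pool.Agent.H246.TDefs

set_option autoImplicit false

/-! Basic facts on the family given by columns and references. -/

namespace Pool.Agent.H246

open Pool.Agent.Helper743

theorem G_of_not_mem {I : Type} (K : Set I) (c : I → ℕ → List ℕ) (e : I → ℕ → Option I)
    (f : I → ℕ → ℕ) {p : I} (hp : p ∉ K) : G K c e f p = f p := by
  funext j
  rw [G]
  simp [hp]

theorem G_val {I : Type} (K : Set I) (c : I → ℕ → List ℕ) (e : I → ℕ → Option I)
    (f : I → ℕ → ℕ) {p : I} (hp : p ∈ K) (he : e p 0 = none) (n a : ℕ) :
    G K c e f p (Nat.pair n a) = rv (c p n) (e p n) (G K c e f) a := by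
  rw [G]
  simp only [hp, if_true, Nat.unpair_pair]
  unfold rv
  cases h1 : (c p n)[a]? with
  | some v => simp
  | none =>
    cases h2 : e p n with
    | none => simp
    | some q =>
      have hn : n ≠ 0 := by
        rintro rfl
        rw [he] at h2
        cases h2
      have hlt : a < Nat.pair n a := by
        have := Nat.add_le_pair n a
        omega
      simp [hlt]

end Pool.Agent.H246
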