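import Mathlib
import Pool.Agent.H246.GFam
import Pool.Agent.H246.Search

set_option autoImplicit false

/-! Search below a finite configuration. -/

namespace Pool.Agent.H246

open Pool.Agent.Helper743

theorem bs2_pre_eq {P : Type} (g : P → ℕ → ℕ) (R X2 : List P) (z u : ℕ)
    (h : ∀ j < u, ∀ (a : ℕ) (p : P), (R ++ X2)[a]? = some p → g p j = W z a j) :
    pre (J g R) u = pre (WJ R.length z) u := by
  unfold pre
  apply List.map_congr_left
  intro t ht
  rw [List.mem_range] at ht
  unfold J WJ
  by_cases hb : t.unpair.1 < R.length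
  · rw [List.getElem?_eq_getElem hb, if_pos hb]
    simp only
    apply h _ (lt_of_le_of_lt (Nat.unpair_right_le t) ht)
    rw [List.getElem?_append_left hb, List.getElem?_eq_getElem hb]
  · rw [List.getElem?_eq_none (by omega), if_neg hb]

theorem bsearch2 {P : Type} (E M : Finset P) (hEM : Disjoint E M) (e : P → ℕ → Option P)
    (he0 : ∀ p ∈ M, e p 0 = none) (N : ℕ)
    (hcl : ∀ p ∈ M, ∀ n < N, ∀ b, e p n = some b → b ∈ E ∨ b ∈ M)
    (c : P → ℕ → List ℕ) (f : P → ℕ → ℕ)
    (R : List P) (hR : R.Nodup) (hRE : ∀ p ∈ R, p ∈ E ∨ p ∈ M)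
    (ev : List ℕ → ℕ → Option ℕ) (hev : IsFn ev) (ζ : ℕ → ℕ)
    (h1 : ∀ g : P → ℕ → ℕ, (∀ p ∈ E, g p = f p) →
      (∀ p ∈ M, ∀ n < N, ∀ a, g p (Nat.pair n a) = rv (c p n) (e p n) g a) →
      ∀ m v, Hal ev (J g R) m v → v = ζ m)
    (h2 : ∀ m, ∃ g : P → ℕ → ℕ, (∀ p ∈ E, g p = f p) ∧
      (∀ p ∈ M, ∀ n < N, ∀ a, g p (Nat.pair n a) = rv (c p n) (e p n) g a) ∧
      ∃ v, Hal ev (J g R) m v) :
    RecT (Ora f (E : Set P)) ζ := by
  classical
  have hpos : ∀ p ∈ M, ∀ n q, e p n = some q → ∀ i, i < Nat.pair n i := by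
    intro p hp n q hq i
    have hn : n ≠ 0 := by
      rintro rfl
      rw [he0 p hp] at hq
      exact absurd hq (by simp)
    have h := Nat.add_le_pair n i
    omega
  obtain ⟨X2, hX2n, hX2⟩ : ∃ X2 : List P, X2.Nodup ∧
      ∀ q, q ∈ X2 ↔ (q ∉ R ∧ (q ∈ E ∨ q ∈ M)) :=
    ⟨((E ∪ M).filter (fun q => q ∉ R)).toList, Finset.nodup_toList _, fun q => by
      simp only [Finset.mem_toList, Finset.mem_filter, Finset.mem_union]
      tauto⟩
  set X : List P := R ++ X2 with hX
  have hXn : X.Nodup := by
    rw [hX, List.nodup_append]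
    refine ⟨hR, hX2n, ?_⟩
    intro a ha b hb hab
    rw [hX2] at hb
    exact hb.1 (hab ▸ ha)
  have hXm : ∀ q, q ∈ X ↔ q ∈ E ∨ q ∈ M := by
    intro q
    rw [hX, List.mem_append, hX2]
    constructor
    · rintro (h | h)
      · exact hRE q h
      · exact h.2
    · intro h
      by_cases hq : q ∈ R
      · exact Or.inl hq
      · exact Or.inr ⟨hq, h⟩
  have hXinj : ∀ (a b : ℕ) (p : P), X[a]? = some p → X[b]? = some p → a = b := by
    intro a b p ha hb
    obtain ⟨ha', ha2⟩ := List.getElem?_eq_some_iff.1 ha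
    obtain ⟨hb', hb2⟩ := List.getElem?_eq_some_iff.1 hb
    exact (List.Nodup.getElem_inj_iff hXn).1 (ha2.trans hb2.symm)
  have hXidx : ∀ q ∈ X, X[X.idxOf q]? = some q := by
    intro q hq
    rw [List.getElem?_eq_getElem (List.idxOf_lt_length_iff.2 hq), List.getElem_idxOf]
  have hclosed : ∀ p ∈ M, ∀ n < N, ∀ q, e p n = some q → q ∈ X := by
    intro p hp n hn q hq
    rw [hXm]
    exact hcl p hp n hn q hq
  -- the rules
  obtain ⟨D, hD⟩ : ∃ D : List (ℕ × ℕ × List ℕ × Option ℕ), ∀ d, d ∈ D ↔
      ∃ a n p, X[a]? = some p ∧ p ∈ M ∧ n < N ∧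
        d = (a, n, c p n, (e p n).map (fun q => X.idxOf q)) := by
    have hfin : ({d : ℕ × ℕ × List ℕ × Option ℕ | ∃ a n p, X[a]? = some p ∧ p ∈ M ∧
        n < N ∧
        d = (a, n, c p n, (e p n).map (fun q => X.idxOf q))}).Finite := by
      have hbox : ((Set.Iio X.length) ×ˢ (Set.Iio N) : Set (ℕ × ℕ)).Finite :=
        (Set.finite_Iio _).prod (Set.finite_Iio _)
      apply (hbox.image (fun t : ℕ × ℕ => match X[t.1]? with
        | some p => (t.1, t.2, c p t.2, (e p t.2).map (fun q => X.idxOf q))
        | none => (0, 0, [], none))).subset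
      rintro d ⟨a, n, p, ha, hp, hn, rfl⟩
      refine ⟨(a, n), ⟨?_, ?_⟩, ?_⟩
      · exact (List.getElem?_eq_some_iff.1 ha).1
      · exact hn
      · simp only [ha]
    exact ⟨hfin.toFinset.toList, fun d => by simp⟩
  obtain ⟨A, hA⟩ : ∃ A : List ℕ, ∀ a, a ∈ A ↔ ∃ p ∈ E, X[a]? = some p := by
    refine ⟨(List.range X.length).filter (fun a => ∃ p ∈ E, X[a]? = some p), fun a => ?_⟩
    simp only [List.mem_filter, List.mem_range, decide_eq_true_eq, and_iff_right_iff_imp]
    rintro ⟨p, _, hp⟩
    exact (List.getElem?_eq_some_iff.1 hp).1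
  set h : ℕ → ℕ → ℕ := fun a => match X[a]? with
    | some p => f p
    | none => fun _ => 0 with hh
  apply search A h D ?_ ev hev.1 R.length ζ
  · -- h1
    intro z u hC m v hv
    set c' : P → ℕ → List ℕ := fun p n => if n < N then c p n else
      (List.range u).map (fun t => W z (X.idxOf p) (Nat.pair n t)) with hc'
    set e' : P → ℕ → Option P := fun p n => if n < N then e p n else none with he'
    have he'0 : ∀ p ∈ M, e' p 0 = none := by
      intro p hp
      simp only [he']
      split_ifs
      · exact he0 p hp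
      · rfl
    set g : P → ℕ → ℕ := G (M : Set P) c' e' f with hg
    have gE : ∀ p ∈ E, g p = f p := by
      intro p hp
      apply G_of_not_mem
      intro hpM
      exact Finset.disjoint_left.1 hEM hp (Finset.mem_coe.1 hpM)
    have gM : ∀ p ∈ M, ∀ n a, g p (Nat.pair n a) = rv (c' p n) (e' p n) g a := fun p hp n a =>
      G_val (M : Set P) c' e' f (Finset.mem_coe.2 hp) (he'0 p hp) n a
    have key : ∀ j < u, ∀ (a : ℕ) (p : P), X[a]? = some p → g p j = W z a j := by
      intro j
      induction j using Nat.strong_induction_on with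
      | _ j ih =>
        intro hj a p ha
        by_cases hp : p ∈ M
        · obtain ⟨n, i, rfl⟩ : ∃ n i, j = Nat.pair n i :=
            ⟨j.unpair.1, j.unpair.2, (Nat.pair_unpair j).symm⟩
          rw [gM p hp n i]
          by_cases hn : n < N
          · have hrule := hC.2 (a, n, c p n, (e p n).map (fun q => X.idxOf q))
              ((hD _).2 ⟨a, n, p, ha, hp, hn, rfl⟩) i hj
            simp only at hrule
            rw [hrule]
            have h1 : c' p n = c p n := by simp only [hc', if_pos hn]
            have h2 : e' p n = e p n := by simp only [he', if_pos hn]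
            rw [h1, h2]
            unfold rv
            congr 1
            cases hq : e p n with
            | none => rfl
            | some q =>
              simp only [Option.map_some]
              have hlt := hpos p hp n q hq i
              exact ih i hlt (hlt.trans hj) _ q (hXidx q (hclosed p hp n hn q hq))
          · have h1 : c' p n = (List.range u).map (fun t => W z (X.idxOf p) (Nat.pair n t)) := by
              simp only [hc', if_neg hn]
            have hi : i < u := lt_of_le_of_lt (Nat.right_le_pair n i) hj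
            have hidx : X.idxOf p = a := hXinj _ _ p (hXidx p (List.mem_of_getElem? ha)) ha
            unfold rv
            rw [h1, hidx]
            simp [hi]
        · have hpE : p ∈ E := by
            rcases (hXm p).1 (List.mem_of_getElem? ha) with h | h
            · exact h
            · exact absurd h hp
          rw [gE p hpE, hC.1 a ((hA a).2 ⟨p, hpE, ha⟩) j hj, hh]
          simp only [ha]
    have hpre := bs2_pre_eq g R X2 z u key
    refine h1 g gE ?_ m v ⟨u, by rw [hpre]; exact hv⟩
    intro p hp n hn a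
    rw [gM p hp n a]
    simp only [hc', he', if_pos hn]
  · -- h2
    intro m
    obtain ⟨g, gE, gM, v, u, hv⟩ := h2 m
    set H : ℕ → ℕ := fun t => match X[t.unpair.1]? with
      | some p => g p t.unpair.2
      | none => 0 with hH
    set z : ℕ := Encodable.encode ((List.range (Nat.pair X.length u)).map H) with hz
    have hW : ∀ a j, Nat.pair a j < Nat.pair X.length u → W z a j = H (Nat.pair a j) := by
      intro a j haj
      unfold W
      rw [hz, Encodable.encodek]
      simp [haj]
    have hlt : ∀ a j, a < X.length → j < u → Nat.pair a j < Nat.pair X.length u := by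
      intro a j ha hj
      exact (Nat.pair_lt_pair_left j ha).trans (Nat.pair_lt_pair_right _ hj)
    have key : ∀ j < u, ∀ (a : ℕ) (p : P), X[a]? = some p → g p j = W z a j := by
      intro j hj a p ha
      rw [hW a j (hlt a j (List.getElem?_eq_some_iff.1 ha).1 hj)]
      simp only [hH, Nat.unpair_pair, ha]
    refine ⟨z, u, ⟨?_, ?_⟩, ?_⟩
    · intro a ha j hj
      obtain ⟨p, hpE, hp⟩ := (hA a).1 ha
      rw [← key j hj a p hp, gE p hpE, hh]
      simp only [hp]
    · intro d hd i hi
      obtain ⟨a, n, p, ha, hp, hn, rfl⟩ := (hD d).1 hd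
      simp only at hi ⊢
      rw [← key _ hi a p ha, gM p hp n hn i]
      unfold rv
      congr 1
      cases hq : e p n with
      | none => rfl
      | some q =>
        simp only [Option.map_some]
        have hlt' := hpos p hp n q hq i
        exact key i (hlt'.trans hi) _ q (hXidx q (hclosed p hp n hn q hq))
    · rw [← bs2_pre_eq g R X2 z u key, hv]
      rfl
  · -- hA
    intro a ha
    obtain ⟨p, hpE, hp⟩ := (hA a).1 ha
    have : h a = f p := by
      simp only [hh, hp]
    rw [this]
    exact Nat.RecursiveIn.oracle _ ⟨p, hpE, rfl⟩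

end Pool.Agent.H246
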