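import Mathlib
import Pool.Agent.H246.BSearch2
import Pool.Agent.H246.Basic

set_option autoImplicit false

/-! Two versions do not both compute. -/

namespace Pool.Agent.H246

open Pool.Agent.Helper743

section killaux

variable {P : Type}

/-- the points of both versions -/
abbrev KI (E M : Finset P) : Type := {i : P × Bool // (i.1 ∈ E ∧ i.2 = false) ∨ i.1 ∈ M}

/-- the values of both versions -/
def gI {α : Type} (E M : Finset P) (F F' : P → α) (i : KI E M) : α :=
  if i.1.2 = true then F' i.1.1 else F i.1.1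

open Classical in
/-- the place of a reference in the version `s` -/
noncomputable def emb (E M : Finset P) (s : Bool) (b : P) : Option (KI E M) :=
  if hE : b ∈ E then some ⟨(b, false), Or.inl ⟨hE, rfl⟩⟩
  else if hM : b ∈ M then some ⟨(b, s), Or.inr hM⟩ else none

/-- the references of both versions -/
noncomputable def eI (E M : Finset P) (N : ℕ) (e : P → ℕ → Option P) (i : KI E M) (n : ℕ) :
    Option (KI E M) :=
  if n < N then (e i.1.1 n).bind (emb E M i.1.2) else none

theorem J_map {I : Type} (φ : I → P) (L : List I) (F : P → ℕ → ℕ) :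
    J F (L.map φ) = J (fun i => F (φ i)) L := by
  funext t
  unfold J
  rw [List.getElem?_map]
  cases L[t.unpair.1]? <;> rfl

theorem J_congr {I : Type} (L : List I) (g g' : I → ℕ → ℕ) (h : ∀ i ∈ L, g i = g' i) :
    J g L = J g' L := by
  funext t
  unfold J
  cases hL : L[t.unpair.1]? with
  | none => rfl
  | some q => simp only [h q (List.mem_of_getElem? hL)]

theorem lift_list (E M : Finset P) (s : Bool) (R : List P) (hRE : ∀ p ∈ R, p ∈ E ∨ p ∈ M) :
    ∃ L : List (KI E M), L.map (fun i => i.1.1) = R ∧ ∀ i ∈ L, i.1.1 ∈ E ∨ i.1.2 = s := by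
  induction R with
  | nil => exact ⟨[], rfl, by simp⟩
  | cons p R ih =>
    obtain ⟨L, h1, h2⟩ := ih fun q hq => hRE q (List.mem_cons_of_mem _ hq)
    rcases hRE p List.mem_cons_self with hp | hp
    · refine ⟨⟨(p, false), Or.inl ⟨hp, rfl⟩⟩ :: L, by rw [List.map_cons, h1], ?_⟩
      intro i hi
      rcases List.mem_cons.1 hi with rfl | hi
      · exact Or.inl hp
      · exact h2 i hi
    · refine ⟨⟨(p, s), Or.inr hp⟩ :: L, by rw [List.map_cons, h1], ?_⟩
      intro i hi
      rcases List.mem_cons.1 hi with rfl | hi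
      · exact Or.inr rfl
      · exact h2 i hi

theorem gI_eq {α : Type} (E M : Finset P) (F F' : P → α) (h : ∀ p ∈ E, F' p = F p) (i : KI E M)
    (s : Bool) (hi : i.1.1 ∈ E ∨ i.1.2 = s) :
    gI E M F F' i = if s = true then F' i.1.1 else F i.1.1 := by
  unfold gI
  rcases hi with hi | hi
  · rw [h _ hi]
    split_ifs <;> rfl
  · rw [hi]

theorem J_lift (E M : Finset P) (F F' : P → ℕ → ℕ) (h : ∀ p ∈ E, F' p = F p) (s : Bool)
    (R : List P) (L : List (KI E M)) (h1 : L.map (fun i => i.1.1) = R)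
    (h2 : ∀ i ∈ L, i.1.1 ∈ E ∨ i.1.2 = s) :
    J (gI E M F F') L = J (if s = true then F' else F) R := by
  rw [← h1, J_map]
  refine J_congr _ _ _ fun i hi => ?_
  rw [gI_eq E M F F' h i s (h2 i hi)]
  split_ifs <;> rfl

theorem rv_emb (E M : Finset P) (F F' : P → ℕ → ℕ) (h : ∀ p ∈ E, F' p = F p) (s : Bool)
    (l : List ℕ) (r : Option P) (hr : ∀ b, r = some b → b ∈ E ∨ b ∈ M) (a : ℕ) :
    rv l (r.bind (emb E M s)) (gI E M F F') a = rv l r (if s = true then F' else F) a := by
  classical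
  cases r with
  | none => rfl
  | some b =>
    have hb := hr b rfl
    have key : ∃ i : KI E M, emb E M s b = some i ∧ i.1.1 = b ∧ (i.1.1 ∈ E ∨ i.1.2 = s) := by
      unfold emb
      by_cases hE : b ∈ E
      · rw [dif_pos hE]
        exact ⟨_, rfl, rfl, Or.inl hE⟩
      · have hM : b ∈ M := hb.resolve_left hE
        rw [dif_neg hE, dif_pos hM]
        exact ⟨_, rfl, rfl, Or.inr rfl⟩
    obtain ⟨i, k1, k2, k3⟩ := key
    unfold rv
    rw [Option.bind_some, k1]
    show (l[a]?).getD (gI E M F F' i a) = (l[a]?).getD ((if s = true then F' else F) b a)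
    rw [gI_eq E M F F' h i s k3, k2]
    split_ifs <;> rfl

end killaux

theorem kill {ev : ℕ → List ℕ → ℕ → Option ℕ} {h : ℕ → ℕ} {C : (ℕ → Bool) → ℕ → List ℕ}
    (hev : ∀ a, IsFn (ev a)) (hT : Tree ev h C) {P : Type} (k a : ℕ) (ha : a < k)
    (E M : Finset P) (hEM : Disjoint E M) (e : P → ℕ → Option P)
    (he : ∀ p, p ∈ E ∨ p ∈ M → ∀ n, n ∉ Set.range h → e p n = none)
    (hclE : ∀ p ∈ E, ∀ n < h k, ∀ b, e p n = some b → b ∈ E)
    (hclM : ∀ p ∈ M, ∀ n < h k, ∀ b, e p n = some b → b ∈ E ∨ b ∈ M)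
    (x x' : P → ℕ → Bool) (hxx' : ∀ p ∈ E, x' p = x p)
    (hx : ∀ p q, (p ∈ E ∨ p ∈ M) → (q ∈ E ∨ q ∈ M) → Agr k (x p) (x q) → p = q)
    (hx' : ∀ p q, (p ∈ E ∨ p ∈ M) → (q ∈ E ∨ q ∈ M) → Agr k (x' p) (x' q) → p = q)
    (hd : ∀ p ∈ M, ∀ q ∈ M, ¬ Agr k (x p) (x' q))
    (f f' : P → ℕ → ℕ) (hff' : ∀ p ∈ E, f' p = f p)
    (hf : ∀ p, p ∈ E ∨ p ∈ M → ∀ n < h k, ∀ a, f p (Nat.pair n a) = rv (C (x p) n) (e p n) f a)
    (hf' : ∀ p, p ∈ E ∨ p ∈ M → ∀ n < h k, ∀ a,
      f' p (Nat.pair n a) = rv (C (x' p) n) (e p n) f' a)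
    (R : List P) (hR : R.Nodup) (hRE : ∀ p ∈ R, p ∈ E ∨ p ∈ M) (hRk : R.length ≤ k)
    (ζ : ℕ → ℕ) (h1 : ∀ m, Hal (ev a) (J f R) m (ζ m)) (h2 : ∀ m, Hal (ev a) (J f' R) m (ζ m)) :
    RecT (Ora f (E : Set P)) ζ := by
  classical
  have hh : ∀ j, 0 < h j := by
    intro j
    cases j with
    | zero => exact hT.pos
    | succ j => exact lt_of_le_of_lt (Nat.zero_le _) (hT.step j)
  have h0 : (0 : ℕ) ∉ Set.range h := by
    rintro ⟨j, hj⟩
    have := hh j
    omega
  -- the points
  have hsep : ∀ i i' : KI E M, Agr k (gI E M x x' i) (gI E M x x' i') → i = i' := by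
    rintro ⟨⟨p, s⟩, hi⟩ ⟨⟨q, s'⟩, hi'⟩ hA
    have hp : p ∈ E ∨ p ∈ M := hi.imp And.left id
    have hq : q ∈ E ∨ q ∈ M := hi'.imp And.left id
    cases s <;> cases s'
    · have h3 : p = q := hx p q hp hq hA
      subst h3
      rfl
    · exfalso
      have hq' : q ∈ M := by
        rcases hi' with hi' | hi'
        · exact absurd hi'.2 (by simp)
        · exact hi'
      rcases hp with hp | hp
      · have hA' : Agr k (x' p) (x' q) := by rw [hxx' p hp]; exact hA
        have h3 := hx' p q (Or.inl hp) hq hA'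
        exact Finset.disjoint_left.1 hEM hp (h3 ▸ hq')
      · exact hd p hp q hq' hA
    · exfalso
      have hp' : p ∈ M := by
        rcases hi with hi | hi
        · exact absurd hi.2 (by simp)
        · exact hi
      have hA2 : Agr k (x q) (x' p) := fun i hi => (hA i hi).symm
      rcases hq with hq | hq
      · have hA' : Agr k (x' q) (x' p) := by rw [hxx' q hq]; exact hA2
        have h3 := hx' q p (Or.inl hq) hp hA'
        exact Finset.disjoint_left.1 hEM hq (h3 ▸ hp')
      · exact hd q hq p hp' hA2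
    · have h3 : p = q := hx' p q hp hq hA
      subst h3
      rfl
  have heI : ∀ (i : KI E M) n, n ∉ Set.range h → eI E M (h k) e i n = none := by
    intro i n hn
    unfold eI
    rw [he i.1.1 (i.2.imp And.left id) n hn]
    split_ifs <;> rfl
  -- the two versions follow the rules
  have hfol : ∀ F F' : P → ℕ → ℕ, (∀ p ∈ E, F' p = F p) →
      (∀ p, p ∈ E ∨ p ∈ M → ∀ n < h k, ∀ a, F p (Nat.pair n a) = rv (C (x p) n) (e p n) F a) →
      (∀ p, p ∈ E ∨ p ∈ M → ∀ n < h k, ∀ a,
        F' p (Nat.pair n a) = rv (C (x' p) n) (e p n) F' a) →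
      Follows (fun i : KI E M => C (gI E M x x' i)) (eI E M (h k) e) (h k) (gI E M F F') := by
    intro F F' hFF hF hF'
    rintro ⟨⟨p, s⟩, hi⟩ n a hn
    have hp : p ∈ E ∨ p ∈ M := hi.imp And.left id
    have hr : ∀ b, e p n = some b → b ∈ E ∨ b ∈ M := by
      intro b hb
      rcases hp with hp | hp
      · exact Or.inl (hclE p hp n hn b hb)
      · exact hclM p hp n hn b hb
    have e1 : eI E M (h k) e ⟨(p, s), hi⟩ n = (e p n).bind (emb E M s) := if_pos hn
    rw [e1]
    show _ = rv (C (gI E M x x' ⟨(p, s), hi⟩) n) ((e p n).bind (emb E M s)) (gI E M F F') a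
    rw [rv_emb E M F F' hFF s _ _ hr]
    cases s
    · exact hF p hp n hn a
    · exact hF' p hp n hn a
  obtain ⟨L1, p1, p2⟩ := lift_list E M false R hRE
  obtain ⟨L2, q1, q2⟩ := lift_list E M true R hRE
  have len1 : L1.length ≤ k := by
    rw [← List.length_map (f := fun i : KI E M => i.1.1), p1]
    exact hRk
  have len2 : L2.length ≤ k := by
    rw [← List.length_map (f := fun i : KI E M => i.1.1), q1]
    exact hRk
  have J1 : ∀ F F' : P → ℕ → ℕ, (∀ p ∈ E, F' p = F p) → J (gI E M F F') L1 = J F R := by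
    intro F F' hFF
    exact J_lift E M F F' hFF false R L1 p1 p2
  have J2 : ∀ F F' : P → ℕ → ℕ, (∀ p ∈ E, F' p = F p) → J (gI E M F F') L2 = J F' R := by
    intro F F' hFF
    exact J_lift E M F F' hFF true R L2 q1 q2
  rcases hT.split k a ha (KI E M) (gI E M x x') hsep (eI E M (h k) e) heI L1 L2 len1 len2 with
    ⟨m, v, v', hvv, hg⟩ | hg
  · exfalso
    obtain ⟨a1, a2⟩ := hg _ (hfol f f' hff' hf hf')
    rw [J1 f f' hff'] at a1
    rw [J2 f f' hff'] at a2
    exact hvv ((Hal.unique (hev a) a1 (h1 m)).trans (Hal.unique (hev a) a2 (h2 m)).symm)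
  · refine bsearch2 E M hEM e (fun p hp => he p (Or.inr hp) 0 h0) (h k) hclM
      (fun p n => C (x p) n) f R hR hRE (ev a) (hev a) ζ ?_ ?_
    · intro g hgE hgM m v hv
      have hFF : ∀ p ∈ E, f' p = g p := fun p hp => by rw [hff' p hp, hgE p hp]
      have hF : ∀ p, p ∈ E ∨ p ∈ M → ∀ n < h k, ∀ a,
          g p (Nat.pair n a) = rv (C (x p) n) (e p n) g a := by
        intro p hp n hn a
        rcases hp with hp | hp
        · rw [hgE p hp, hf p (Or.inl hp) n hn a]
          unfold rv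
          cases hb : e p n with
          | none => rfl
          | some b =>
            have hbE := hclE p hp n hn b hb
            simp only [hgE b hbE]
        · exact hgM p hp n hn a
      have h3 := hg _ (hfol g f' hFF hF hf') m v (ζ m)
      rw [J1 g f' hFF, J2 g f' hFF] at h3
      exact h3 hv (h2 m)
    · intro m
      exact ⟨f, fun p _ => rfl, fun p hp n hn a => hf p (Or.inr hp) n hn a, ζ m, h1 m⟩

end Pool.Agent.H246
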