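import Mathlib
import Pool.Agent.H246.TDefs

set_option autoImplicit false

/-! The dominating number; the points of a block. -/

namespace Pool.Agent.H246

open Pool.Agent.Helper743

theorem domN_nonempty : {c : Cardinal.{0} | ∃ D : Set (ℕ → ℕ), (∀ f : ℕ → ℕ, ∃ g ∈ D, ∃ N, ∀ n, N ≤ n → f n ≤ g n) ∧
    c = Cardinal.mk D}.Nonempty :=
  ⟨_, Set.univ, fun f => ⟨f, Set.mem_univ f, 0, fun _ _ => le_rfl⟩, rfl⟩

theorem aleph0_lt_domN : Cardinal.aleph0 < domN := by
  obtain ⟨D, hD, hc⟩ : domN ∈ {c : Cardinal.{0} | ∃ D : Set (ℕ → ℕ),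
      (∀ f : ℕ → ℕ, ∃ g ∈ D, ∃ N, ∀ n, N ≤ n → f n ≤ g n) ∧ c = Cardinal.mk D} :=
    csInf_mem domN_nonempty
  rw [hc]
  by_contra hcon
  have hcount : D.Countable := (Cardinal.le_aleph0_iff_set_countable).mp (not_lt.mp hcon)
  have hne : D.Nonempty := by
    obtain ⟨g, hg, -⟩ := hD (fun _ => 0)
    exact ⟨g, hg⟩
  obtain ⟨g, hg⟩ := hcount.exists_eq_range hne
  obtain ⟨g', hg', N, hN⟩ := hD (fun n => 1 + ∑ i ∈ Finset.range (n + 1), g i n)
  rw [hg] at hg'
  obtain ⟨i, rfl⟩ := hg'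
  have h1 := hN (max N i) (le_max_left _ _)
  have h2 : g i (max N i) ≤ ∑ k ∈ Finset.range (max N i + 1), g k (max N i) :=
    Finset.single_le_sum (f := fun k => g k (max N i)) (fun _ _ => Nat.zero_le _)
      (Finset.mem_range.mpr (by have := le_max_right N i; omega))
  omega

theorem domN_le : domN ≤ Cardinal.continuum := by
  have h : domN ≤ Cardinal.mk (Set.univ : Set (ℕ → ℕ)) :=
    csInf_le' ⟨Set.univ, fun f => ⟨f, Set.mem_univ f, 0, fun _ _ => le_rfl⟩, rfl⟩
  refine h.trans (le_of_eq ?_)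
  rw [Cardinal.mk_univ, ← Cardinal.power_def, Cardinal.mk_nat, Cardinal.aleph0_power_aleph0]

/-- a family of less than `domN` functions does not eventually bound all functions -/
theorem key_domN {ι : Type} (hι : Cardinal.mk ι < domN) (G' : ι → ℕ → ℕ) :
    ∃ y : ℕ → ℕ, ∀ a, ∀ N, ∃ n ≥ N, G' a n < y n := by
  by_contra hcon
  push Not at hcon
  have h : domN ≤ Cardinal.mk (Set.range G') := by
    refine csInf_le' ⟨Set.range G', fun f => ?_, rfl⟩
    obtain ⟨a, N, h⟩ := hcon f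
    exact ⟨G' a, ⟨a, rfl⟩, N, h⟩
  exact absurd (h.trans Cardinal.mk_range_le) (not_le.mpr hι)

theorem escape {ι : Type} (hι : Cardinal.mk ι < domN) (g : ι → ℕ → ℕ) (w : ℕ → ℕ) :
    ∃ j : ℕ → ℕ, (∀ i, j i + w i < j (i + 1)) ∧
      ∀ a : ι, ∀ i₀, ∃ i ≥ i₀, g a (j i + w i) ≤ j (i + 1) := by
  -- sums are monotone
  have hmono : ∀ u : ℕ → ℕ, Monotone (fun n => ∑ i ∈ Finset.range (n + 1), u i) := by
    intro u m n hmn
    exact Finset.sum_le_sum_of_subset (Finset.range_mono (by omega))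
  have hle : ∀ (u : ℕ → ℕ) (n : ℕ), u n ≤ ∑ i ∈ Finset.range (n + 1), u i := fun u n =>
    Finset.single_le_sum (f := u) (fun _ _ => Nat.zero_le _) (Finset.mem_range.mpr (by omega))
  obtain ⟨W, hW⟩ : ∃ W : ℕ → ℕ, W = fun n => ∑ i ∈ Finset.range (n + 1), w i := ⟨_, rfl⟩
  have hWm : Monotone W := by rw [hW]; exact hmono w
  have hWl : ∀ n, w n ≤ W n := by rw [hW]; exact hle w
  obtain ⟨gm, hgm⟩ : ∃ gm : ι → ℕ → ℕ, gm = fun a n => ∑ i ∈ Finset.range (n + 1), g a i :=
    ⟨_, rfl⟩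
  have hgmm : ∀ a, Monotone (gm a) := by rw [hgm]; exact fun a => hmono (g a)
  have hgml : ∀ a n, g a n ≤ gm a n := by rw [hgm]; exact fun a => hle (g a)
  obtain ⟨y0, hy0⟩ := key_domN hι (fun a m => gm a (gm a (m + W m) + W (m + 1)))
  obtain ⟨y, hy⟩ : ∃ y : ℕ → ℕ, y = fun n => 1 + n + W n + ∑ i ∈ Finset.range (n + 1), y0 i :=
    ⟨_, rfl⟩
  have hym : Monotone y := by
    intro m n hmn
    have h1 := hWm hmn
    have h2 := hmono y0 hmn
    simp only [hy]
    simp only at h2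
    omega
  have hyl : ∀ n, y0 n ≤ y n := fun n => by
    have := hle y0 n
    simp only [hy]
    omega
  have hyw : ∀ n, n + W n < y n := fun n => by
    simp only [hy]
    omega
  obtain ⟨j, hj0, hjs⟩ : ∃ j : ℕ → ℕ, j 0 = 0 ∧ ∀ i, j (i + 1) = y (j i) :=
    ⟨fun i => Nat.rec 0 (fun _ m => y m) i, rfl, fun _ => rfl⟩
  have hjlt : ∀ i, j i + W (j i) < j (i + 1) := fun i => by rw [hjs]; exact hyw _
  have hjm : StrictMono j := strictMono_nat_of_lt_succ fun i => by
    have := hjlt i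
    omega
  have hji : ∀ i, i ≤ j i := fun i => hjm.le_apply
  refine ⟨j, fun i => ?_, fun a i₀ => ?_⟩
  · have h1 := hjlt i
    have h2 := hWl i
    have h3 := hWm (hji i)
    omega
  · by_contra hcon
    push Not at hcon
    obtain ⟨n, hn, hHn⟩ := hy0 a (j i₀)
    -- the largest index
    obtain ⟨i, hi0, hi1, hi2⟩ : ∃ i ≥ i₀, j i ≤ n ∧ n < j (i + 1) := by
      have hex : ∃ i, n < j (i + 1) := ⟨n, by have := hji (n + 1); omega⟩
      classical
      have hs := Nat.find_spec hex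
      refine ⟨Nat.find hex, ?_, ?_, hs⟩
      · by_contra hlt
        have h1 : Nat.find hex + 1 ≤ i₀ := by omega
        have h2 := hjm.monotone h1
        omega
      · rcases Nat.eq_zero_or_pos (Nat.find hex) with h0 | h0
        · rw [h0, hj0]; exact Nat.zero_le _
        · have h1 := Nat.find_min hex (m := Nat.find hex - 1) (by omega)
          rw [Nat.sub_add_cancel h0] at h1
          omega
    have hin : i ≤ n := (hji i).trans hi1
    have a1 : y n ≤ y (j (i + 1)) := hym hi2.le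
    have a2 : j (i + 1 + 1) < g a (j (i + 1) + w (i + 1)) := hcon (i + 1) (by omega)
    have a3 : g a (j (i + 1) + w (i + 1)) ≤ gm a (j (i + 1) + w (i + 1)) := hgml _ _
    have a4 : j (i + 1) < g a (j i + w i) := hcon i hi0
    have a5 : g a (j i + w i) ≤ gm a (j i + w i) := hgml _ _
    have a6 : gm a (j i + w i) ≤ gm a (n + W n) := by
      apply hgmm
      have := hWl i
      have := hWm hin
      omega
    have a7 : gm a (j (i + 1) + w (i + 1)) ≤ gm a (gm a (n + W n) + W (n + 1)) := by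
      apply hgmm
      have h1 := hWl (i + 1)
      have h2 := hWm (show i + 1 ≤ n + 1 by omega)
      omega
    have a8 := hjs (i + 1)
    have a9 := hyl n
    omega

theorem pt_true (j : ℕ → ℕ) (θ : ℕ → Bool) (a i : ℕ) (ha : a ≤ i) : pt j θ a (j i + a) = true := by
  simp only [pt, decide_eq_true_eq]
  exact ⟨i, ha, Or.inl rfl⟩

theorem j_step {j : ℕ → ℕ} (hj : ∀ i, j i + (2 * i + 1) < j (i + 1)) {i i' : ℕ} (h : i < i') :
    j i + (2 * i + 1) < j i' := by
  have hm : StrictMono j := strictMono_nat_of_lt_succ fun n => by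
    have := hj n
    omega
  exact (hj i).trans_le (hm.monotone h)

theorem pt_iff {j : ℕ → ℕ} (hj : ∀ i, j i + (2 * i + 1) < j (i + 1)) (θ : ℕ → Bool) {a i t : ℕ}
    (h1 : j i ≤ t) (h2 : t < j (i + 1)) : pt j θ a t = true ↔
      a ≤ i ∧ (t = j i + a ∨ ∃ l < i, t = j i + i + 1 + l ∧ θ l = true) := by
  simp only [pt, decide_eq_true_eq]
  constructor
  · rintro ⟨i', ha, ht⟩
    have h3 : j i' ≤ t ∧ t < j i' + (2 * i' + 1) := by
      rcases ht with ht | ⟨l, hl, ht, _⟩ <;> omega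
    have h4 : i' = i := by
      rcases lt_trichotomy i' i with h | h | h
      · have := j_step hj h
        omega
      · exact h
      · have h5 : j (i + 1) ≤ j i' := by
          rcases Nat.eq_or_lt_of_le (show i + 1 ≤ i' from h) with h6 | h6
          · exact le_of_eq (congrArg j h6)
          · have := j_step hj h6
            omega
        omega
    rw [h4] at ha ht
    exact ⟨ha, ht⟩
  · rintro ⟨ha, ht⟩
    exact ⟨i, ha, ht⟩

theorem pt_false (j : ℕ → ℕ) (hj : ∀ i, j i + (2 * i + 1) < j (i + 1)) (θ : ℕ → Bool) (a i t : ℕ)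
    (h1 : j i + (2 * i + 1) ≤ t) (h2 : t < j (i + 1)) : pt j θ a t = false := by
  rw [Bool.eq_false_iff]
  intro h
  rw [pt_iff hj θ (show j i ≤ t by omega) h2] at h
  obtain ⟨ha, ht | ⟨l, hl, ht, _⟩⟩ := h <;> omega

theorem pt_inj (j : ℕ → ℕ) (hj : ∀ i, j i + (2 * i + 1) < j (i + 1)) (θ θ' : ℕ → Bool)
    (a a' i k : ℕ) (ha : a ≤ i) (ha' : a' ≤ i) (hk : j i + (2 * i + 1) ≤ k)
    (h : Agr k (pt j θ a) (pt j θ' a')) : a = a' ∧ ∀ l < i, θ l = θ' l := by
  have hs := hj i
  have e1 : pt j θ' a' (j i + a) = true := by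
    rw [← h (j i + a) (by omega)]
    exact pt_true j θ a i ha
  rw [pt_iff hj θ' (show j i ≤ j i + a by omega) (by omega)] at e1
  refine ⟨?_, ?_⟩
  · obtain ⟨_, h1 | ⟨l, hl, h1, _⟩⟩ := e1 <;> omega
  · intro l hl
    have h2 := h (j i + i + 1 + l) (by omega)
    have h3 := pt_iff hj θ (a := a) (i := i) (t := j i + i + 1 + l) (by omega) (by omega)
    have h4 := pt_iff hj θ' (a := a') (i := i) (t := j i + i + 1 + l) (by omega) (by omega)
    have h5 : pt j θ a (j i + i + 1 + l) = true ↔ θ l = true := by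
      rw [h3]
      constructor
      · rintro ⟨_, h6 | ⟨l', hl', h6, h7⟩⟩
        · omega
        · have : l' = l := by omega
          rwa [this] at h7
      · intro h6
        exact ⟨ha, Or.inr ⟨l, hl, rfl, h6⟩⟩
    have h6 : pt j θ' a' (j i + i + 1 + l) = true ↔ θ' l = true := by
      rw [h4]
      constructor
      · rintro ⟨_, h6 | ⟨l', hl', h6, h7⟩⟩
        · omega
        · have : l' = l := by omega
          rwa [this] at h7
      · intro h6
        exact ⟨ha', Or.inr ⟨l, hl, rfl, h6⟩⟩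
    rw [Bool.eq_iff_iff, ← h5, ← h6, h2]

end Pool.Agent.H246
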