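import Mathlib
import Pool.Agent.H246.Escape

set_option autoImplicit false

/-! Good levels for a block. -/

namespace Pool.Agent.H246

open Pool.Agent.Helper743

private theorem level_fin {A : Type} (hA : Cardinal.mk A < domN) :
    Cardinal.mk (Finset A) < domN := by
  rcases finite_or_infinite A with h | h
  · exact (Cardinal.lt_aleph0_of_finite _).trans aleph0_lt_domN
  · rw [Cardinal.mk_finset_of_infinite]; exact hA

theorem level {P : Type} [PartialOrder P] (hloc : ∀ x : P, (Set.Iio x).Countable) (h : ℕ → ℕ)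
    (S K : Set P) (hS : IsLowerSet S) (hd : Disjoint S K) (hK : K.Countable)
    (x : P → ℕ → Bool) (e : P → ℕ → Option P)
    (good : ∀ Q : Finset P, (Q : Set P) ⊆ S → BddAbove (Q : Set P) →
      ∀ s, ∃ k ≥ s, Good h x e Q s k)
    (hS2 : Cardinal.mk {q : P | q ∈ S ∧ ∃ k ∈ K, q ∈ Nb k} < domN)
    (u : ℕ → Option P) :
    ∃ j : ℕ → ℕ, (∀ i, j i + (2 * i + 1) < j (i + 1)) ∧
      ∀ Q L : Finset P, (Q : Set P) ⊆ S → (L : Set P) ⊆ K → L.Nonempty →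
        BddAbove ((Q : Set P) ∪ (L : Set P)) → ∀ i₀, ∃ i ≥ i₀, ∃ k, j i + (2 * i + 1) ≤ k ∧
          k ≤ j (i + 1) ∧ ∃ E : Finset P, Q ⊆ E ∧ (E : Set P) ⊆ S ∧
            (∀ p ∈ E, ∃ q, (q ∈ Q ∨ q ∈ L) ∧ p ≤ q) ∧
            (∀ n ≤ i, ∀ b ∈ S, u n = some b → (∃ l ∈ L, b ≤ l) → b ∈ E) ∧
            (∀ p ∈ E, ∀ n < h k, ∀ b, e p n = some b → b ∈ E) ∧
            (∀ p ∈ E, ∀ q ∈ E, Agr k (x p) (x q) → p = q) ∧
            (∀ p ∈ E, ∃ t, j i + (2 * i + 1) ≤ t ∧ t < k ∧ x p t = true) := by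
  classical
  have h0 := aleph0_lt_domN
  obtain ⟨A, hA⟩ : ∃ A : Set P, A = {q : P | q ∈ S ∧ ∃ k ∈ K, q ∈ Nb k} := ⟨_, rfl⟩
  obtain ⟨B, hB⟩ : ∃ B : Set P, B = {q : P | ∃ κ ∈ K, q < κ} := ⟨_, rfl⟩
  rw [← hA] at hS2
  have hBc : B.Countable := by
    have h1 : B = ⋃ κ ∈ K, Set.Iio κ := by ext q; simp [hB]
    rw [h1]
    exact hK.biUnion fun κ _ => hloc κ
  have hRel : Cardinal.mk ↥(A ∪ B) < domN :=
    (Cardinal.mk_union_le A B).trans_lt (Cardinal.add_lt_of_lt h0.le hS2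
      ((Cardinal.le_aleph0_iff_set_countable.mpr hBc).trans_lt h0))
  have hK' : Cardinal.mk ↥K < domN := (Cardinal.le_aleph0_iff_set_countable.mpr hK).trans_lt h0
  have hι : Cardinal.mk (Finset ↥(A ∪ B) × Finset ↥K) < domN := by
    rw [← Cardinal.mul_def]
    exact Cardinal.mul_lt_of_lt h0.le (level_fin hRel) (level_fin hK')
  obtain ⟨W, hW⟩ : ∃ W : Finset P → Finset P → ℕ → Finset P, ∀ Q L m, ∀ p, p ∈ W Q L m ↔
      p ∈ Q ∨ (p ∈ S ∧ (∃ n ≤ m, u n = some p) ∧ ∃ l ∈ L, p ≤ l) := by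
    refine ⟨fun Q L m => Q ∪ ((Finset.range (m + 1)).biUnion fun n => (u n).toFinset).filter
      (fun p => p ∈ S ∧ ∃ l ∈ L, p ≤ l), fun Q L m p => ?_⟩
    simp only [Finset.mem_union, Finset.mem_filter, Finset.mem_biUnion, Finset.mem_range,
      Option.mem_toFinset, Option.mem_def]
    constructor
    · rintro (h1 | ⟨⟨n, hn, hu⟩, hp, hl⟩)
      · exact Or.inl h1
      · exact Or.inr ⟨hp, ⟨n, by omega, hu⟩, hl⟩
    · rintro (h1 | ⟨hp, ⟨n, hn, hu⟩, hl⟩)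
      · exact Or.inl h1
      · exact Or.inr ⟨⟨n, by omega, hu⟩, hp, hl⟩
  have hex : ∀ (Q L : Finset P) (m : ℕ), ∃ k, (Q : Set P) ⊆ S →
      BddAbove ((Q : Set P) ∪ (L : Set P)) → m ≤ k ∧ Good h x e (W Q L m) m k := by
    intro Q L m
    by_cases H : (Q : Set P) ⊆ S ∧ BddAbove ((Q : Set P) ∪ (L : Set P))
    · obtain ⟨c, hc⟩ := H.2
      obtain ⟨k, hk, hg⟩ := good (W Q L m) (by
        intro p hp
        rcases (hW Q L m p).mp hp with h1 | h1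
        · exact H.1 h1
        · exact h1.1) ⟨c, by
          intro p hp
          rcases (hW Q L m p).mp hp with h1 | ⟨_, _, l, hl, hpl⟩
          · exact hc (Or.inl h1)
          · exact hpl.trans (hc (Or.inr hl))⟩ m
      exact ⟨k, fun _ _ => ⟨hk, hg⟩⟩
    · exact ⟨0, fun h1 h2 => absurd ⟨h1, h2⟩ H⟩
  choose g hg using hex
  obtain ⟨j, hj1, hj2⟩ := escape hι
    (fun a => g (a.1.map (Function.Embedding.subtype _)) (a.2.map (Function.Embedding.subtype _)))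
    (fun i => 2 * i + 1)
  refine ⟨j, hj1, fun Q L hQ hL hne hbd i₀ => ?_⟩
  obtain ⟨l, hl⟩ := hne
  have hlK : l ∈ K := hL hl
  have hQR : (Q : Set P) ⊆ A ∪ B := by
    intro q hq
    have hqS := hQ hq
    by_cases h1 : q ≤ l
    · rcases h1.lt_or_eq with h2 | h2
      · exact Or.inr (by rw [hB]; exact ⟨l, hlK, h2⟩)
      · exact absurd (h2 ▸ hlK) (fun h3 => Set.disjoint_left.mp hd hqS h3)
    · by_cases h2 : l ≤ q
      · exact absurd hlK (fun h3 => Set.disjoint_left.mp hd (hS h2 hqS) h3)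
      · refine Or.inl ?_
        rw [hA]
        obtain ⟨c, hc⟩ := hbd
        exact ⟨hqS, l, hlK, h2, h1, c, hc (Or.inr hl), hc (Or.inl hq)⟩
  have e1 : (Q.subtype (· ∈ A ∪ B)).map (Function.Embedding.subtype _) = Q :=
    Finset.subtype_map_of_mem (fun q hq => hQR hq)
  have e2 : (L.subtype (· ∈ K)).map (Function.Embedding.subtype _) = L :=
    Finset.subtype_map_of_mem (fun q hq => hL hq)
  obtain ⟨i, hi, hgi⟩ := hj2 (Q.subtype (· ∈ A ∪ B), L.subtype (· ∈ K)) i₀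
  simp only [e1, e2] at hgi
  obtain ⟨hk, E, hE1, hE2, hE3, hE4, hE5⟩ := hg Q L (j i + (2 * i + 1)) hQ hbd
  refine ⟨i, hi, g Q L (j i + (2 * i + 1)), hk, hgi, E, ?_, ?_, ?_, ?_, hE3, hE4, hE5⟩
  · intro q hq
    exact hE1 ((hW _ _ _ _).mpr (Or.inl hq))
  · intro p hp
    obtain ⟨q, hq, hpq⟩ := hE2 p hp
    refine hS hpq ?_
    rcases (hW _ _ _ q).mp hq with h1 | h1
    · exact hQ h1
    · exact h1.1
  · intro p hp
    obtain ⟨q, hq, hpq⟩ := hE2 p hp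
    rcases (hW _ _ _ q).mp hq with h1 | ⟨_, _, l', hl', hql⟩
    · exact ⟨q, Or.inl h1, hpq⟩
    · exact ⟨l', Or.inr hl', hpq.trans hql⟩
  · intro n hn b hb hu hbl
    exact hE1 ((hW _ _ _ _).mpr (Or.inr ⟨hb, ⟨n, by omega, hu⟩, hbl⟩))

theorem level2 {P : Type} [PartialOrder P] (hloc : ∀ x : P, (Set.Iio x).Countable) (h : ℕ → ℕ)
    (hh : StrictMono h) (S K : Set P) (hS : IsLowerSet S) (hSK : IsLowerSet (S ∪ K))
    (hd : Disjoint S K) (hK : K.Countable)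
    (x : P → ℕ → Bool) (e : P → ℕ → Option P)
    (good : ∀ Q : Finset P, (Q : Set P) ⊆ S → BddAbove (Q : Set P) →
      ∀ s, ∃ k ≥ s, Good h x e Q s k)
    (hS2 : Cardinal.mk {q : P | q ∈ S ∧ ∃ k ∈ K, q ∈ Nb k} < domN) :
    ∃ (eK : P → ℕ → Option P) (y : (ℕ → Bool) → P → ℕ → Bool),
      (∀ κ ∈ K, ∀ n q, eK κ n = some q → q < κ) ∧
      (∀ κ ∈ K, ∀ n, n ∉ Set.range h → eK κ n = none) ∧
      (∀ κ ∈ K, ∀ q, q < κ → ∃ n, eK κ n = some q) ∧
      (∀ κ ∈ K, ∀ θ θ', y θ κ = y θ' κ → θ = θ') ∧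
      ∀ Q L F : Finset P, (Q : Set P) ⊆ S → (L : Set P) ⊆ K → (F : Set P) ⊆ K → L.Nonempty →
        BddAbove ((Q : Set P) ∪ (L : Set P)) → ∀ s, ∃ k ≥ s, ∃ E M : Finset P,
          Q ⊆ E ∧ (E : Set P) ⊆ S ∧ L ⊆ M ∧ (M : Set P) ⊆ K ∧
          (∀ p, p ∈ E ∨ p ∈ M → ∃ q, (q ∈ Q ∨ q ∈ L) ∧ p ≤ q) ∧
          (∀ p ∈ E, ∀ n < h k, ∀ b, e p n = some b → b ∈ E) ∧
          (∀ p ∈ M, ∀ n < h k, ∀ b, eK p n = some b → b ∈ E ∨ b ∈ M) ∧
          (∀ p ∈ E, ∀ q ∈ E, Agr k (x p) (x q) → p = q) ∧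
          (∀ p ∈ E, ∃ t, s ≤ t ∧ t < k ∧ x p t = true) ∧
          ∀ θ θ' κ, (κ ∈ M ∨ κ ∈ F) →
            (∀ p ∈ E, ¬ Agr k (x p) (y θ κ)) ∧
            (∃ t, s ≤ t ∧ t < k ∧ y θ κ t = true) ∧
            ∀ κ', (κ' ∈ M ∨ κ' ∈ F) → Agr k (y θ κ) (y θ' κ') →
              κ = κ' ∧ ∀ l < s, θ l = θ' l := by
  classical
  -- the countable set of points below `K` and its enumeration
  have hD0 : ({p : P | ∃ κ ∈ K, p ≤ κ}).Countable := by
    have h1 : {p : P | ∃ κ ∈ K, p ≤ κ} = ⋃ κ ∈ K, insert κ (Set.Iio κ) := by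
      ext p
      simp only [Set.mem_ofPred_eq, Set.mem_iUnion, Set.mem_insert_iff, Set.mem_Iio, exists_prop]
      constructor
      · rintro ⟨κ, hκ, hp⟩
        exact ⟨κ, hκ, hp.eq_or_lt⟩
      · rintro ⟨κ, hκ, hp⟩
        exact ⟨κ, hκ, hp.elim le_of_eq le_of_lt⟩
    rw [h1]
    exact hK.biUnion (fun κ _ => (hloc κ).insert κ)
  obtain ⟨u, hu⟩ : ∃ u : ℕ → Option P, ∀ p : P, (∃ κ ∈ K, p ≤ κ) → ∃ n, u n = some p := by
    have : Countable {p : P | ∃ κ ∈ K, p ≤ κ} := hD0.to_subtype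
    obtain ⟨g, hg⟩ := exists_surjective_nat (Option {p : P | ∃ κ ∈ K, p ≤ κ})
    refine ⟨fun n => (g n).map Subtype.val, fun p hp => ?_⟩
    obtain ⟨n, hn⟩ := hg (some ⟨p, hp⟩)
    exact ⟨n, by simp [hn]⟩
  obtain ⟨j, hj, hlev⟩ := level hloc h S K hS hd hK x e good hS2 u
  have hjm : StrictMono j := strictMono_nat_of_lt_succ (fun i => by have := hj i; omega)
  have hji : ∀ i, i ≤ j i := fun i => hjm.le_apply
  -- the index
  obtain ⟨idx, hidx1, hidx2⟩ : ∃ idx : P → ℕ, (∀ κ ∈ K, u (idx κ) = some κ) ∧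
      ∀ κ n, u n = some κ → idx κ ≤ n := by
    refine ⟨fun κ => sInf {n | u n = some κ}, fun κ hκ => ?_, fun κ n hn => Nat.sInf_le hn⟩
    obtain ⟨n, hn⟩ := hu κ ⟨κ, hκ, le_rfl⟩
    exact Nat.sInf_mem (s := {n | u n = some κ}) ⟨n, hn⟩
  have hinj : ∀ κ ∈ K, ∀ κ' ∈ K, idx κ = idx κ' → κ = κ' := by
    intro κ hκ κ' hκ' heq
    have h1 := hidx1 κ hκ
    rw [heq, hidx1 κ' hκ'] at h1
    exact (Option.some.inj h1).symm
  -- the references
  obtain ⟨eK, he1, he2⟩ : ∃ eK : P → ℕ → Option P,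
      (∀ κ n b, eK κ n = some b → b < κ ∧ ∃ i, n = h (j i) ∧ u i = some b) ∧
      (∀ κ i b, u i = some b → b < κ → eK κ (h (j i)) = some b) := by
    refine ⟨fun κ n => if H : ∃ b, b < κ ∧ ∃ i, n = h (j i) ∧ u i = some b then
      some H.choose else none, ?_, ?_⟩
    · intro κ n b hb
      by_cases H : ∃ b, b < κ ∧ ∃ i, n = h (j i) ∧ u i = some b
      · simp only [dif_pos H, Option.some.injEq] at hb
        rw [← hb]
        exact H.choose_spec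
      · simp only [dif_neg H] at hb
        exact absurd hb (by simp)
    · intro κ i b hb hbκ
      have H : ∃ b, b < κ ∧ ∃ i', h (j i) = h (j i') ∧ u i' = some b := ⟨b, hbκ, i, rfl, hb⟩
      simp only [dif_pos H, Option.some.injEq]
      obtain ⟨-, i', hi', hu'⟩ := H.choose_spec
      have h1 : i = i' := hjm.injective (hh.injective hi')
      rw [← h1, hb] at hu'
      exact (Option.some.inj hu').symm
  refine ⟨eK, fun θ κ => pt j θ (idx κ), ?_, ?_, ?_, ?_, ?_⟩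
  · intro κ _ n q hq
    exact (he1 κ n q hq).1
  · intro κ _ n hn
    cases hq : eK κ n with
    | none => rfl
    | some b =>
      obtain ⟨-, i, hi, -⟩ := he1 κ n b hq
      exact absurd ⟨j i, hi.symm⟩ hn
  · intro κ hκ q hq
    obtain ⟨i, hi⟩ := hu q ⟨κ, hκ, hq.le⟩
    exact ⟨h (j i), he2 κ i q hi hq⟩
  · intro κ _ θ θ' heq
    funext l
    have h1 := pt_inj j hj θ θ' (idx κ) (idx κ) (max (idx κ) (l + 1))
      (j (max (idx κ) (l + 1)) + (2 * (max (idx κ) (l + 1)) + 1)) (le_max_left _ _)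
      (le_max_left _ _) le_rfl (fun t _ => congrFun heq t)
    exact h1.2 l (lt_of_lt_of_le (Nat.lt_succ_self l) (le_max_right _ _))
  · intro Q L F hQ hL hF hLne hbdd s
    obtain ⟨i, hi, k, hk1, hk2, E, hQE, hES, hE1, hE2, hE3, hE4, hE5⟩ :=
      hlev Q L hQ hL hLne hbdd (s + 1 + ∑ κ ∈ L, idx κ + ∑ κ ∈ F, idx κ)
    have hLi : ∀ κ ∈ L, idx κ ≤ i := by
      intro κ hκ
      have := Finset.single_le_sum (f := idx) (fun _ _ => Nat.zero_le _) hκ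
      omega
    have hFi : ∀ κ ∈ F, idx κ ≤ i := by
      intro κ hκ
      have := Finset.single_le_sum (f := idx) (fun _ _ => Nat.zero_le _) hκ
      omega
    have hsi : s < i := by omega
    have hjii := hji i
    obtain ⟨M, hM⟩ : ∃ M : Finset P, ∀ κ, κ ∈ M ↔
        κ ∈ K ∧ (∃ n ≤ i, u n = some κ) ∧ ∃ l ∈ L, κ ≤ l := by
      refine ⟨(((Finset.range (i + 1)).biUnion (fun n => (u n).toFinset)).filter
        (fun κ => κ ∈ K ∧ ∃ l ∈ L, κ ≤ l)), fun κ => ?_⟩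
      simp only [Finset.mem_filter, Finset.mem_biUnion, Finset.mem_range, Option.mem_toFinset,
        Option.mem_def, Nat.lt_succ_iff]
      tauto
    have hMi : ∀ κ ∈ M, idx κ ≤ i := by
      intro κ hκ
      obtain ⟨-, ⟨n, hn, hnu⟩, -⟩ := (hM κ).1 hκ
      exact (hidx2 κ n hnu).trans hn
    have hMFi : ∀ κ, (κ ∈ M ∨ κ ∈ F) → idx κ ≤ i := fun κ hκ => hκ.elim (hMi κ) (hFi κ)
    have hMFK : ∀ κ, (κ ∈ M ∨ κ ∈ F) → κ ∈ K :=
      fun κ hκ => hκ.elim (fun h => ((hM κ).1 h).1) (fun h => hF h)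
    refine ⟨k, by omega, E, M, hQE, hES, ?_, ?_, ?_, hE3, ?_, hE4, ?_, ?_⟩
    · intro l hl
      exact (hM l).2 ⟨hL hl, ⟨idx l, hLi l hl, hidx1 l (hL hl)⟩, l, hl, le_rfl⟩
    · intro κ hκ
      exact ((hM κ).1 hκ).1
    · rintro p (hp | hp)
      · exact hE1 p hp
      · obtain ⟨-, -, l, hl, hpl⟩ := (hM p).1 hp
        exact ⟨l, Or.inr hl, hpl⟩
    · intro p hp n hn b hb
      obtain ⟨hbp, t, rfl, htb⟩ := he1 p n b hb
      obtain ⟨hpK, -, l, hl, hpl⟩ := (hM p).1 hp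
      have h1 : j t < k := hh.lt_iff_lt.1 hn
      have h2 : t < i + 1 := hjm.lt_iff_lt.1 (h1.trans_le hk2)
      have h3 : t ≤ i := Nat.lt_succ_iff.1 h2
      have h4 : b ∈ S ∪ K := hSK hbp.le (Or.inr hpK)
      rcases h4 with h4 | h4
      · exact Or.inl (hE2 t h3 b h4 htb ⟨l, hl, hbp.le.trans hpl⟩)
      · exact Or.inr ((hM b).2 ⟨h4, ⟨t, h3, htb⟩, l, hl, hbp.le.trans hpl⟩)
    · intro p hp
      obtain ⟨t, ht1, ht2, ht3⟩ := hE5 p hp
      exact ⟨t, by omega, ht2, ht3⟩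
    · intro θ θ' κ hκ
      have hκi := hMFi κ hκ
      refine ⟨?_, ?_, ?_⟩
      · intro p hp hA
        obtain ⟨t, ht1, ht2, ht3⟩ := hE5 p hp
        have h1 : x p t = pt j θ (idx κ) t := hA t ht2
        rw [ht3, pt_false j hj θ (idx κ) i t ht1 (ht2.trans_le hk2)] at h1
        exact absurd h1 (by simp)
      · exact ⟨j i + idx κ, by omega, by omega, pt_true j θ (idx κ) i hκi⟩
      · intro κ' hκ' hA
        obtain ⟨h1, h2⟩ := pt_inj j hj θ θ' (idx κ) (idx κ') i k hκi (hMFi κ' hκ') hk1 hA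
        exact ⟨hinj κ (hMFK κ hκ) κ' (hMFK κ' hκ') h1, fun l hl => h2 l (hl.trans hsi)⟩

end Pool.Agent.H246
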