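import Mathlib
import Pool.Agent.H246.Level
import Pool.Agent.H246.Kill
import Pool.Agent.H246.Basic

set_option autoImplicit false

/-! One block of the recursion. -/

namespace Pool.Agent.H246

open Pool.Agent.Helper743

theorem x2_mk_finset_lt {T : Type} {c : Cardinal.{0}} (hc' : Cardinal.aleph0 < c)
    (h : Cardinal.mk T < c) : Cardinal.mk (Finset T) < c := by
  rcases finite_or_infinite T with hT | hT
  · exact (Cardinal.mk_le_aleph0 (α := Finset T)).trans_lt hc'
  · rwa [Cardinal.mk_finset_of_infinite]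

theorem x2_union_lt {I Y : Type} (A : I → Set Y) (hA : ∀ i, (A i).Countable)
    (hI : Cardinal.mk I < Cardinal.continuum) :
    Cardinal.mk (⋃ i, A i : Set Y) < Cardinal.continuum := by
  refine (Cardinal.mk_iUnion_le A).trans_lt ?_
  refine Cardinal.mul_lt_of_lt Cardinal.aleph0_le_continuum hI ?_
  refine lt_of_le_of_lt (ciSup_le' fun i => ?_) Cardinal.aleph0_lt_continuum
  exact Cardinal.le_aleph0_iff_set_countable.2 (hA i)

theorem x2_agr_symm {k : ℕ} {x y : ℕ → Bool} (h : Agr k x y) : Agr k y x :=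
  fun i hi => (h i hi).symm

theorem x2_lift {P : Type} (p : P → Prop) : ∀ L : List P, (∀ q ∈ L, p q) →
    ∃ R : List {q // p q}, R.map Subtype.val = L
  | [], _ => ⟨[], rfl⟩
  | a :: L, h => by
    obtain ⟨R, hR⟩ := x2_lift p L fun q hq => h q (List.mem_cons_of_mem _ hq)
    exact ⟨⟨a, h a List.mem_cons_self⟩ :: R, by simp [hR]⟩

theorem x2_J {P I : Type} (f : P → ℕ → ℕ) (v : I → P) (R : List I) :
    J (fun i => f (v i)) R = J f (R.map v) := by
  funext t
  simp only [J, List.getElem?_map]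
  cases R[t.unpair.1]? <;> rfl

theorem extend2 {ev : ℕ → List ℕ → ℕ → Option ℕ} {h : ℕ → ℕ} {C : (ℕ → Bool) → ℕ → List ℕ}
    (hev : ∀ a, IsFn (ev a)) (hev2 : ∀ ev', IsFn ev' → ∃ a, ev a = ev') (hT : Tree ev h C)
    {P : Type} [PartialOrder P] (hloc : ∀ x : P, (Set.Iio x).Countable)
    (S K : Set P) (hS : IsLowerSet S) (hSK : IsLowerSet (S ∪ K)) (hd : Disjoint S K)
    (hK : K.Countable) (x : P → ℕ → Bool) (e : P → ℕ → Option P) (f : P → ℕ → ℕ)
    (hf : Sys h C S x e f)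
    (hS1 : Cardinal.mk S < Cardinal.continuum)
    (hS2 : Cardinal.mk {q : P | q ∈ S ∧ ∃ k ∈ K, q ∈ Nb k} < domN) :
    ∃ (x' : P → ℕ → Bool) (e' : P → ℕ → Option P) (f' : P → ℕ → ℕ),
      (∀ p ∈ S, x' p = x p ∧ e' p = e p ∧ f' p = f p) ∧ Sys h C (S ∪ K) x' e' f' := by
  classical
  have hmono : StrictMono h := strictMono_nat_of_lt_succ fun k => by have := hT.step k; omega
  have h0 : (0 : ℕ) ∉ Set.range h := by
    rintro ⟨k, hk⟩
    have h1 := hmono.monotone (Nat.zero_le k)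
    have h2 := hT.pos
    omega
  obtain ⟨eK, y, eK1, eK2, eK3, yinj, hlev⟩ :=
    level2 hloc h hmono S K hS hSK hd hK x e hf.good hS2
  have hSK' : ∀ p ∈ S, p ∉ K := fun p hp hk => Set.disjoint_left.1 hd hp hk
  obtain ⟨xx, hxx⟩ : ∃ xx : (ℕ → Bool) → P → ℕ → Bool, xx = fun θ p => if p ∈ K then y θ p else x p :=
    ⟨_, rfl⟩
  obtain ⟨e', he'⟩ : ∃ e' : P → ℕ → Option P, e' = fun p => if p ∈ K then eK p else e p := ⟨_, rfl⟩
  have xxS : ∀ θ, ∀ p ∈ S, xx θ p = x p := fun θ p hp => by rw [hxx]; exact if_neg (hSK' p hp)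
  have xxK : ∀ θ, ∀ p ∈ K, xx θ p = y θ p := fun θ p hp => by rw [hxx]; exact if_pos hp
  have e'S : ∀ p ∈ S, e' p = e p := fun p hp => by rw [he']; exact if_neg (hSK' p hp)
  have e'K : ∀ p ∈ K, e' p = eK p := fun p hp => by rw [he']; exact if_pos hp
  obtain ⟨ff, hff⟩ : ∃ ff : (ℕ → Bool) → P → ℕ → ℕ, ff = fun θ => G K (fun p n => C (y θ p) n) e' f :=
    ⟨_, rfl⟩
  have ffS : ∀ θ, ∀ p ∈ S, ff θ p = f p := fun θ p hp => by
    rw [hff]; exact G_of_not_mem K _ e' f (hSK' p hp)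
  have ltSK : ∀ p ∈ S ∪ K, ∀ n q, e' p n = some q → q < p := by
    rintro p (hp | hp) n q h
    · rw [e'S p hp] at h; exact hf.lt p hp n q h
    · rw [e'K p hp] at h; exact eK1 p hp n q h
  have spSK : ∀ p ∈ S ∪ K, ∀ n, n ∉ Set.range h → e' p n = none := by
    rintro p (hp | hp) n hn
    · rw [e'S p hp]; exact hf.sp p hp n hn
    · rw [e'K p hp]; exact eK2 p hp n hn
  have allSK : ∀ p ∈ S ∪ K, ∀ q, q < p → ∃ n, e' p n = some q := by
    rintro p (hp | hp) q hq
    · rw [e'S p hp]; exact hf.all p hp q hq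
    · rw [e'K p hp]; exact eK3 p hp q hq
  have ffval : ∀ θ, ∀ p ∈ S ∪ K, ∀ n a,
      ff θ p (Nat.pair n a) = rv (C (xx θ p) n) (e' p n) (ff θ) a := by
    rintro θ p (hp | hp) n a
    · rw [ffS θ p hp, hf.val p hp n a, xxS θ p hp, e'S p hp]
      unfold rv
      congr 1
      cases hq : e p n with
      | none => rfl
      | some q =>
        have : q ∈ S := hS (hf.lt p hp n q hq).le hp
        simp only [ffS θ q this]
    · rw [xxK θ p hp, hff]
      exact G_val K (fun p n => C (y θ p) n) e' f hp (spSK p (Or.inr hp) 0 h0) n a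
  -- the main tool
  have key : ∀ Q' : Finset P, (Q' : Set P) ⊆ S ∪ K → BddAbove (Q' : Set P) → ¬ (Q' : Set P) ⊆ S →
      ∀ F : Finset P, (F : Set P) ⊆ K → ∀ s, ∃ k ≥ s, ∃ E M : Finset P,
        (E : Set P) ⊆ S ∧ (M : Set P) ⊆ K ∧ (∀ q ∈ Q', q ∈ E ∨ q ∈ M) ∧
        (∀ p, p ∈ E ∨ p ∈ M → ∃ q ∈ Q', p ≤ q) ∧
        (∀ p ∈ E, ∀ n < h k, ∀ b, e' p n = some b → b ∈ E) ∧
        (∀ p ∈ M, ∀ n < h k, ∀ b, e' p n = some b → b ∈ E ∨ b ∈ M) ∧
        (∀ p ∈ E, ∀ q ∈ E, Agr k (x p) (x q) → p = q) ∧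
        (∀ p ∈ E, ∃ t, s ≤ t ∧ t < k ∧ x p t = true) ∧
        ∀ θ θ' κ, (κ ∈ M ∨ κ ∈ F) →
          (∀ p ∈ E, ¬ Agr k (x p) (y θ κ)) ∧
          (∃ t, s ≤ t ∧ t < k ∧ y θ κ t = true) ∧
          ∀ κ', (κ' ∈ M ∨ κ' ∈ F) → Agr k (y θ κ) (y θ' κ') →
            κ = κ' ∧ ∀ l < s, θ l = θ' l := by
    intro Q' hQ' hb hn F hF s
    obtain ⟨l0, hl0Q, hl0S⟩ := Set.not_subset.1 hn
    have hl0K : l0 ∈ K := (hQ' hl0Q).resolve_left hl0S
    obtain ⟨k, hk, E, M, hQE, hES, hLM, hMK, hle, hclE, hclM, hsep, htr, hlast⟩ :=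
      hlev (Q'.filter (· ∈ S)) (Q'.filter (· ∈ K)) F
        (fun q hq => (Finset.mem_filter.1 hq).2) (fun q hq => (Finset.mem_filter.1 hq).2) hF
        ⟨l0, Finset.mem_filter.2 ⟨hl0Q, hl0K⟩⟩
        (hb.mono (by
          rintro q (hq | hq)
          · exact (Finset.mem_filter.1 hq).1
          · exact (Finset.mem_filter.1 hq).1)) s
    refine ⟨k, hk, E, M, hES, hMK, ?_, ?_, ?_, ?_, hsep, htr, hlast⟩
    · intro q hq
      rcases hQ' hq with h | h
      · exact Or.inl (hQE (Finset.mem_filter.2 ⟨hq, h⟩))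
      · exact Or.inr (hLM (Finset.mem_filter.2 ⟨hq, h⟩))
    · intro p hp
      obtain ⟨q, hq, hpq⟩ := hle p hp
      rcases hq with hq | hq
      · exact ⟨q, (Finset.mem_filter.1 hq).1, hpq⟩
      · exact ⟨q, (Finset.mem_filter.1 hq).1, hpq⟩
    · intro p hp n hn b hb
      rw [e'S p (hES hp)] at hb
      exact hclE p hp n hn b hb
    · intro p hp n hn b hb
      rw [e'K p (hMK hp)] at hb
      exact hclM p hp n hn b hb
  -- separation of the points of E ∪ M
  have sepSK : ∀ (k s : ℕ) (E M F : Finset P), (E : Set P) ⊆ S → (M : Set P) ⊆ K →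
      (∀ p ∈ E, ∀ q ∈ E, Agr k (x p) (x q) → p = q) →
      (∀ θ θ' κ, (κ ∈ M ∨ κ ∈ F) →
          (∀ p ∈ E, ¬ Agr k (x p) (y θ κ)) ∧
          (∃ t, s ≤ t ∧ t < k ∧ y θ κ t = true) ∧
          ∀ κ', (κ' ∈ M ∨ κ' ∈ F) → Agr k (y θ κ) (y θ' κ') →
            κ = κ' ∧ ∀ l < s, θ l = θ' l) →
      ∀ θ, ∀ p q, (p ∈ E ∨ p ∈ M) → (q ∈ E ∨ q ∈ M) → Agr k (xx θ p) (xx θ q) → p = q := by
    intro k s E M F hES hMK hsep hlast θ p q hp hq hpq
    rcases hp with hp | hp <;> rcases hq with hq | hq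
    · rw [xxS θ p (hES hp), xxS θ q (hES hq)] at hpq
      exact hsep p hp q hq hpq
    · rw [xxS θ p (hES hp), xxK θ q (hMK hq)] at hpq
      exact ((hlast θ θ q (Or.inl hq)).1 p hp hpq).elim
    · rw [xxK θ p (hMK hp), xxS θ q (hES hq)] at hpq
      exact ((hlast θ θ p (Or.inl hp)).1 q hq (x2_agr_symm hpq)).elim
    · rw [xxK θ p (hMK hp), xxK θ q (hMK hq)] at hpq
      exact ((hlast θ θ p (Or.inl hp)).2.2 q (Or.inl hq) hpq).1
  have goodSK : ∀ θ, ∀ Q' : Finset P, (Q' : Set P) ⊆ S ∪ K → BddAbove (Q' : Set P) →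
      ∀ s, ∃ k ≥ s, Good h (xx θ) e' Q' s k := by
    intro θ Q' hQ' hb s
    by_cases hQS : (Q' : Set P) ⊆ S
    · obtain ⟨k, hk, E, h1, h2, h3, h4, h5⟩ := hf.good Q' hQS hb s
      have hES : ∀ p ∈ E, p ∈ S := fun p hp => by
        obtain ⟨q, hq, hpq⟩ := h2 p hp
        exact hS hpq (hQS hq)
      refine ⟨k, hk, E, h1, h2, ?_, ?_, ?_⟩
      · intro p hp n hn b hb
        rw [e'S p (hES p hp)] at hb
        exact h3 p hp n hn b hb
      · intro p hp q hq hpq
        rw [xxS θ p (hES p hp), xxS θ q (hES q hq)] at hpq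
        exact h4 p hp q hq hpq
      · intro p hp
        rw [xxS θ p (hES p hp)]
        exact h5 p hp
    · obtain ⟨k, hk, E, M, hES, hMK, hQE, hle, hclE, hclM, hsep, htr, hlast⟩ :=
        key Q' hQ' hb hQS ∅ (by simp) s
      refine ⟨k, hk, E ∪ M, ?_, ?_, ?_, ?_, ?_⟩
      · intro q hq
        exact Finset.mem_union.2 (hQE q hq)
      · intro p hp
        exact hle p (Finset.mem_union.1 hp)
      · intro p hp n hn b hb
        rcases Finset.mem_union.1 hp with hp | hp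
        · exact Finset.mem_union.2 (Or.inl (hclE p hp n hn b hb))
        · exact Finset.mem_union.2 (hclM p hp n hn b hb)
      · intro p hp q hq hpq
        exact sepSK k s E M ∅ hES hMK hsep hlast θ p q (Finset.mem_union.1 hp)
          (Finset.mem_union.1 hq) hpq
      · intro p hp
        rcases Finset.mem_union.1 hp with hp | hp
        · rw [xxS θ p (hES hp)]
          exact htr p hp
        · rw [xxK θ p (hMK hp)]
          exact (hlast θ θ p (Or.inl hp)).2.1
  -- bad parameters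
  let T := (S ∪ K : Set P)
  have hKc : Cardinal.mk K ≤ Cardinal.aleph0 := Cardinal.le_aleph0_iff_set_countable.2 hK
  have hTc : Cardinal.mk T < Cardinal.continuum :=
    (Cardinal.mk_union_le S K).trans_lt
      (Cardinal.add_lt_of_lt Cardinal.aleph0_le_continuum hS1
        (hKc.trans_lt Cardinal.aleph0_lt_continuum))
  let QR : Finset T → Finset P := fun R => R.map (Function.Embedding.subtype _)
  have hQR : ∀ R : Finset T, (QR R : Set P) ⊆ S ∪ K := by
    intro R q hq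
    obtain ⟨a, -, rfl⟩ := Finset.mem_map.1 (Finset.mem_coe.1 hq)
    exact a.2
  let Bad1 : K × Finset S → Set (ℕ → Bool) := fun i =>
    {θ | RecT (Ora f ((i.2.map (Function.Embedding.subtype _) : Finset P) : Set P)) (ff θ i.1)}
  let Bad2 : S × Finset T × ℕ → Set (ℕ → Bool) := fun i =>
    {θ | BddAbove (QR i.2.1 : Set P) ∧ ¬ (QR i.2.1 : Set P) ⊆ S ∧
      (∀ l ∈ QR i.2.1, ¬ (i.1 : P) ≤ l) ∧
      ∀ m, Hal (ev i.2.2) (J (ff θ) (QR i.2.1).toList) m (f i.1 m)}
  have ffinj : ∀ κ ∈ K, Function.Injective fun θ => ff θ κ := by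
    intro κ hκ θ θ' hθ
    refine yinj κ hκ θ θ' ?_
    funext t
    have h1 := congrFun hθ (Nat.pair (h t + 1) 0)
    simp only [ffval θ κ (Or.inr hκ), ffval θ' κ (Or.inr hκ), xxK θ κ hκ, xxK θ' κ hκ, rv,
      hT.bit] at h1
    cases h2 : y θ κ t <;> cases h3 : y θ' κ t <;> simp [h2, h3] at h1 ⊢
  have hBad1 : ∀ i, (Bad1 i).Countable := by
    rintro ⟨κ, Q⟩
    refine Set.Countable.preimage_of_injOn (countable_recT f (Q.map (Function.Embedding.subtype _)))
      (f := fun θ => ff θ κ) (ffinj κ κ.2).injOn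
  have hBad2 : ∀ i, (Bad2 i).Countable := by
    rintro ⟨z, R, a⟩
    refine Set.Subsingleton.countable ?_
    rintro θ ⟨hb, hnS, hz, h1⟩ θ' ⟨-, -, -, h2⟩
    by_contra hne
    obtain ⟨l0, hl0⟩ := Function.ne_iff.1 hne
    obtain ⟨k, hk, E, M, hES, hMK, hQE, hle, hclE, hclM, hsep, htr, hlast⟩ :=
      key (QR R) (hQR R) hb hnS ∅ (by simp) (l0 + 1 + a + 1 + (QR R).card)
    have hrec : RecT (Ora (ff θ) (E : Set P)) (f z) := by
      refine kill hev hT k a (by omega) E M ?_ e' ?_ hclE hclM (xx θ) (xx θ') ?_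
        (sepSK k _ E M ∅ hES hMK hsep hlast θ) (sepSK k _ E M ∅ hES hMK hsep hlast θ') ?_
        (ff θ) (ff θ') ?_ ?_ ?_ (QR R).toList (Finset.nodup_toList _) ?_ ?_ (f z) h1 h2
      · exact Finset.disjoint_left.2 fun p hp hp' => hSK' p (hES hp) (hMK hp')
      · rintro p (hp | hp)
        · exact spSK p (Or.inl (hES hp))
        · exact spSK p (Or.inr (hMK hp))
      · intro p hp
        rw [xxS θ p (hES hp), xxS θ' p (hES hp)]
      · intro p hp q hq hpq
        rw [xxK θ p (hMK hp), xxK θ' q (hMK hq)] at hpq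
        exact hl0 (((hlast θ θ' p (Or.inl hp)).2.2 q (Or.inl hq) hpq).2 l0 (by omega))
      · intro p hp
        rw [ffS θ p (hES hp), ffS θ' p (hES hp)]
      · intro p hp n _ b
        exact ffval θ p (hp.imp (fun h => hES h) fun h => hMK h) n b
      · intro p hp n _ b
        exact ffval θ' p (hp.imp (fun h => hES h) fun h => hMK h) n b
      · intro p hp
        exact hQE p (Finset.mem_toList.1 hp)
      · rw [Finset.length_toList]
        omega
    have hOra : Ora (ff θ) (E : Set P) = Ora f (E : Set P) := by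
      ext g
      constructor
      · rintro ⟨q, hq, rfl⟩
        exact ⟨q, hq, by rw [ffS _ q (hES hq)]⟩
      · rintro ⟨q, hq, rfl⟩
        exact ⟨q, hq, by rw [ffS _ q (hES hq)]⟩
    rw [hOra] at hrec
    refine hf.ind E hES ?_ z z.2 ?_ hrec
    · obtain ⟨c, hc⟩ := hb
      refine ⟨c, fun b hb => ?_⟩
      obtain ⟨l, hl, hbl⟩ := hle b (Or.inl hb)
      exact hbl.trans (hc hl)
    · intro q hq hzq
      obtain ⟨l, hl, hbl⟩ := hle q (Or.inl hq)
      exact hz l hl (hzq.trans hbl)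
  have c1 : Cardinal.mk (⋃ i, Bad1 i : Set (ℕ → Bool)) < Cardinal.continuum := by
    refine x2_union_lt Bad1 hBad1 ?_
    rw [Cardinal.mk_prod, Cardinal.lift_id, Cardinal.lift_id]
    exact Cardinal.mul_lt_of_lt Cardinal.aleph0_le_continuum
      (hKc.trans_lt Cardinal.aleph0_lt_continuum)
      (x2_mk_finset_lt Cardinal.aleph0_lt_continuum hS1)
  have c2 : Cardinal.mk (⋃ i, Bad2 i : Set (ℕ → Bool)) < Cardinal.continuum := by
    refine x2_union_lt Bad2 hBad2 ?_
    simp only [Cardinal.mk_prod, Cardinal.lift_id]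
    refine Cardinal.mul_lt_of_lt Cardinal.aleph0_le_continuum hS1
      (Cardinal.mul_lt_of_lt Cardinal.aleph0_le_continuum
        (x2_mk_finset_lt Cardinal.aleph0_lt_continuum hTc) ?_)
    rw [Cardinal.mk_nat]
    exact Cardinal.aleph0_lt_continuum
  obtain ⟨θ, hθ⟩ : ∃ θ, θ ∉ (⋃ i, Bad1 i) ∪ ⋃ i, Bad2 i := by
    by_contra hcon
    push Not at hcon
    have h1 : ((⋃ i, Bad1 i) ∪ ⋃ i, Bad2 i) = Set.univ := Set.eq_univ_of_forall hcon
    have h2 := (Cardinal.mk_union_le (⋃ i, Bad1 i) (⋃ i, Bad2 i)).trans_lt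
      (Cardinal.add_lt_of_lt Cardinal.aleph0_le_continuum c1 c2)
    rw [h1, Cardinal.mk_univ] at h2
    simp at h2
  have hy1 : ∀ i, θ ∉ Bad1 i := fun i h => hθ (Or.inl (Set.mem_iUnion.2 ⟨i, h⟩))
  have hy2 : ∀ i, θ ∉ Bad2 i := fun i h => hθ (Or.inr (Set.mem_iUnion.2 ⟨i, h⟩))
  refine ⟨xx θ, e', ff θ, fun p hp => ⟨xxS θ p hp, e'S p hp, ffS θ p hp⟩, ?_⟩
  refine ⟨ltSK, spSK, allSK, ffval θ, goodSK θ, ?_⟩
  intro Q' hQ' hb z hz hzQ hrec
  by_cases hQS : (Q' : Set P) ⊆ S
  · have hOra : Ora (ff θ) (Q' : Set P) = Ora f (Q' : Set P) := by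
      ext g
      constructor
      · rintro ⟨q, hq, rfl⟩
        exact ⟨q, hq, by rw [ffS _ q (hQS hq)]⟩
      · rintro ⟨q, hq, rfl⟩
        exact ⟨q, hq, by rw [ffS _ q (hQS hq)]⟩
    rw [hOra] at hrec
    rcases hz with hz | hz
    · rw [ffS _ z hz] at hrec
      exact hf.ind Q' hQS hb z hz hzQ hrec
    · apply hy1 (⟨z, hz⟩, Q'.subtype (· ∈ S))
      show RecT _ _
      rw [show ((Q'.subtype (· ∈ S)).map (Function.Embedding.subtype _)) = Q' from
        Finset.subtype_map_of_mem fun q hq => hQS hq]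
      exact hrec
  · have hrec2 : RecT (Ora (ff θ) {q | q ∈ Q'.toList}) (ff θ z) := by
      have : {q | q ∈ Q'.toList} = (Q' : Set P) := by
        ext q
        simp
      rw [this]
      exact hrec
    obtain ⟨ev', hev', hHal⟩ := exists_fn _ Q'.toList _ hrec2
    obtain ⟨a, ha⟩ := hev2 ev' hev'
    subst ha
    rcases hz with hz | hz
    · have hR : QR (Q'.subtype (· ∈ S ∪ K)) = Q' := Finset.subtype_map_of_mem fun q hq => hQ' hq
      apply hy2 (⟨z, hz⟩, Q'.subtype (· ∈ S ∪ K), a)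
      refine ⟨?_, ?_, ?_, ?_⟩
      · simp only [hR]; exact hb
      · simp only [hR]; exact hQS
      · simp only [hR]; exact hzQ
      · simp only [hR]
        intro m
        have := hHal m
        rw [ffS _ z hz] at this
        exact this
    · obtain ⟨k, hk, E, M, hES, hMK, hQE, hle, hclE, hclM, hsep, htr, hlast⟩ :=
        key Q' hQ' hb hQS {z} (by simpa using hz) (a + 1 + Q'.card)
      have hzM : z ∉ M := by
        intro h
        obtain ⟨q, hq, hzq⟩ := hle z (Or.inr h)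
        exact hzQ q hq hzq
      obtain ⟨R, hR⟩ := x2_lift (fun p => p ∈ E ∨ p ∈ M) Q'.toList
        (fun q hq => hQE q (Finset.mem_toList.1 hq))
      have hRl : R.length ≤ k := by
        have := congrArg List.length hR
        rw [List.length_map, Finset.length_toList] at this
        omega
      have hinSK : ∀ i : {p // p ∈ E ∨ p ∈ M}, (i : P) ∈ S ∪ K := fun i =>
        i.2.imp (fun h => hES h) fun h => hMK h
      refine hT.diag k a (by omega) {p // p ∈ E ∨ p ∈ M} (fun i => xx θ i) ?_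
        (fun i n => (e' i n).bind fun b => if hb : (b ∈ E ∨ b ∈ M) ∧ n < h k then
          some ⟨b, hb.1⟩ else none) ?_ (y θ z) ?_ R hRl (fun i => ff θ i) ?_ (ff θ z) ?_ ?_
      · intro i i' hi
        exact Subtype.ext (sepSK k _ E M {z} hES hMK hsep hlast θ i i' i.2 i'.2 hi)
      · intro i n hn
        rw [spSK i (hinSK i) n hn]
        rfl
      · intro i hi
        rcases i.2 with hp | hp
        · rw [xxS θ i (hES hp)] at hi
          exact (hlast θ θ z (Or.inr (by simp))).1 i hp (x2_agr_symm hi)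
        · rw [xxK θ i (hMK hp)] at hi
          have := ((hlast θ θ z (Or.inr (by simp))).2.2 i (Or.inl hp) hi).1
          exact hzM (this ▸ hp)
      · intro i n b hn
        show ff θ i (Nat.pair n b) = _
        rw [ffval θ i (hinSK i) n b]
        unfold rv
        congr 1
        cases hq : e' i n with
        | none => simp only [hq, Option.bind_none]
        | some q =>
          have hq' : q ∈ E ∨ q ∈ M := by
            rcases i.2 with hp | hp
            · exact Or.inl (hclE i hp n hn q hq)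
            · exact hclM i hp n hn q hq
          simp only [hq, Option.bind_some, dif_pos (And.intro hq' hn)]
      · intro n _ b v hv
        rw [ffval θ z (Or.inr hz) n b, xxK θ z hz]
        unfold rv
        rw [hv]
        rfl
      · intro m
        rw [x2_J (ff θ) Subtype.val R, hR]
        exact hHal m

end Pool.Agent.H246
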