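import Mathlib
import Pool.Agent.H246.Extend2

set_option autoImplicit false

/-! The transfinite recursion. -/

namespace Pool.Agent.H246

open Pool.Agent.Helper743

/-- the data attached to a point -/
abbrev A2Dat (P : Type) : Type := (ℕ → Bool) × (ℕ → Option P) × (ℕ → ℕ)

/-- the invariant for a family of data -/
def A2Sys {P : Type} [PartialOrder P] (h : ℕ → ℕ) (C : (ℕ → Bool) → ℕ → List ℕ) (S : Set P)
    (D : P → A2Dat P) : Prop :=
  Sys h C S (fun p => (D p).1) (fun p => (D p).2.1) (fun p => (D p).2.2)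

theorem a2_congr {P : Type} [PartialOrder P] {h : ℕ → ℕ} {C : (ℕ → Bool) → ℕ → List ℕ} {S : Set P}
    (hS : IsLowerSet S) {D D' : P → A2Dat P} (hD : ∀ p ∈ S, D' p = D p) (hf : A2Sys h C S D) :
    A2Sys h C S D' := by
  obtain ⟨h1, h2, h3, h4, h5, h6⟩ := hf
  refine ⟨?_, ?_, ?_, ?_, ?_, ?_⟩
  · intro p hp n q hq
    simp only [hD p hp] at hq
    exact h1 p hp n q hq
  · intro p hp n hn
    simp only [hD p hp]
    exact h2 p hp n hn
  · intro p hp q hq
    simp only [hD p hp]
    exact h3 p hp q hq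
  · intro p hp n a
    have h7 := h4 p hp n a
    simp only [hD p hp] at h7 ⊢
    rw [h7]
    cases he : (D p).2.1 n with
    | none => rfl
    | some q =>
      have hqp : q < p := h1 p hp n q he
      have hq : q ∈ S := hS hqp.le hp
      simp only [rv, hD q hq]
  · intro Q hQ hb s
    obtain ⟨k, hk, E, e1, e2, e3, e4, e5⟩ := h5 Q hQ hb s
    have hE : ∀ p ∈ E, p ∈ S := by
      intro p hp
      obtain ⟨q, hq, hpq⟩ := e2 p hp
      exact hS hpq (hQ hq)
    refine ⟨k, hk, E, e1, e2, ?_, ?_, ?_⟩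
    · intro p hp n hn b hb'
      simp only [hD p (hE p hp)] at hb'
      exact e3 p hp n hn b hb'
    · intro p hp q hq hpq
      simp only [hD p (hE p hp), hD q (hE q hq)] at hpq
      exact e4 p hp q hq hpq
    · intro p hp
      simp only [hD p (hE p hp)]
      exact e5 p hp
  · intro Q hQ hb y hy hn
    have e : Ora (fun p => (D' p).2.2) (Q : Set P) = Ora (fun p => (D p).2.2) (Q : Set P) := by
      ext k
      constructor
      · rintro ⟨q, hq, rfl⟩
        exact ⟨q, hq, by simp only [hD q (hQ hq)]⟩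
      · rintro ⟨q, hq, rfl⟩
        exact ⟨q, hq, by simp only [hD q (hQ hq)]⟩
    rw [e]
    simp only [hD y hy]
    exact h6 Q hQ hb y hy hn

theorem a2_union {P : Type} [PartialOrder P] {h : ℕ → ℕ} {C : (ℕ → Bool) → ℕ → List ℕ} {I : Type}
    [LinearOrder I] (idx : P → I) {A : Set P} {D : P → A2Dat P}
    (hA : ∀ p ∈ A, A2Sys h C {q | idx q ≤ idx p} D) : A2Sys h C A D := by
  classical
  refine ⟨?_, ?_, ?_, ?_, ?_, ?_⟩
  · intro p hp
    exact (hA p hp).lt p (le_refl (idx p))
  · intro p hp
    exact (hA p hp).sp p (le_refl (idx p))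
  · intro p hp
    exact (hA p hp).all p (le_refl (idx p))
  · intro p hp
    exact (hA p hp).val p (le_refl (idx p))
  · intro Q hQ hb s
    rcases Q.eq_empty_or_nonempty with rfl | hne
    · refine ⟨s, le_refl s, ∅, Finset.Subset.refl _, ?_, ?_, ?_, ?_⟩ <;> simp
    · obtain ⟨y, hy, hmax⟩ := Finset.exists_max_image Q idx hne
      exact (hA y (hQ hy)).good Q (fun q hq => hmax q hq) hb s
  · intro Q hQ hb x hx hn
    obtain ⟨y, hy, hmax⟩ := Finset.exists_max_image (insert x Q) idx ⟨x, Finset.mem_insert_self x Q⟩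
    have hyA : y ∈ A := by
      rcases Finset.mem_insert.1 hy with rfl | hy
      · exact hx
      · exact hQ hy
    exact (hA y hyA).ind Q (fun q hq => hmax q (Finset.mem_insert_of_mem hq)) hb x
      (hmax x (Finset.mem_insert_self x Q)) hn

open Classical in
/-- the recursion -/
noncomputable def a2_G {P : Type} [PartialOrder P] (h : ℕ → ℕ) (C : (ℕ → Bool) → ℕ → List ℕ)
    {I : Type} [LinearOrder I] [WellFoundedLT I] (idx : P → I) : I → P → A2Dat P :=
  WellFounded.fix (wellFounded_lt (α := I)) (fun i rec =>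
    if hh : ∃ g : P → A2Dat P, (∀ p, ∀ hp : idx p < i, g p = rec (idx p) hp p) ∧
      A2Sys h C {q | idx q ≤ i} g then Classical.choose hh
    else fun _ => (fun _ => false, fun _ => none, fun _ => 0))

theorem a2_G_spec {P : Type} [PartialOrder P] (h : ℕ → ℕ) (C : (ℕ → Bool) → ℕ → List ℕ)
    {I : Type} [LinearOrder I] [WellFoundedLT I] (idx : P → I) (i : I)
    (hh : ∃ g : P → A2Dat P, (∀ p, idx p < i → g p = a2_G h C idx (idx p) p) ∧
      A2Sys h C {q | idx q ≤ i} g) :
    (∀ p, idx p < i → a2_G h C idx i p = a2_G h C idx (idx p) p) ∧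
      A2Sys h C {q | idx q ≤ i} (a2_G h C idx i) := by
  have e : a2_G h C idx i = Classical.choose hh := by
    unfold a2_G
    rw [WellFounded.fix_eq]
    exact dif_pos hh
  rw [e]
  exact Classical.choose_spec hh

theorem assemble2 {ev : ℕ → List ℕ → ℕ → Option ℕ} {h : ℕ → ℕ} {C : (ℕ → Bool) → ℕ → List ℕ}
    (hev : ∀ a, IsFn (ev a)) (hev2 : ∀ ev', IsFn ev' → ∃ a, ev a = ev') (hT : Tree ev h C)
    {P : Type} [PartialOrder P] (hloc : ∀ x : P, (Set.Iio x).Countable)
    {I : Type} [LinearOrder I] [WellFoundedLT I] (idx : P → I)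
    (hmono : ∀ p q : P, q ≤ p → idx q ≤ idx p) (hfib : ∀ i, {p | idx p = i}.Countable)
    (hcard : ∀ i, Cardinal.mk {p | idx p < i} < Cardinal.continuum)
    (hN : ∀ i, Cardinal.mk {q : P | idx q < i ∧ ∃ k, idx k = i ∧ q ∈ Nb k} < domN) :
    ∃ (x : P → ℕ → Bool) (e : P → ℕ → Option P) (f : P → ℕ → ℕ), Sys h C Set.univ x e f := by
  set D : P → A2Dat P := fun p => a2_G h C idx (idx p) p with hD
  have key : ∀ i, A2Sys h C {q | idx q ≤ i} D := by
    intro i
    induction i using WellFoundedLT.induction with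
    | ind i ih =>
      have hS : A2Sys h C {q | idx q < i} D := a2_union idx fun p hp => ih (idx p) hp
      have hU : {q : P | idx q < i} ∪ {q | idx q = i} = {q | idx q ≤ i} := by
        ext q
        simp only [Set.mem_union, Set.mem_ofPred_eq]
        exact le_iff_lt_or_eq.symm
      obtain ⟨x', e', f', hg1, hg2⟩ := extend2 hev hev2 hT hloc {q | idx q < i} {q | idx q = i}
        (fun p q hqp hp => lt_of_le_of_lt (hmono p q hqp) hp)
        (by
          rw [hU]
          exact fun p q hqp hp => le_trans (hmono p q hqp) hp)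
        (by
          rw [Set.disjoint_left]
          intro q hq hq'
          exact absurd hq' (ne_of_lt hq))
        (hfib i) (fun p => (D p).1) (fun p => (D p).2.1) (fun p => (D p).2.2) hS (hcard i) (hN i)
      rw [hU] at hg2
      obtain ⟨s1, s2⟩ := a2_G_spec h C idx i ⟨fun p => (x' p, e' p, f' p), fun p hp => by
        obtain ⟨t1, t2, t3⟩ := hg1 p hp
        change (x' p, e' p, f' p) = D p
        rw [t1, t2, t3], hg2⟩
      refine a2_congr (fun p q hqp hp => le_trans (hmono p q hqp) hp) (fun p hp => ?_) s2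
      rcases lt_or_eq_of_le (show idx p ≤ i from hp) with h | h
      · exact (s1 p h).symm
      · rw [hD]
        simp only
        rw [h]
  exact ⟨_, _, _, a2_union (A := Set.univ) idx fun p _ => key (idx p)⟩

end Pool.Agent.H246
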