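import Mathlib
import Pool.Agent.H246.Defs

set_option autoImplicit false

/-! The blocks of the recursion. -/

namespace Pool.Agent.H246

open Pool.Agent.Helper743

/- Plain-words proof of the TARGET below.
Case A: Cardinal.mk P ≤ κ. Well-order P in order type (mk P).ord: so all initial segments have
cardinality < mk P (or are finite, if P is finite). Let idx p be the least x in this well-order
with p ≤ x in the partial order (x = p is a candidate). Monotone: q ≤ p ≤ idx p. The fiber of x is
contained in {p | p ≤ x}, countable. {p | idx p < i} ⊆ ⋃_{x < i} {p | p ≤ x}, of cardinality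
≤ |{x < i}| * ℵ₀, which is countable if |{x<i}| is countable and otherwise = |{x<i}| < mk P; in both
cases it is < κ (ℵ₀ < κ, mk P ≤ κ) and < continuum (ℵ₀ < continuum, mk P ≤ continuum). The fourth
condition follows.
Case B: κ < mk P (≤ continuum). For w : P let cl w be the closure of {w} under taking
predecessors (q ≤ p) and neighbours (q ∈ Nb p); it has cardinality ≤ κ since each p has at most ℵ₀
predecessors and at most κ neighbours (it is a countable union of sets of cardinality ≤ κ).
Well-order P in type (mk P).ord, let W(p) be the least w in this well-order with p ∈ cl w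
(w = p is a candidate), and T w = ⋃_{v < w} cl v, which is closed under predecessors and neighbours;
Nb is symmetric, so if k ∉ T w then Nb k ∩ T w = ∅. For each w fix an injection of cl w into the
well-order A = κ.ord.ToType (all proper initial segments have cardinality < κ), and for p with
W(p) = w let ν(p) be the least ν such that the element x with number ν satisfies W(x) = w and
p ≤ x (x = p is a candidate). Let idx p = (W(p), ν(p)) in the lexicographic product. Monotone: if
q ≤ p then q ∈ cl (W(p)), so W(q) ≤ W(p), and if W(q) = W(p) then q ≤ p ≤ x shows ν(q) ≤ ν(p).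
Fibers: contained in {p | p ≤ x}, countable. {p | idx p < (w,ν)} ⊆ T w ∪ {p | W(p) = w, ν(p) < ν};
the second set is contained in a union of |ν| < κ many countable sets, so it has cardinality < κ
(κ uncountable); T w has cardinality ≤ |{v<w}| * κ < mk P ≤ continuum (both factors < mk P, infinite).
So the third condition holds. Fourth: if idx q < (w,ν) and q ∈ Nb k with idx k = (w,ν), then
k ∉ T w so q ∉ T w, so W(q) = w and ν(q) < ν, and this set has cardinality < κ.
-/


section aux
variable {P : Type} [PartialOrder P]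

/-- one-step relation: predecessors and neighbours -/
def StepR (p q : P) : Prop := q ≤ p ∨ q ∈ Nb p

/-- the closure of a point -/
def clR (w : P) : Set P := {x | Relation.ReflTransGen StepR w x}

theorem Iic_countable (hloc : ∀ x : P, (Set.Iio x).Countable) (x : P) : (Set.Iic x).Countable := by
  rw [← Set.Iio_insert]
  exact (hloc x).insert x

theorem mk_clR (hloc : ∀ x : P, (Set.Iio x).Countable) (κ : Cardinal.{0})
    (hκ : Cardinal.aleph0 < κ) (hN : ∀ p : P, Cardinal.mk (Nb p) ≤ κ) (w : P) :
    Cardinal.mk (clR w) ≤ κ := by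
  let S : ℕ → Set P := fun n => Nat.rec {w} (fun _ T => ⋃ x ∈ T, {y | StepR x y}) n
  have hS : ∀ n, Cardinal.mk (↥(S n)) ≤ κ := by
    intro n
    induction n with
    | zero =>
      change Cardinal.mk ({w} : Set P) ≤ κ
      rw [Cardinal.mk_singleton]
      exact (Cardinal.one_lt_aleph0.trans hκ).le
    | succ n ih =>
      change Cardinal.mk (⋃ x ∈ S n, {y | StepR x y} : Set P) ≤ κ
      refine (Cardinal.mk_biUnion_le _ _).trans ?_
      refine (mul_le_mul' ih (ciSup_le' (a := κ) ?_)).trans ?_
      · intro x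
        have : {y : P | StepR x.1 y} ⊆ Set.Iic x.1 ∪ Nb x.1 := by
          intro y hy
          rcases hy with h | h
          · exact Or.inl h
          · exact Or.inr h
        refine (Cardinal.mk_le_mk_of_subset this).trans ?_
        refine (Cardinal.mk_union_le _ _).trans ?_
        have h1 : Cardinal.mk (↥(Set.Iic x.1)) ≤ κ :=
          (Cardinal.le_aleph0_iff_set_countable.2 (Iic_countable hloc x.1)).trans hκ.le
        exact (Cardinal.add_le_of_le hκ.le h1 (hN x.1))
      · rw [Cardinal.mul_eq_self hκ.le]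
  have hsub : clR w ⊆ ⋃ n, S n := by
    intro x hx
    induction hx with
    | refl => exact Set.mem_iUnion.2 ⟨0, rfl⟩
    | tail _ hbc ih =>
      obtain ⟨n, hn⟩ := Set.mem_iUnion.1 ih
      refine Set.mem_iUnion.2 ⟨n + 1, ?_⟩
      change _ ∈ ⋃ x ∈ S n, {y | StepR x y}
      exact Set.mem_biUnion hn hbc
  refine (Cardinal.mk_le_mk_of_subset hsub).trans ?_
  refine (Cardinal.mk_iUnion_le _).trans ?_
  refine (mul_le_mul' (by rw [Cardinal.mk_nat]) (ciSup_le' (a := κ) hS)).trans ?_
  exact (Cardinal.mul_le_of_le hκ.le hκ.le le_rfl)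

theorem mk_biUnion_Iic (hloc : ∀ x : P, (Set.Iio x).Countable) {A : Type} (s : Set A) (g : A → P) :
    Cardinal.mk (⋃ j ∈ s, Set.Iic (g j) : Set P) ≤ Cardinal.mk s * Cardinal.aleph0 := by
  refine (Cardinal.mk_biUnion_le _ _).trans ?_
  refine mul_le_mul' le_rfl (ciSup_le' ?_)
  intro x
  exact Cardinal.le_aleph0_iff_set_countable.2 (Iic_countable hloc _)

theorem mul_aleph0_lt {a c : Cardinal.{0}} (ha : a < c) (hc : Cardinal.aleph0 < c) :
    a * Cardinal.aleph0 < c := Cardinal.mul_lt_of_lt hc.le ha hc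

theorem Nb_symm {p q : P} (h : q ∈ Nb p) : p ∈ Nb q := by
  obtain ⟨h1, h2, r, h3, h4⟩ := h
  exact ⟨h2, h1, r, h4, h3⟩

end aux

-- TARGET
theorem exists_index {P : Type} [PartialOrder P] (hP : Cardinal.mk P ≤ Cardinal.continuum)
    (hloc : ∀ x : P, (Set.Iio x).Countable) (κ : Cardinal.{0}) (hκ : Cardinal.aleph0 < κ)
    (hN : ∀ p : P, Cardinal.mk (Nb p) ≤ κ) :
    ∃ (I : Type) (_ : LinearOrder I) (_ : WellFoundedLT I) (idx : P → I),
      (∀ p q : P, q ≤ p → idx q ≤ idx p) ∧ (∀ i, {p | idx p = i}.Countable) ∧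
      (∀ i, Cardinal.mk {p | idx p < i} < Cardinal.continuum) ∧
      (∀ i, Cardinal.mk {q : P | idx q < i ∧ ∃ k, idx k = i ∧ q ∈ Nb k} < κ) := by
  classical
  obtain ⟨e⟩ : Nonempty (P ≃ (Cardinal.mk P).ord.ToType) := by
    apply Cardinal.eq.1
    rw [Cardinal.mk_toType, Cardinal.card_ord]
  rcases le_or_gt (Cardinal.mk P) κ with hA | hB
  · -- Case A
    have hne : ∀ p : P, {x : (Cardinal.mk P).ord.ToType | p ≤ e.symm x}.Nonempty := fun p =>
      ⟨e p, by simp⟩
    let idx : P → (Cardinal.mk P).ord.ToType := fun p =>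
      WellFounded.min (wellFounded_lt (α := (Cardinal.mk P).ord.ToType)) _ (hne p)
    have hmem : ∀ p, p ≤ e.symm (idx p) := fun p => WellFounded.min_mem _ _ (hne p)
    have hmin : ∀ p x, p ≤ e.symm x → idx p ≤ x := fun p x hx =>
      not_lt.1 (WellFounded.not_lt_min _ {x | p ≤ e.symm x} hx)
    have hlt : ∀ i, {p | idx p < i} ⊆ ⋃ j ∈ Set.Iio i, Set.Iic (e.symm j) := by
      intro i p hp
      exact Set.mem_biUnion (show idx p ∈ Set.Iio i from hp) (hmem p)
    have hIio : ∀ i : (Cardinal.mk P).ord.ToType, Cardinal.mk (Set.Iio i) < Cardinal.mk P :=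
      fun i => Cardinal.mk_Iio_toType_ord_lt i
    refine ⟨(Cardinal.mk P).ord.ToType, inferInstance, inferInstance, idx, ?_, ?_, ?_, ?_⟩
    · intro p q hqp
      exact hmin q _ (hqp.trans (hmem p))
    · intro i
      refine (Iic_countable hloc (e.symm i)).mono ?_
      intro p hp
      have : idx p = i := hp
      rw [← this]
      exact hmem p
    · intro i
      refine ((Cardinal.mk_le_mk_of_subset (hlt i)).trans (mk_biUnion_Iic hloc _ _)).trans_lt ?_
      exact mul_aleph0_lt ((hIio i).trans_le hP) Cardinal.aleph0_lt_continuum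
    · intro i
      have h1 : {q : P | idx q < i ∧ ∃ k, idx k = i ∧ q ∈ Nb k} ⊆ {p | idx p < i} :=
        fun q hq => hq.1
      refine (((Cardinal.mk_le_mk_of_subset h1).trans
        (Cardinal.mk_le_mk_of_subset (hlt i))).trans (mk_biUnion_Iic hloc _ _)).trans_lt ?_
      exact mul_aleph0_lt ((hIio i).trans_le hA) hκ
  · -- Case B
    have hstep : ∀ w x y : P, x ∈ clR w → StepR x y → y ∈ clR w := fun w x y hx hxy =>
      Relation.ReflTransGen.tail hx hxy
    have hself : ∀ w : P, w ∈ clR w := fun w => Relation.ReflTransGen.refl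
    have hmkA2 : Cardinal.mk κ.ord.ToType = κ := by rw [Cardinal.mk_toType, Cardinal.card_ord]
    have hh : ∀ w : P, ∃ h : κ.ord.ToType → P, ∀ x ∈ clR w, ∃ ν, h ν = x := by
      intro w
      have h1 : Cardinal.mk (clR w) ≤ Cardinal.mk κ.ord.ToType := by
        rw [hmkA2]; exact mk_clR hloc κ hκ hN w
      obtain ⟨g⟩ := Cardinal.le_def _ _ |>.1 h1
      have : Nonempty (clR w) := ⟨⟨w, hself w⟩⟩
      refine ⟨fun ν => (Function.invFun g ν : clR w), ?_⟩
      intro x hx
      refine ⟨g ⟨x, hx⟩, ?_⟩
      exact congrArg Subtype.val (Function.leftInverse_invFun g.injective ⟨x, hx⟩)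
    choose h hsurj using hh
    have hneW : ∀ p : P, {x : (Cardinal.mk P).ord.ToType | p ∈ clR (e.symm x)}.Nonempty := fun p =>
      ⟨e p, by simpa using hself p⟩
    let W : P → (Cardinal.mk P).ord.ToType := fun p =>
      WellFounded.min (wellFounded_lt (α := (Cardinal.mk P).ord.ToType)) _ (hneW p)
    have hWmem : ∀ p, p ∈ clR (e.symm (W p)) := fun p => WellFounded.min_mem _ _ (hneW p)
    have hWmin : ∀ p x, p ∈ clR (e.symm x) → W p ≤ x := fun p x hx =>
      not_lt.1 (WellFounded.not_lt_min _ {x | p ∈ clR (e.symm x)} hx)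
    have hneV : ∀ p : P, {x : κ.ord.ToType | p ≤ h (e.symm (W p)) x}.Nonempty := fun p => by
      obtain ⟨ν, hν⟩ := hsurj _ p (hWmem p)
      exact ⟨ν, hν.ge⟩
    let V : P → κ.ord.ToType := fun p =>
      WellFounded.min (wellFounded_lt (α := κ.ord.ToType)) _ (hneV p)
    have hVmem : ∀ p, p ≤ h (e.symm (W p)) (V p) := fun p => WellFounded.min_mem _ _ (hneV p)
    have hVmin : ∀ p x, p ≤ h (e.symm (W p)) x → V p ≤ x := fun p x hx =>
      not_lt.1 (WellFounded.not_lt_min _ {x | p ≤ h (e.symm (W p)) x} hx)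
    have hWstep : ∀ p q : P, StepR p q → W q ≤ W p := fun p q hpq =>
      hWmin q _ (hstep _ _ _ (hWmem p) hpq)
    let idx : P → (Cardinal.mk P).ord.ToType ×ₗ κ.ord.ToType := fun p => toLex (W p, V p)
    have hidxlt : ∀ p w ν, idx p < toLex (w, ν) ↔ W p < w ∨ W p = w ∧ V p < ν := by
      intro p w ν
      exact Prod.Lex.toLex_lt_toLex
    have hV : ∀ w ν, {p | W p = w ∧ V p < ν} ⊆ ⋃ j ∈ Set.Iio ν, Set.Iic (h (e.symm w) j) := by
      intro w ν p hp
      obtain ⟨hp1, hp2⟩ := hp
      refine Set.mem_biUnion (show V p ∈ Set.Iio ν from hp2) ?_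
      rw [← hp1]
      exact hVmem p
    have hVcard : ∀ w ν, Cardinal.mk {p | W p = w ∧ V p < ν} < κ := by
      intro w ν
      refine ((Cardinal.mk_le_mk_of_subset (hV w ν)).trans (mk_biUnion_Iic hloc _ _)).trans_lt ?_
      exact mul_aleph0_lt (Cardinal.mk_Iio_toType_ord_lt ν) hκ
    have hWcard : ∀ w, Cardinal.mk {p | W p < w} < Cardinal.mk P := by
      intro w
      have hsub : {p | W p < w} ⊆ ⋃ j ∈ Set.Iio w, clR (e.symm j) := fun p hp =>
        Set.mem_biUnion (show W p ∈ Set.Iio w from hp) (hWmem p)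
      refine (Cardinal.mk_le_mk_of_subset hsub).trans_lt ?_
      refine (Cardinal.mk_biUnion_le _ _).trans_lt ?_
      refine (mul_le_mul' le_rfl (ciSup_le' (a := κ) fun x => mk_clR hloc κ hκ hN _)).trans_lt ?_
      exact Cardinal.mul_lt_of_lt (hκ.trans hB).le (Cardinal.mk_Iio_toType_ord_lt w) hB
    refine ⟨(Cardinal.mk P).ord.ToType ×ₗ κ.ord.ToType, inferInstance, inferInstance, idx,
      ?_, ?_, ?_, ?_⟩
    · intro p q hqp
      have h1 : W q ≤ W p := hWstep p q (Or.inl hqp)
      change toLex (W q, V q) ≤ toLex (W p, V p)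
      rw [Prod.Lex.toLex_le_toLex]
      rcases h1.lt_or_eq with h2 | h2
      · exact Or.inl h2
      · refine Or.inr ⟨h2, hVmin q _ ?_⟩
        change q ≤ h (e.symm (W q)) (V p)
        rw [h2]
        exact hqp.trans (hVmem p)
    · intro i
      refine (Iic_countable hloc (h (e.symm (ofLex i).1) (ofLex i).2)).mono ?_
      intro p hp
      have h1 : idx p = i := hp
      rw [← h1]
      exact hVmem p
    · intro i
      have hsub : {p | idx p < i} ⊆ {p | W p < (ofLex i).1} ∪
          {p | W p = (ofLex i).1 ∧ V p < (ofLex i).2} := by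
        intro p hp
        exact (hidxlt p (ofLex i).1 (ofLex i).2).1 hp
      refine (Cardinal.mk_le_mk_of_subset hsub).trans_lt ?_
      refine (Cardinal.mk_union_le _ _).trans_lt ?_
      refine Cardinal.add_lt_of_lt Cardinal.aleph0_lt_continuum.le ?_ ?_
      · exact (hWcard _).trans_le hP
      · exact ((hVcard _ _).trans hB).trans_le hP
    · intro i
      have hsub : {q : P | idx q < i ∧ ∃ k, idx k = i ∧ q ∈ Nb k} ⊆
          {p | W p = (ofLex i).1 ∧ V p < (ofLex i).2} := by
        rintro q ⟨hq, k, hk, hqk⟩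
        rcases (hidxlt q (ofLex i).1 (ofLex i).2).1 hq with h1 | h1
        · exfalso
          have h2 : W k ≤ W q := hWstep q k (Or.inr (Nb_symm hqk))
          have h3 : W k = (ofLex i).1 := by rw [← hk]; rfl
          rw [← h3] at h1
          exact absurd h1 (not_lt.2 h2)
        · exact h1
      exact (Cardinal.mk_le_mk_of_subset hsub).trans_lt (hVcard _ _)

end Pool.Agent.H246
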