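import Mathlib
import Pool.Agent.H246.TDefs
import Pool.Agent.H246.Basic

set_option autoImplicit false

/-! Density of the requirements of the tree. -/

namespace Pool.Agent.H246

open Pool.Agent.Helper743

/-- `(N', c')` extends `(N, c)` -/
def Ext {I : Type} (N : ℕ) (c : I → ℕ → List ℕ) (N' : ℕ) (c' : I → ℕ → List ℕ) : Prop :=
  N ≤ N' ∧ ∀ i, ∀ n < N, c' i n = c i n

theorem split_dense {I : Type} (N : ℕ) (c : I → ℕ → List ℕ) (e : I → ℕ → Option I)
    (he0 : ∀ i, e i 0 = none) (heN : ∀ i n, N ≤ n → e i n = none)
    (ev : List ℕ → ℕ → Option ℕ) (hev : IsFn ev) (R R' : List I) :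
    ∃ N' c', Ext N c N' c' ∧
      ((∃ m v v', v ≠ v' ∧ ∀ g, Follows c' e N' g → Hal ev (J g R) m v ∧ Hal ev (J g R') m v') ∨
      (∀ g, Follows c' e N' g →
        ∀ m v v', Hal ev (J g R) m v → Hal ev (J g R') m v' → v = v')) := by
  by_cases hcase : ∀ g, Follows c e N g →
      ∀ m v v', Hal ev (J g R) m v → Hal ev (J g R') m v' → v = v'
  · exact ⟨N, c, ⟨le_rfl, fun _ _ _ => rfl⟩, Or.inr hcase⟩
  · push Not at hcase
    obtain ⟨g, hg, m, v, v', ⟨a, ha⟩, ⟨b, hb⟩, hne⟩ := hcase
    obtain ⟨u, hu1, hu2⟩ : ∃ u, a ≤ u ∧ b ≤ u := ⟨max a b, le_max_left a b, le_max_right a b⟩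
    have hau : ev (pre (J g R) u) m = some v := hev.2 _ _ _ _ (pre_prefix _ hu1) ha
    have hbu : ev (pre (J g R') u) m = some v' := hev.2 _ _ _ _ (pre_prefix _ hu2) hb
    refine ⟨max N u, fun i n => if n < N then c i n else
      (List.range u).map (fun t => g i (Nat.pair n t)),
      ⟨le_max_left _ _, fun i n hn => if_pos hn⟩, Or.inl ⟨m, v, v', hne, ?_⟩⟩
    intro g' hg'
    have claim : ∀ j, j < u → ∀ i, g' i j = g i j := by
      intro j
      induction j using Nat.strong_induction_on with
      | _ j ih =>
        intro hj i
        obtain ⟨n, t, hjp⟩ : ∃ n t, Nat.pair n t = j := ⟨j.unpair.1, j.unpair.2, Nat.pair_unpair j⟩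
        have hnj : n ≤ j := hjp ▸ Nat.left_le_pair n t
        have htj : t ≤ j := hjp ▸ Nat.right_le_pair n t
        have h1 := hg' i n t (lt_of_lt_of_le (lt_of_le_of_lt hnj hj) (le_max_right _ _))
        rw [← hjp, h1]
        by_cases hnN : n < N
        · rw [hg i n t hnN]
          simp only [if_pos hnN]
          unfold rv
          cases hc : e i n with
          | none => rfl
          | some i' =>
            have hn0 : n ≠ 0 := by
              rintro rfl
              rw [he0] at hc
              cases hc
            have h2 := Nat.add_le_pair n t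
            have h3 : t < j := by omega
            simp only [ih t h3 (h3.trans hj) i']
        · simp only [if_neg hnN]
          unfold rv
          have ht : t < u := lt_of_le_of_lt htj hj
          simp [ht]
    have hJ : ∀ R : List I, pre (J g' R) u = pre (J g R) u := by
      intro R
      apply List.map_congr_left
      intro t ht
      rw [List.mem_range] at ht
      unfold J
      cases R[t.unpair.1]? with
      | none => rfl
      | some q => exact claim _ (lt_of_le_of_lt (Nat.unpair_right_le t) ht) q
    exact ⟨⟨u, by rw [hJ]; exact hau⟩, ⟨u, by rw [hJ]; exact hbu⟩⟩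

theorem diag_dense {I : Type} (N : ℕ) (c : I → ℕ → List ℕ) (e : I → ℕ → Option I)
    (he0 : ∀ i, e i 0 = none) (heN : ∀ i n, N ≤ n → e i n = none)
    (ev : List ℕ → ℕ → Option ℕ) (hev : IsFn ev) (D : Set I)
    (hD : ∀ i ∈ D, ∀ n i', e i n = some i' → i' ∈ D) (i₀ : I) (hi₀ : i₀ ∉ D)
    (R : List I) (hR : ∀ i ∈ R, i ∈ D) :
    ∃ N' c', Ext N c N' c' ∧
      ∀ g, Follows c' e N' g →
        ∀ w : ℕ → ℕ, (∀ n < N', ∀ b v, (c' i₀ n)[b]? = some v → w (Nat.pair n b) = v) →
        ¬ ∀ m, Hal ev (J g R) m (w m) := by
  classical
  by_cases hcase : ∃ g, Follows c e N g ∧ ∃ v, Hal ev (J g R) (Nat.pair N 0) v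
  · obtain ⟨g, hg, v, u, hu⟩ := hcase
    refine ⟨max (N + 1) u, fun i n => if n < N then c i n else
      if i = i₀ then [v + 1] else (List.range u).map (fun t => g i (Nat.pair n t)), ?_, ?_⟩
    · refine ⟨by omega, ?_⟩
      intro i n hn
      simp only [if_pos hn]
    · intro g' hg' w hw hall
      have key : ∀ j, j < u → ∀ i ∈ D, g' i j = g i j := by
        intro j
        induction j using Nat.strong_induction_on with
        | _ j ih =>
          intro hj i hi
          obtain ⟨n, t, hnt⟩ : ∃ n t, j = Nat.pair n t := ⟨j.unpair.1, j.unpair.2, by simp⟩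
          have hle := Nat.add_le_pair n t
          have h1 := hg' i n t (by omega)
          rw [hnt, h1]
          by_cases hn : n < N
          · rw [hg i n t hn]
            simp only [if_pos hn]
            unfold rv
            cases hcl : (c i n)[t]? with
            | some a => rfl
            | none =>
              cases hei : e i n with
              | none => rfl
              | some i' =>
                have hn0 : n ≠ 0 := by
                  rintro rfl
                  rw [he0] at hei
                  exact absurd hei (by simp)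
                have h2 := ih t (by omega) (by omega) i' (hD i hi n i' hei)
                simpa using h2
          · have hii : i ≠ i₀ := fun h => hi₀ (h ▸ hi)
            simp only [if_neg hn, if_neg hii]
            unfold rv
            have htu : t < u := by omega
            rw [List.getElem?_map, List.getElem?_range htu]
            rfl
      have hJ : pre (J g' R) u = pre (J g R) u := by
        unfold pre
        apply List.map_congr_left
        intro t ht
        rw [List.mem_range] at ht
        unfold J
        cases hRt : R[t.unpair.1]? with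
        | none => rfl
        | some q =>
          have hq : q ∈ D := hR q (List.mem_of_getElem? hRt)
          have h2 : t.unpair.2 ≤ t := Nat.unpair_right_le t
          exact key _ (by omega) q hq
      have h1 : Hal ev (J g' R) (Nat.pair N 0) v := ⟨u, by rw [hJ]; exact hu⟩
      have h2 : w (Nat.pair N 0) = v + 1 := by
        apply hw N (by omega) 0 (v + 1)
        simp
      have h3 := Hal.unique hev h1 (hall (Nat.pair N 0))
      omega
  · refine ⟨N, c, ⟨le_rfl, fun _ _ _ => rfl⟩, ?_⟩
    intro g hg w _ hall
    exact hcase ⟨g, hg, _, hall (Nat.pair N 0)⟩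

end Pool.Agent.H246
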