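import Mathlib
import Pool.Agent.H246.TDense

set_option autoImplicit false

/-! All requirements of one level; transfer to general index types. -/

namespace Pool.Agent.H246

open Pool.Agent.Helper743

/-- the two requirements at level `k` hold for the functional `ev'`, the columns `c` below `N`, with
special columns in `Sp` -/
def SplitAt (ev' : List ℕ → ℕ → Option ℕ) (Sp : Set ℕ) (k N : ℕ)
    (c : (Fin k → Bool) → ℕ → List ℕ) : Prop :=
  ∀ e : (Fin k → Bool) → ℕ → Option (Fin k → Bool), (∀ i n, n ∉ Sp → e i n = none) →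
    ∀ R R' : List (Fin k → Bool), R.length ≤ k → R'.length ≤ k →
    (∃ m v v', v ≠ v' ∧ ∀ g, Follows c e N g → Hal ev' (J g R) m v ∧ Hal ev' (J g R') m v') ∨
    (∀ g, Follows c e N g → ∀ m v v', Hal ev' (J g R) m v → Hal ev' (J g R') m v' → v = v')

/-- see `SplitAt` -/
def DiagAt (ev' : List ℕ → ℕ → Option ℕ) (Sp : Set ℕ) (k N : ℕ)
    (c : (Fin k → Bool) → ℕ → List ℕ) : Prop :=
  ∀ e : (Fin k → Bool) → ℕ → Option (Fin k → Bool), (∀ i n, n ∉ Sp → e i n = none) →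
    ∀ D : Set (Fin k → Bool), (∀ i ∈ D, ∀ n i', e i n = some i' → i' ∈ D) →
    ∀ i₀ ∉ D, ∀ R : List (Fin k → Bool), R.length ≤ k → (∀ i ∈ R, i ∈ D) →
    ∀ g, Follows c e N g →
    ∀ w : ℕ → ℕ, (∀ n < N, ∀ b v, (c i₀ n)[b]? = some v → w (Nat.pair n b) = v) →
    ¬ ∀ m, Hal ev' (J g R) m (w m)

theorem meet_all {α : Type} [Preorder α] {ι : Type} [Finite ι] (Rq : ι → α → Prop)
    (hp : ∀ i a b, a ≤ b → Rq i a → Rq i b) (hd : ∀ i a, ∃ b, a ≤ b ∧ Rq i b) (a : α) :
    ∃ b, a ≤ b ∧ ∀ i, Rq i b := by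
  classical
  have _ : Fintype ι := Fintype.ofFinite ι
  have key : ∀ s : Finset ι, ∀ a : α, ∃ b, a ≤ b ∧ ∀ i ∈ s, Rq i b := by
    intro s
    induction s using Finset.induction_on with
    | empty => intro a; exact ⟨a, le_refl a, fun i hi => absurd hi (Finset.notMem_empty i)⟩
    | insert i s _ ih =>
      intro a
      obtain ⟨b, hab, hb⟩ := ih a
      obtain ⟨b', hbb', hb'⟩ := hd i b
      refine ⟨b', le_trans hab hbb', fun j hj => ?_⟩
      rcases Finset.mem_insert.1 hj with rfl | hj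
      · exact hb'
      · exact hp j b b' hbb' (hb j hj)
  obtain ⟨b, hab, hb⟩ := key Finset.univ a
  exact ⟨b, hab, fun i => hb i (Finset.mem_univ i)⟩

theorem Ext.follows {I : Type} {N N' : ℕ} {c c' : I → ℕ → List ℕ} (h : Ext N c N' c')
    {e : I → ℕ → Option I} {g : I → ℕ → ℕ} (hg : Follows c' e N' g) : Follows c e N g := by
  intro i n a hn
  have := hg i n a (lt_of_lt_of_le hn h.1)
  rw [h.2 i n hn] at this
  exact this

/-- conditions: columns below `N`, with `Sp` below `N` -/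
def Cnd (I : Type) (Sp : Finset ℕ) : Type := {p : ℕ × (I → ℕ → List ℕ) // ∀ n ∈ Sp, n < p.1}

instance (I : Type) (Sp : Finset ℕ) : Preorder (Cnd I Sp) where
  le p q := Ext p.1.1 p.1.2 q.1.1 q.1.2
  le_refl p := ⟨le_refl _, fun _ _ _ => rfl⟩
  le_trans p q r h1 h2 := ⟨le_trans h1.1 h2.1, fun i n hn => by
    rw [h2.2 i n (lt_of_lt_of_le hn h1.1), h1.2 i n hn]⟩

theorem finite_refs {I : Type} [Finite I] (Sp : Finset ℕ) :
    Finite {e : I → ℕ → Option I // ∀ i n, n ∉ (Sp : Set ℕ) → e i n = none} := by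
  let φ : {e : I → ℕ → Option I // ∀ i n, n ∉ (Sp : Set ℕ) → e i n = none} →
      (I → Sp → Option I) := fun e i n => e.1 i n.1
  refine Finite.of_injective φ ?_
  intro e e' h
  apply Subtype.ext
  funext i n
  by_cases hn : n ∈ Sp
  · exact congrFun (congrFun h i) ⟨n, hn⟩
  · rw [e.2 i n (by simpa using hn), e'.2 i n (by simpa using hn)]

/-- the split requirement -/
def RqS {I : Type} (ev' : List ℕ → ℕ → Option ℕ) (e : I → ℕ → Option I) (R R' : List I)
    (N : ℕ) (c : I → ℕ → List ℕ) : Prop :=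
  (∃ m v v', v ≠ v' ∧ ∀ g, Follows c e N g → Hal ev' (J g R) m v ∧ Hal ev' (J g R') m v') ∨
    (∀ g, Follows c e N g → ∀ m v v', Hal ev' (J g R) m v → Hal ev' (J g R') m v' → v = v')

/-- the diagonal requirement -/
def RqD {I : Type} (ev' : List ℕ → ℕ → Option ℕ) (e : I → ℕ → Option I) (D : Set I) (i₀ : I)
    (R : List I) (N : ℕ) (c : I → ℕ → List ℕ) : Prop :=
  (∀ i ∈ D, ∀ n i', e i n = some i' → i' ∈ D) → i₀ ∉ D → (∀ i ∈ R, i ∈ D) →
    ∀ g, Follows c e N g →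
    ∀ w : ℕ → ℕ, (∀ n < N, ∀ b v, (c i₀ n)[b]? = some v → w (Nat.pair n b) = v) →
    ¬ ∀ m, Hal ev' (J g R) m (w m)

theorem RqS_mono {I : Type} {ev' : List ℕ → ℕ → Option ℕ} {e : I → ℕ → Option I} {R R' : List I}
    {N N' : ℕ} {c c' : I → ℕ → List ℕ} (h : Ext N c N' c') (hr : RqS ev' e R R' N c) :
    RqS ev' e R R' N' c' := by
  rcases hr with ⟨m, v, v', hv, hg⟩ | hg
  · exact Or.inl ⟨m, v, v', hv, fun g h' => hg g (h.follows h')⟩
  · exact Or.inr fun g h' => hg g (h.follows h')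

theorem RqD_mono {I : Type} {ev' : List ℕ → ℕ → Option ℕ} {e : I → ℕ → Option I} {D : Set I}
    {i₀ : I} {R : List I} {N N' : ℕ} {c c' : I → ℕ → List ℕ} (h : Ext N c N' c')
    (hr : RqD ev' e D i₀ R N c) : RqD ev' e D i₀ R N' c' := by
  intro h1 h2 h3 g hg w hw
  refine hr h1 h2 h3 g (h.follows hg) w ?_
  intro n hn b v hb
  refine hw n (lt_of_lt_of_le hn h.1) b v ?_
  rw [h.2 i₀ n hn]
  exact hb

theorem level_step (ev : ℕ → List ℕ → ℕ → Option ℕ) (hev : ∀ a, IsFn (ev a)) (k : ℕ)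
    (Sp : Finset ℕ) (h0 : 0 ∉ Sp) (N : ℕ) (hN : ∀ n ∈ Sp, n < N)
    (c : (Fin k → Bool) → ℕ → List ℕ) :
    ∃ N' c', Ext N c N' c' ∧ ∀ a < k, SplitAt (ev a) Sp k N' c' ∧ DiagAt (ev a) Sp k N' c' := by
  have _f1 : Finite {e : (Fin k → Bool) → ℕ → Option (Fin k → Bool) //
      ∀ i n, n ∉ (Sp : Set ℕ) → e i n = none} := finite_refs Sp
  have _f2 : Finite {R : List (Fin k → Bool) // R.length ≤ k} :=
    (List.finite_length_le (Fin k → Bool) k).to_subtype
  obtain ⟨b, hab, hb⟩ := meet_all (α := Cnd (Fin k → Bool) Sp)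
    (ι := (Fin k × {e : (Fin k → Bool) → ℕ → Option (Fin k → Bool) //
        ∀ i n, n ∉ (Sp : Set ℕ) → e i n = none} × {R : List (Fin k → Bool) // R.length ≤ k} ×
        {R : List (Fin k → Bool) // R.length ≤ k}) ⊕
      (Fin k × {e : (Fin k → Bool) → ℕ → Option (Fin k → Bool) //
        ∀ i n, n ∉ (Sp : Set ℕ) → e i n = none} × Set (Fin k → Bool) × (Fin k → Bool) ×
        {R : List (Fin k → Bool) // R.length ≤ k}))
    (fun i p => Sum.elim
      (fun j => RqS (ev j.1) j.2.1.1 j.2.2.1.1 j.2.2.2.1 p.1.1 p.1.2)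
      (fun j => RqD (ev j.1) j.2.1.1 j.2.2.1 j.2.2.2.1 j.2.2.2.2.1 p.1.1 p.1.2) i)
    (by
      rintro (i | i) p q hpq hr
      · exact RqS_mono hpq hr
      · exact RqD_mono hpq hr)
    (by
      rintro (⟨a, e, R, R'⟩ | ⟨a, e, D, i₀, R⟩) ⟨⟨M, d⟩, hM⟩
      · obtain ⟨N', c', hE, hr⟩ := split_dense M d e.1 (fun i => e.2 i 0 (by simpa using h0))
          (fun i n hn => e.2 i n (by
            intro hn'
            exact absurd (hM n (by simpa using hn')) (not_lt.2 hn)))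
          (ev a) (hev a) R.1 R'.1
        exact ⟨⟨⟨N', c'⟩, fun n hn => lt_of_lt_of_le (hM n hn) hE.1⟩, hE, hr⟩
      · by_cases h1 : ∀ i ∈ D, ∀ n i', e.1 i n = some i' → i' ∈ D
        · by_cases h2 : i₀ ∉ D
          · by_cases h3 : ∀ i ∈ R.1, i ∈ D
            · obtain ⟨N', c', hE, hr⟩ := diag_dense M d e.1
                (fun i => e.2 i 0 (by simpa using h0))
                (fun i n hn => e.2 i n (by
                  intro hn'
                  exact absurd (hM n (by simpa using hn')) (not_lt.2 hn)))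
                (ev a) (hev a) D h1 i₀ h2 R.1 h3
              exact ⟨⟨⟨N', c'⟩, fun n hn => lt_of_lt_of_le (hM n hn) hE.1⟩, hE,
                fun _ _ _ => hr⟩
            · exact ⟨⟨⟨M, d⟩, hM⟩, le_refl _, fun _ _ h => absurd h h3⟩
          · exact ⟨⟨⟨M, d⟩, hM⟩, le_refl _, fun _ h _ => absurd h h2⟩
        · exact ⟨⟨⟨M, d⟩, hM⟩, le_refl _, fun h _ _ => absurd h h1⟩)
    ⟨(N, c), hN⟩
  refine ⟨b.1.1, b.1.2, hab, fun a ha => ⟨?_, ?_⟩⟩
  · intro e he R R' hR hR'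
    exact hb (Sum.inl (⟨a, ha⟩, ⟨e, he⟩, ⟨R, hR⟩, ⟨R', hR'⟩))
  · intro e he D hD i₀ hi₀ R hR hRD
    exact hb (Sum.inr (⟨a, ha⟩, ⟨e, he⟩, D, i₀, ⟨R, hR⟩)) hD hi₀ hRD

open Classical in
/-- the family on the nodes induced by `g` -/
noncomputable def gbar {I : Type} {k : ℕ} (x : I → ℕ → Bool) (c : (Fin k → Bool) → ℕ → List ℕ)
    (g : I → ℕ → ℕ) (σ : Fin k → Bool) (j : ℕ) : ℕ :=
  if h : ∃ i, (fun a : Fin k => x i a) = σ then g h.choose j
  else ((c σ j.unpair.1)[j.unpair.2]?).getD 0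

open Classical in
/-- the references on the nodes induced by `e` -/
noncomputable def ebar {I : Type} {k : ℕ} (x : I → ℕ → Bool) (e : I → ℕ → Option I) (N : ℕ)
    (σ : Fin k → Bool) (n : ℕ) : Option (Fin k → Bool) :=
  if h : ∃ i, (fun a : Fin k => x i a) = σ then
    (if n < N then (e h.choose n).map (fun i a => x i a) else none)
  else none

lemma iota_inj {I : Type} {k : ℕ} (x : I → ℕ → Bool) (hx : ∀ i i', Agr k (x i) (x i') → i = i')
    (i i' : I) (h : (fun a : Fin k => x i a) = (fun a : Fin k => x i' a)) : i = i' :=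
  hx i i' fun t ht => congrFun h ⟨t, ht⟩

lemma gbar_iota {I : Type} {k : ℕ} (x : I → ℕ → Bool) (hx : ∀ i i', Agr k (x i) (x i') → i = i')
    (c : (Fin k → Bool) → ℕ → List ℕ) (g : I → ℕ → ℕ) (i : I) :
    gbar x c g (fun a : Fin k => x i a) = g i := by
  have h : ∃ i', (fun a : Fin k => x i' a) = (fun a : Fin k => x i a) := ⟨i, rfl⟩
  funext j
  unfold gbar
  rw [dif_pos h, iota_inj x hx _ _ h.choose_spec]

lemma ebar_iota {I : Type} {k : ℕ} (x : I → ℕ → Bool) (hx : ∀ i i', Agr k (x i) (x i') → i = i')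
    (e : I → ℕ → Option I) (N : ℕ) (i : I) (n : ℕ) :
    ebar x e N (fun a : Fin k => x i a) n =
      if n < N then (e i n).map (fun i (a : Fin k) => x i a) else none := by
  have h : ∃ i', (fun a : Fin k => x i' a) = (fun a : Fin k => x i a) := ⟨i, rfl⟩
  unfold ebar
  rw [dif_pos h, iota_inj x hx _ _ h.choose_spec]

lemma ebar_none {I : Type} {k : ℕ} (x : I → ℕ → Bool)
    (e : I → ℕ → Option I) (N : ℕ) (Sp : Set ℕ) (he : ∀ i, ∀ n < N, n ∉ Sp → e i n = none)
    (σ : Fin k → Bool) (n : ℕ) (hn : n ∉ Sp) : ebar x e N σ n = none := by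
  unfold ebar
  split_ifs with h h2
  · rw [he _ n h2 hn]; rfl
  · rfl
  · rfl

lemma ebar_range {I : Type} {k : ℕ} (x : I → ℕ → Bool)
    (e : I → ℕ → Option I) (N : ℕ) (σ σ' : Fin k → Bool) (n : ℕ)
    (h : ebar x e N σ n = some σ') : σ' ∈ Set.range (fun i (a : Fin k) => x i a) := by
  unfold ebar at h
  split_ifs at h with h1 h2
  obtain ⟨i, _, hi⟩ := Option.map_eq_some_iff.mp h
  exact ⟨i, hi⟩

lemma J_gbar {I : Type} {k : ℕ} (x : I → ℕ → Bool) (hx : ∀ i i', Agr k (x i) (x i') → i = i')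
    (c : (Fin k → Bool) → ℕ → List ℕ) (g : I → ℕ → ℕ) (R : List I) :
    J (gbar x c g) (R.map (fun i (a : Fin k) => x i a)) = J g R := by
  funext t
  unfold J
  rw [List.getElem?_map]
  cases R[t.unpair.1]? with
  | none => rfl
  | some q => simp only [Option.map_some]; rw [gbar_iota x hx]

lemma follows_gbar {I : Type} {k : ℕ} (x : I → ℕ → Bool)
    (hx : ∀ i i', Agr k (x i) (x i') → i = i')
    (c : (Fin k → Bool) → ℕ → List ℕ) (N : ℕ) (c' : I → ℕ → List ℕ)
    (hc : ∀ i, ∀ n < N, c' i n = c (fun a => x i a) n) (e : I → ℕ → Option I)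
    (g : I → ℕ → ℕ) (hg : Follows c' e N g) : Follows c (ebar x e N) N (gbar x c g) := by
  intro σ n a hn
  by_cases h : ∃ i, (fun a : Fin k => x i a) = σ
  · obtain ⟨i, rfl⟩ := h
    rw [gbar_iota x hx, ebar_iota x hx, if_pos hn, hg i n a hn, hc i n hn]
    unfold rv
    cases e i n with
    | none => rfl
    | some q => simp only [Option.map_some]; rw [gbar_iota x hx]
  · unfold gbar ebar rv
    rw [dif_neg h, dif_neg h, Nat.unpair_pair]

theorem transfer_split (ev' : List ℕ → ℕ → Option ℕ) (Sp : Set ℕ) (k N : ℕ)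
    (c : (Fin k → Bool) → ℕ → List ℕ) (h0 : 0 ∉ Sp) (hs : SplitAt ev' Sp k N c)
    (I : Type) (x : I → ℕ → Bool) (hx : ∀ i i', Agr k (x i) (x i') → i = i')
    (c' : I → ℕ → List ℕ) (hc : ∀ i, ∀ n < N, c' i n = c (fun a => x i a) n)
    (e : I → ℕ → Option I) (he : ∀ i, ∀ n < N, n ∉ Sp → e i n = none)
    (R R' : List I) (hR : R.length ≤ k) (hR' : R'.length ≤ k) :
    (∃ m v v', v ≠ v' ∧ ∀ g, Follows c' e N g → Hal ev' (J g R) m v ∧ Hal ev' (J g R') m v') ∨
    (∀ g, Follows c' e N g → ∀ m v v', Hal ev' (J g R) m v → Hal ev' (J g R') m v' → v = v') := by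
  rcases hs (ebar x e N) (fun i n hn => ebar_none x e N Sp he i n hn)
      (R.map (fun i (a : Fin k) => x i a)) (R'.map (fun i (a : Fin k) => x i a))
      (by simpa using hR) (by simpa using hR') with ⟨m, v, v', hv, H⟩ | H
  · left
    refine ⟨m, v, v', hv, fun g hg => ?_⟩
    have := H (gbar x c g) (follows_gbar x hx c N c' hc e g hg)
    rwa [J_gbar x hx, J_gbar x hx] at this
  · right
    intro g hg m v v'
    have := H (gbar x c g) (follows_gbar x hx c N c' hc e g hg) m v v'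
    rwa [J_gbar x hx, J_gbar x hx] at this

theorem transfer_diag (ev' : List ℕ → ℕ → Option ℕ) (Sp : Set ℕ) (k N : ℕ)
    (c : (Fin k → Bool) → ℕ → List ℕ) (h0 : 0 ∉ Sp) (hs : DiagAt ev' Sp k N c)
    (I : Type) (x : I → ℕ → Bool) (hx : ∀ i i', Agr k (x i) (x i') → i = i')
    (c' : I → ℕ → List ℕ) (hc : ∀ i, ∀ n < N, c' i n = c (fun a => x i a) n)
    (e : I → ℕ → Option I) (he : ∀ i, ∀ n < N, n ∉ Sp → e i n = none)
    (y : ℕ → Bool) (hy : ∀ i, ¬ Agr k y (x i)) (R : List I) (hR : R.length ≤ k)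
    (g : I → ℕ → ℕ) (hg : Follows c' e N g) (w : ℕ → ℕ)
    (hw : ∀ n < N, ∀ b v, (c (fun a => y a) n)[b]? = some v → w (Nat.pair n b) = v) :
    ¬ ∀ m, Hal ev' (J g R) m (w m) := by
  have := hs (ebar x e N) (fun i n hn => ebar_none x e N Sp he i n hn)
    (Set.range (fun i (a : Fin k) => x i a)) (fun i _ n i' h => ebar_range x e N i i' n h)
    (fun a => y a) (by
      rintro ⟨i, hi⟩
      exact hy i fun t ht => (congrFun hi ⟨t, ht⟩).symm)
    (R.map (fun i (a : Fin k) => x i a)) (by simpa using hR)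
    (by
      intro i hi
      obtain ⟨q, _, rfl⟩ := List.mem_map.mp hi
      exact ⟨q, rfl⟩)
    (gbar x c g) (follows_gbar x hx c N c' hc e g hg) w hw
  rwa [J_gbar x hx] at this

end Pool.Agent.H246
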