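import Mathlib
import Pool.Agent.H246.TStep

set_option autoImplicit false

/-! Existence of the tree. -/

namespace Pool.Agent.H246

open Pool.Agent.Helper743

/-- a state of the recursion -/
structure St5208 where
  N : ℕ
  Sp : Finset ℕ
  c : (ℕ → Bool) → ℕ → List ℕ

/-- admissible states -/
def Ok5208 (s : St5208) : Prop := 0 < s.N ∧ (∀ n ∈ s.Sp, n < s.N) ∧ 0 ∉ s.Sp

/-- the columns with the two new ones -/
def d5208 (s : St5208) (k : ℕ) (x : ℕ → Bool) (n : ℕ) : List ℕ :=
  if n < s.N then s.c x n else if n = s.N then [] else [if x k = true then 1 else 0]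

/-- extension by `false` -/
def ex5208 {k : ℕ} (σ : Fin k → Bool) (a : ℕ) : Bool := if h : a < k then σ ⟨a, h⟩ else false

/-- one step -/
def Stp5208 (ev : ℕ → List ℕ → ℕ → Option ℕ) (k : ℕ) (s s' : St5208) : Prop :=
  s.N + 2 ≤ s'.N ∧ s'.Sp = insert s.N s.Sp ∧
  ∃ c' : (Fin (k+1) → Bool) → ℕ → List ℕ, (∀ x n, s'.c x n = c' (fun a => x a) n) ∧
    (∀ σ, ∀ n < s.N + 2, c' σ n = d5208 s k (ex5208 σ) n) ∧
    ∀ a < k+1, SplitAt (ev a) (s'.Sp : Set ℕ) (k+1) s'.N c' ∧
      DiagAt (ev a) (s'.Sp : Set ℕ) (k+1) s'.N c'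

theorem step5208 (ev : ℕ → List ℕ → ℕ → Option ℕ) (hev : ∀ a, IsFn (ev a)) (k : ℕ)
    (s : St5208) (hs : Ok5208 s) : ∃ s', Ok5208 s' ∧ Stp5208 ev k s s' := by
  obtain ⟨h1, h2, h3⟩ := hs
  have h0 : (0 : ℕ) ∉ insert s.N s.Sp := by
    rw [Finset.mem_insert, not_or]
    exact ⟨by omega, h3⟩
  have hN : ∀ n ∈ insert s.N s.Sp, n < s.N + 2 := by
    intro n hn
    rcases Finset.mem_insert.1 hn with h | h
    · omega
    · have := h2 n h
      omega
  obtain ⟨N', c', ⟨hE1, hE2⟩, hc⟩ := level_step ev hev (k+1) (insert s.N s.Sp) h0 (s.N + 2) hN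
    (fun σ n => d5208 s k (ex5208 σ) n)
  refine ⟨⟨N', insert s.N s.Sp, fun x n => c' (fun a => x a) n⟩, ⟨?_, ?_, h0⟩, hE1, rfl, c', ?_, ?_, hc⟩
  · show 0 < N'
    omega
  · intro n hn
    exact lt_of_lt_of_le (hN n hn) hE1
  · intro x n
    rfl
  · intro σ n hn
    exact hE2 σ n hn

theorem seq5208 (ev : ℕ → List ℕ → ℕ → Option ℕ) (hev : ∀ a, IsFn (ev a)) :
    ∃ s : ℕ → St5208, (s 0).Sp = ∅ ∧ (s 0).c = (fun _ _ => []) ∧ ∀ k, Ok5208 (s k) ∧ Stp5208 ev k (s k) (s (k+1)) := by
  choose! F hF using step5208 ev hev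
  let s : ℕ → St5208 := fun n => Nat.rec ⟨1, ∅, fun _ _ => []⟩ (fun k t => F k t) n
  have h0 : s 0 = ⟨1, ∅, fun _ _ => []⟩ := rfl
  have hs : ∀ k, s (k+1) = F k (s k) := fun k => rfl
  have hok : ∀ k, Ok5208 (s k) := by
    intro k
    induction k with
    | zero =>
      rw [h0]
      refine ⟨by simp, by simp, by simp⟩
    | succ k ih =>
      rw [hs]
      exact (hF k (s k) ih).1
  refine ⟨s, by rw [h0], by rw [h0], fun k => ⟨hok k, ?_⟩⟩
  rw [hs]
  exact (hF k (s k) (hok k)).2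

theorem ex_restr5208 (k : ℕ) (x : ℕ → Bool) (a : ℕ) (ha : a < k) :
    ex5208 (fun i : Fin k => x i) a = x a := by
  simp [ex5208, ha]

theorem exists_tree (ev : ℕ → List ℕ → ℕ → Option ℕ) (hev : ∀ a, IsFn (ev a)) :
    ∃ h C, Tree ev h C := by
  obtain ⟨s, hs0, hs1, hs⟩ := seq5208 ev hev
  set h : ℕ → ℕ := fun k => (s k).N with hh
  have hok : ∀ k, Ok5208 (s k) := fun k => (hs k).1
  have hstep : ∀ k, h k + 2 ≤ h (k+1) := fun k => (hs k).2.1
  have hmono : StrictMono h := by
    apply strictMono_nat_of_lt_succ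
    intro k
    have := hstep k
    omega
  have hlt : ∀ i k, h i < h k → i < k := fun i k hik => hmono.lt_iff_lt.1 hik
  have hge : ∀ k, k < h k := by
    intro k
    induction k with
    | zero => exact (hok 0).1
    | succ k ih =>
      have := hstep k
      omega
  -- special columns
  have hSp : ∀ k n, n ∈ (s k).Sp ↔ ∃ i < k, n = h i := by
    intro k
    induction k with
    | zero => intro n; rw [hs0]; simp
    | succ k ih =>
      intro n
      have e := (hs k).2.2.1
      rw [e, Finset.mem_insert, ih]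
      constructor
      · rintro (h1 | ⟨i, hi, h1⟩)
        · exact ⟨k, by omega, h1⟩
        · exact ⟨i, by omega, h1⟩
      · rintro ⟨i, hi, h1⟩
        rcases Nat.lt_succ_iff_lt_or_eq.1 hi with h2 | h2
        · exact Or.inr ⟨i, h2, h1⟩
        · subst h2
          exact Or.inl h1
  -- (*)
  have hstar' : ∀ k x y, Agr (k+1) x y → ∀ n, (s (k+1)).c x n = (s (k+1)).c y n := by
    intro k x y hxy n
    obtain ⟨c', hc1, hc2, hc3⟩ := (hs k).2.2.2
    rw [hc1, hc1]
    have : (fun a : Fin (k+1) => x a) = (fun a : Fin (k+1) => y a) := by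
      funext a
      exact hxy a a.2
    rw [this]
  have hstar : ∀ k x y, Agr k x y → ∀ n, n < h k → (s k).c x n = (s k).c y n := by
    intro k x y hxy n hn
    cases k with
    | zero => rw [hs1]
    | succ k => exact hstar' k x y hxy n
  have hd : ∀ k x n, n < h k + 2 → (s (k+1)).c x n =
      d5208 (s k) k (ex5208 (fun a : Fin (k+1) => x a)) n := by
    intro k x n hn
    obtain ⟨c', hc1, hc2, hc3⟩ := (hs k).2.2.2
    rw [hc1, hc2 _ n hn]
  have hcoh1 : ∀ k x n, n < h k → (s (k+1)).c x n = (s k).c x n := by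
    intro k x n hn
    rw [hd k x n (by omega)]
    have hn' : n < (s k).N := hn
    rw [d5208, if_pos hn']
    apply hstar k _ _ _ n hn
    intro a ha
    exact ex_restr5208 (k+1) x a (by omega)
  have hcoh : ∀ j i x n, n < h i → (s (i + j)).c x n = (s i).c x n := by
    intro j
    induction j with
    | zero => intro i x n _; rfl
    | succ j ih =>
      intro i x n hn
      have h1 : n < h (i + j) := lt_of_lt_of_le hn (hmono.monotone (by omega))
      rw [← Nat.add_assoc, hcoh1 (i + j) x n h1, ih i x n hn]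
  have hcoh2 : ∀ i k x n, i ≤ k → n < h i → (s k).c x n = (s i).c x n := by
    intro i k x n hik hn
    have := hcoh (k - i) i x n hn
    rwa [Nat.add_sub_cancel' hik] at this
  have hC : ∀ k x n, n < h k → (s (n+1)).c x n = (s k).c x n := by
    intro k x n hn
    have h1 : n < h (n+1) := lt_trans (Nat.lt_succ_self n) (hge (n+1))
    rcases le_total (n+1) k with hk | hk
    · exact (hcoh2 (n+1) k x n hk h1).symm
    · exact hcoh2 k (n+1) x n hk hn
  refine ⟨h, fun x n => (s (n+1)).c x n, ?_, ?_, ?_, ?_, ?_, ?_, ?_⟩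
  · exact (hok 0).1
  · intro k
    have := hstep k
    omega
  · intro k x y hxy n hn
    show (s (n+1)).c x n = (s (n+1)).c y n
    rw [hC k x n hn, hC k y n hn]
    exact hstar k x y hxy n hn
  · intro k x
    show (s (h k + 1)).c x (h k) = []
    rw [hC (k+1) x (h k) (by have := hstep k; omega), hd k x (h k) (by omega), d5208,
      if_neg (by show ¬ h k < h k; omega), if_pos rfl]
  · intro k x
    show (s (h k + 1 + 1)).c x (h k + 1) = _
    rw [hC (k+1) x (h k + 1) (by have := hstep k; omega), hd k x (h k + 1) (by omega), d5208,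
      if_neg (by show ¬ h k + 1 < h k; omega), if_neg (by show ¬ h k + 1 = h k; omega),
      ex_restr5208 (k+1) x k (by omega)]
  · intro k a ha I x hx e he R R' hR hR'
    obtain ⟨k, rfl⟩ : ∃ k', k = k' + 1 := ⟨k - 1, by omega⟩
    obtain ⟨c', hc1, hc2, hc3⟩ := (hs k).2.2.2
    refine transfer_split (ev a) ((s (k+1)).Sp : Set ℕ) (k+1) (h (k+1)) c' ?_ (hc3 a ha).1 I x hx
      (fun i => fun n => (s (n+1)).c (x i) n) ?_ e ?_ R R' hR hR'
    · exact fun h0 => (hok (k+1)).2.2 (Finset.mem_coe.1 h0)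
    · intro i n hn
      show (s (n+1)).c (x i) n = _
      rw [hC (k+1) (x i) n hn, hc1]
    · intro i n hn hnS
      apply he
      rintro ⟨j, rfl⟩
      exact hnS (Finset.mem_coe.2 ((hSp (k+1) _).2 ⟨j, hlt _ _ hn, rfl⟩))
  · intro k a ha I x hx e he y hy R hR g hg w hw
    obtain ⟨k, rfl⟩ : ∃ k', k = k' + 1 := ⟨k - 1, by omega⟩
    obtain ⟨c', hc1, hc2, hc3⟩ := (hs k).2.2.2
    refine transfer_diag (ev a) ((s (k+1)).Sp : Set ℕ) (k+1) (h (k+1)) c' ?_ (hc3 a ha).2 I x hx
      (fun i => fun n => (s (n+1)).c (x i) n) ?_ e ?_ y hy R hR g hg w ?_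
    · exact fun h0 => (hok (k+1)).2.2 (Finset.mem_coe.1 h0)
    · intro i n hn
      show (s (n+1)).c (x i) n = _
      rw [hC (k+1) (x i) n hn, hc1]
    · intro i n hn hnS
      apply he
      rintro ⟨j, rfl⟩
      exact hnS (Finset.mem_coe.2 ((hSp (k+1) _).2 ⟨j, hlt _ _ hn, rfl⟩))
    · intro n hn b v hv
      apply hw n hn b v
      show ((s (n+1)).c y n)[b]? = some v
      rw [hC (k+1) y n hn, hc1]
      exact hv

end Pool.Agent.H246
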